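import Pool.Agent.R917.MT

set_option autoImplicit false
set_option linter.unusedSectionVars false

/-!
# The action of the Lie algebra on subspaces of tensors
-/

open Module Function TensorProduct Matrix

noncomputable section

namespace Pool.Agent.N208.AM

open Pool.Agent.Y102 Pool.Agent.W516.DR Pool.Agent.H204R3.GP Pool.Agent.W516.KC
  Pool.Agent.H204R3.SP Pool.Agent.TH119.MX Pool.Agent.R917

section Gen

variable {κ W R : Type} [Fintype κ] [DecidableEq κ] [CommRing R] [AddCommGroup W] [Module R W]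

/-- The action of an endomorphism on multilinear forms, as a derivation. -/
def dact (X : Module.End R W) (φ : MultilinearMap R (fun _ : κ => W) R) :
    MultilinearMap R (fun _ : κ => W) R :=
  ∑ k, φ.compLinearMap (fun k' => if k' = k then X else LinearMap.id)

theorem dact_apply (X : Module.End R W) (φ : MultilinearMap R (fun _ : κ => W) R) (v : κ → W) :
    dact X φ v = ∑ k, φ (update v k (X (v k))) := by
  unfold dact
  rw [_root_.sum_apply]
  refine Finset.sum_congr rfl fun p _ => ?_
  rw [MultilinearMap.compLinearMap_apply]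
  congr 1
  funext p'
  by_cases hp : p' = p
  · subst hp
    rw [if_pos rfl, update_self]
  · rw [if_neg hp, update_of_ne hp, LinearMap.id_apply]

theorem dact_add (X Y : Module.End R W) (φ : MultilinearMap R (fun _ : κ => W) R) :
    dact (X + Y) φ = dact X φ + dact Y φ := by
  ext v
  rw [_root_.add_apply, dact_apply, dact_apply, dact_apply, ← Finset.sum_add_distrib]
  refine Finset.sum_congr rfl fun k _ => ?_
  rw [LinearMap.add_apply, MultilinearMap.map_update_add]

theorem dact_smul (c : R) (X : Module.End R W) (φ : MultilinearMap R (fun _ : κ => W) R) :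
    dact (c • X) φ = c • dact X φ := by
  ext v
  rw [_root_.smul_apply, dact_apply, dact_apply, smul_eq_mul, Finset.mul_sum]
  refine Finset.sum_congr rfl fun k _ => ?_
  rw [LinearMap.smul_apply, MultilinearMap.map_update_smul, smul_eq_mul]

theorem dact_sum {ι : Type} (s : Finset ι) (X : Module.End R W)
    (φ : ι → MultilinearMap R (fun _ : κ => W) R) :
    dact X (∑ i ∈ s, φ i) = ∑ i ∈ s, dact X (φ i) := by
  ext v
  rw [_root_.sum_apply, dact_apply]
  simp only [_root_.sum_apply, dact_apply]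
  exact Finset.sum_comm

theorem dact_smul' (c : R) (X : Module.End R W) (φ : MultilinearMap R (fun _ : κ => W) R) :
    dact X (c • φ) = c • dact X φ := by
  ext v
  rw [_root_.smul_apply, dact_apply, dact_apply, smul_eq_mul, Finset.mul_sum]
  refine Finset.sum_congr rfl fun k _ => ?_
  rw [_root_.smul_apply, smul_eq_mul]

theorem dact_one (φ : MultilinearMap R (fun _ : κ => W) R) :
    dact (1 : Module.End R W) φ = (Fintype.card κ : R) • φ := by
  ext v
  rw [_root_.smul_apply, dact_apply]
  simp only [Module.End.one_apply, update_eq_self, Finset.sum_const, Finset.card_univ,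
    nsmul_eq_mul, smul_eq_mul]

theorem dact_zero (φ : MultilinearMap R (fun _ : κ => W) R) : dact (0 : Module.End R W) φ = 0 := by
  have h := dact_smul (0 : R) (0 : Module.End R W) φ
  rwa [zero_smul, zero_smul] at h

/-- The commutator. -/
theorem dact_comm (X Y : Module.End R W) (φ : MultilinearMap R (fun _ : κ => W) R) :
    dact (X * Y - Y * X) φ = dact Y (dact X φ) - dact X (dact Y φ) := by
  have key : ∀ (X Y : Module.End R W) (v : κ → W), dact X (dact Y φ) v =
      ∑ k, φ (update v k (Y (X (v k)))) +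
        ∑ k, ∑ l ∈ Finset.univ.erase k, φ (update (update v k (X (v k))) l (Y (v l))) := by
    intro X Y v
    rw [dact_apply, ← Finset.sum_add_distrib]
    refine Finset.sum_congr rfl fun k _ => ?_
    rw [dact_apply, ← Finset.add_sum_erase _ _ (Finset.mem_univ k), update_self, update_idem]
    congr 1
    refine Finset.sum_congr rfl fun l hl => ?_
    rw [update_of_ne (Finset.ne_of_mem_erase hl)]
  have hsym : ∀ v : κ → W,
      ∑ k, ∑ l ∈ Finset.univ.erase k, φ (update (update v k (X (v k))) l (Y (v l))) =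
      ∑ k, ∑ l ∈ Finset.univ.erase k, φ (update (update v k (Y (v k))) l (X (v l))) := by
    intro v
    rw [Finset.sum_sigma', Finset.sum_sigma']
    refine Finset.sum_nbij' (fun x => ⟨x.2, x.1⟩) (fun x => ⟨x.2, x.1⟩) ?_ ?_ ?_ ?_ ?_
    · rintro ⟨k, l⟩ h
      simp only [Finset.mem_sigma, Finset.mem_univ, true_and, Finset.mem_erase, and_true] at h ⊢
      exact fun e => h e.symm
    · rintro ⟨k, l⟩ h
      simp only [Finset.mem_sigma, Finset.mem_univ, true_and, Finset.mem_erase, and_true] at h ⊢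
      exact fun e => h e.symm
    · rintro ⟨k, l⟩ _; rfl
    · rintro ⟨k, l⟩ _; rfl
    · rintro ⟨k, l⟩ h
      simp only [Finset.mem_sigma, Finset.mem_univ, true_and, Finset.mem_erase, and_true] at h
      simp only
      rw [update_comm h]
  ext v
  rw [_root_.sub_apply, key, key, hsym, dact_apply]
  rw [add_sub_add_right_eq_sub, ← Finset.sum_sub_distrib]
  refine Finset.sum_congr rfl fun k _ => ?_
  rw [LinearMap.sub_apply, MultilinearMap.map_update_sub, Module.End.mul_apply,
    Module.End.mul_apply]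

end Gen

variable {g : ℕ} (A : AbVar g) {s n : ℕ} (r : Fin s → ℕ)

/-- Families of multilinear forms on the rational homology. -/
abbrev Ten : Type := ∀ i : Fin s, MultilinearMap ℚ (fun _ : Fin (r i) => A.H1) ℚ

variable {A r}

/-- The endomorphism acts on the basis by a matrix. -/
def Rel (B : Fin n → Ten A r) (X : Module.End ℚ A.H1) (M : Matrix (Fin n) (Fin n) ℚ) : Prop :=
  ∀ a i, dact X (B a i) = ∑ b, M b a • B b i

/-- The weights act on the basis by a matrix. -/
def WRel (w : Fin s → ℤ) (B : Fin n → Ten A r) (M : Matrix (Fin n) (Fin n) ℚ) : Prop :=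
  ∀ a i, ((r i : ℚ) - 2 * w i) • B a i = ∑ b, M b a • B b i

variable {B : Fin n → Ten A r} {w : Fin s → ℤ}

theorem eq_of_comb (hB : LinearIndependent ℚ B) {x y : Fin n → ℚ}
    (h : ∀ i, ∑ b, x b • B b i = ∑ b, y b • B b i) : x = y := by
  have h1 : ∑ b, (x b - y b) • B b = 0 := by
    funext i
    rw [Finset.sum_apply]
    simp only [Pi.smul_apply, sub_smul, Finset.sum_sub_distrib]
    rw [h i, sub_self]
    rfl
  funext b
  exact sub_eq_zero.1 (Fintype.linearIndependent_iff.1 hB _ h1 b)

theorem Rel.uniq (hB : LinearIndependent ℚ B) {X : Module.End ℚ A.H1}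
    {M M' : Matrix (Fin n) (Fin n) ℚ} (h : Rel B X M) (h' : Rel B X M') : M = M' := by
  ext b a
  exact congrFun (eq_of_comb hB fun i => (h a i).symm.trans (h' a i)) b

theorem Rel.add {X Y : Module.End ℚ A.H1} {M N : Matrix (Fin n) (Fin n) ℚ} (hX : Rel B X M)
    (hY : Rel B Y N) : Rel B (X + Y) (M + N) := fun a i => by
  rw [dact_add, hX, hY, ← Finset.sum_add_distrib]
  exact Finset.sum_congr rfl fun b _ => by rw [Matrix.add_apply, add_smul]

theorem Rel.smul {X : Module.End ℚ A.H1} {M : Matrix (Fin n) (Fin n) ℚ} (c : ℚ)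
    (hX : Rel B X M) : Rel B (c • X) (c • M) := fun a i => by
  rw [dact_smul, hX, Finset.smul_sum]
  exact Finset.sum_congr rfl fun b _ => by rw [Matrix.smul_apply, smul_smul, smul_eq_mul]

theorem Rel.zero : Rel B (0 : Module.End ℚ A.H1) 0 := fun a i => by
  rw [dact_zero]
  exact (Finset.sum_eq_zero fun b _ => by rw [Matrix.zero_apply, zero_smul]).symm

theorem dact_comb (X : Module.End ℚ A.H1) {M : Matrix (Fin n) (Fin n) ℚ} (hX : Rel B X M)
    (N : Matrix (Fin n) (Fin n) ℚ) (a : Fin n) (i : Fin s) :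
    dact X (∑ b, N b a • B b i) = ∑ c, (M * N) c a • B c i := by
  rw [dact_sum]
  simp only [dact_smul', hX _ i, Finset.smul_sum, smul_smul]
  rw [Finset.sum_comm]
  refine Finset.sum_congr rfl fun c _ => ?_
  rw [Matrix.mul_apply, Finset.sum_smul]
  exact Finset.sum_congr rfl fun b _ => congrArg (· • B c i) (mul_comm _ _)

theorem Rel.br {X Y : Module.End ℚ A.H1} {M N : Matrix (Fin n) (Fin n) ℚ} (hX : Rel B X M)
    (hY : Rel B Y N) : Rel B (X * Y - Y * X) (N * M - M * N) := fun a i => by
  rw [dact_comm, hX a i, hY a i, dact_comb _ hY, dact_comb _ hX, ← Finset.sum_sub_distrib]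
  exact Finset.sum_congr rfl fun b _ => by rw [Matrix.sub_apply, sub_smul]

theorem WRel.comm (hB : LinearIndependent ℚ B) {X : Module.End ℚ A.H1}
    {M Wt : Matrix (Fin n) (Fin n) ℚ} (hX : Rel B X M) (hW : WRel w B Wt) :
    M * Wt = Wt * M := by
  ext c a
  refine congrFun (eq_of_comb hB (x := fun c => (M * Wt) c a) (y := fun c => (Wt * M) c a)
    fun i => ?_) c
  have h1 := dact_comb X hX Wt a i
  have h2 : ∑ c, (Wt * M) c a • B c i = ((r i : ℚ) - 2 * w i) • ∑ b, M b a • B b i := by
    simp only [Finset.smul_sum, smul_comm _ (M _ a), hW _ i]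
    simp only [smul_smul]
    rw [Finset.sum_comm]
    refine Finset.sum_congr rfl fun c _ => ?_
    rw [Matrix.mul_apply, Finset.sum_smul]
    exact Finset.sum_congr rfl fun b _ => congrArg (· • B c i) (mul_comm _ _)
  change ∑ c, (M * Wt) c a • B c i = ∑ c, (Wt * M) c a • B c i
  rw [h2, ← h1, ← hW, dact_smul', hX]

/-- The rational Lie algebra of a group of matrices. -/
def LQ (H : Set (Matrix (Fin n) (Fin n) ℂ)) : Submodule ℚ (Matrix (Fin n) (Fin n) ℚ) where
  carrier := {M | ∀ d, Stab H d (M.map fun q => (q : ℂ))}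
  zero_mem' := fun d => by
    have h : (0 : Matrix (Fin n) (Fin n) ℚ).map (fun q => (q : ℂ)) = 0 := by
      ext i j
      simp
    rw [h]
    exact Stab.zero
  add_mem' := fun {X Y} hX hY d => by
    have h : (X + Y).map (fun q => (q : ℂ)) = X.map (fun q => (q : ℂ)) +
        Y.map fun q => (q : ℂ) := by
      ext i j
      simp
    rw [h]
    exact (hX d).add (hY d)
  smul_mem' := fun c X hX d => by
    have h : (c • X).map (fun q => (q : ℂ)) = (c : ℂ) • X.map fun q => (q : ℂ) := by
      ext i j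
      simp
    rw [h]
    exact (hX d).smul _

theorem LQ_br {H : Set (Matrix (Fin n) (Fin n) ℂ)} {X Y : Matrix (Fin n) (Fin n) ℚ}
    (hX : X ∈ LQ H) (hY : Y ∈ LQ H) : X * Y - Y * X ∈ LQ H := by
  intro d
  have h : (X * Y - Y * X).map (fun q => (q : ℂ)) = X.map (fun q => (q : ℂ)) *
      Y.map (fun q => (q : ℂ)) - Y.map (fun q => (q : ℂ)) * X.map (fun q => (q : ℂ)) := by
    ext i j
    simp [Matrix.mul_apply]
  rw [h]
  exact (hX d).comm (hY d)

/-- The data of a motive in the tensor category of an abelian variety. -/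
structure Mot (w : Fin s → ℤ) (B : Fin n → Ten A r) (P : Matrix (Fin n) (Fin n) ℂ) : Prop where
  li : LinearIndependent ℚ B
  st : ∀ X ∈ A.NA, ∃ M, Rel B X M
  wt : ∃ M, WRel w B M
  det : P.det ≠ 0
  dR : ∃ c : Fin n → ∀ i : Fin s, (Fin (r i) → Fin g ⊕ Fin g) → ℂ,
    (∀ a i J, IsAlgebraic ℚ (c a i J)) ∧ ∀ a i (v : Fin (r i) → A.H1),
      ∑ J, c a i J * ∏ k, A.dR (J k) (v k) = tau ^ (w i) * ∑ b, P b a * (B b i v : ℂ)

variable {P : Matrix (Fin n) (Fin n) ℂ} {H : Set (Matrix (Fin n) (Fin n) ℂ)}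

/-- The derivative of the periods of the abelian variety. -/
theorem der_dR (D : Derivation QBar ℂ ℂ) (j : Fin g ⊕ Fin g) (v : A.H1) :
    D (A.dR j v) = etaL A.basis j (XX A.basis D ((1 : ℂ) ⊗ₜ[ℚ] v)) := by
  rw [etaL_XX_one, A.coe_basis]

/-- The value of the derivation on the form, as a finite sum. -/
theorem der_sum {κ : Type} [Fintype κ] [DecidableEq κ] (D : Derivation QBar ℂ ℂ)
    {c : (κ → Fin g ⊕ Fin g) → ℂ} (hc : ∀ J, IsAlgebraic ℚ (c J))
    {φ : Fin n → MultilinearMap ℚ (fun _ : κ => A.H1) ℚ} {p : Fin n → ℂ} {t : ℂ}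
    (h : ∀ v : κ → A.H1, ∑ J, c J * ∏ k, A.dR (J k) (v k) = t * ∑ b, p b * (φ b v : ℂ))
    (q : A.H1 → Fin (2 * g) → ℂ)
    (hq : ∀ j v, D (A.dR j v) = ∑ m, q v m * A.dR j (A.bas m)) (v : κ → A.H1) :
    D t * ∑ b, p b * (φ b v : ℂ) + t * ∑ b, D (p b) * (φ b v : ℂ) =
      t * ∑ b, p b * ∑ k, ∑ m, q (v k) m * (φ b (update v k (A.bas m)) : ℂ) := by
  have hcast : ∀ x : ℚ, D (x : ℂ) = 0 := fun x => (derQ D).map_algebraMap x
  have h1 := congrArg D (h v)
  rw [map_sum, Derivation.leibniz, map_sum] at h1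
  have h2 : ∑ b, D (p b * (φ b v : ℂ)) = ∑ b, D (p b) * (φ b v : ℂ) := by
    refine Finset.sum_congr rfl fun b _ => ?_
    rw [Derivation.leibniz, hcast, smul_zero, zero_add, smul_eq_mul, mul_comm]
  rw [h2, smul_eq_mul, smul_eq_mul] at h1
  have h3 : ∀ J, D (c J * ∏ k, A.dR (J k) (v k)) =
      ∑ k, ∑ m, q (v k) m * (c J * ∏ l, A.dR (J l) (update v k (A.bas m) l)) := by
    intro J
    have hcJ : D (c J) = 0 := by
      exact Pool.Agent.TH119.DR.deriv_alg (derQ D) (hc J)
    have hpr : D (∏ k, A.dR (J k) (v k)) = ∑ k, (∏ l ∈ Finset.univ.erase k, A.dR (J l) (v l)) *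
        D (A.dR (J k) (v k)) :=
      (Pool.Agent.TH119.DR.deriv_prod (derQ D) Finset.univ fun k => A.dR (J k) (v k)).trans
        (Finset.sum_congr rfl fun k _ => mul_comm _ _)
    rw [Derivation.leibniz, hcJ, smul_zero, add_zero, hpr, smul_eq_mul,
      Finset.mul_sum]
    refine Finset.sum_congr rfl fun k _ => ?_
    rw [hq, Finset.mul_sum, Finset.mul_sum]
    refine Finset.sum_congr rfl fun m _ => ?_
    rw [← Finset.mul_prod_erase Finset.univ (fun l => A.dR (J l) (update v k (A.bas m) l))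
      (Finset.mem_univ k), update_self]
    have h4 : ∏ l ∈ Finset.univ.erase k, A.dR (J l) (update v k (A.bas m) l) =
        ∏ l ∈ Finset.univ.erase k, A.dR (J l) (v l) :=
      Finset.prod_congr rfl fun l hl => by rw [update_of_ne (Finset.ne_of_mem_erase hl)]
    rw [h4]
    ring
  rw [Finset.sum_congr rfl fun J _ => h3 J] at h1
  have h4 : ∑ J, ∑ k, ∑ m, q (v k) m * (c J * ∏ l, A.dR (J l) (update v k (A.bas m) l)) =
      t * ∑ b, p b * ∑ k, ∑ m, q (v k) m * (φ b (update v k (A.bas m)) : ℂ) := by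
    rw [Finset.sum_comm]
    have h5 : ∀ k m, ∑ J, q (v k) m * (c J * ∏ l, A.dR (J l) (update v k (A.bas m) l)) =
        q (v k) m * (t * ∑ b, p b * (φ b (update v k (A.bas m)) : ℂ)) := by
      intro k m
      rw [← Finset.mul_sum, h]
    have h6 : ∀ k, ∑ J, ∑ m, q (v k) m * (c J * ∏ l, A.dR (J l) (update v k (A.bas m) l)) =
        ∑ m, q (v k) m * (t * ∑ b, p b * (φ b (update v k (A.bas m)) : ℂ)) := by
      intro k
      rw [Finset.sum_comm]
      exact Finset.sum_congr rfl fun m _ => h5 k m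
    rw [Finset.sum_congr rfl fun k _ => h6 k, Finset.mul_sum]
    simp only [Finset.mul_sum]
    rw [Finset.sum_congr rfl fun k _ => Finset.sum_comm, Finset.sum_comm]
    refine Finset.sum_congr rfl fun b _ => Finset.sum_congr rfl fun k _ =>
      Finset.sum_congr rfl fun m _ => by ring
  rw [h4] at h1
  rw [h1]
  ring

end Pool.Agent.N208.AM
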