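import Mathlib

set_option autoImplicit false
set_option linter.unusedSectionVars false

/-!
# Real Lie algebras with a complex structure of rank one
-/

open Module Matrix

namespace Pool.Agent.N208.AM.RLie

variable {V : Type} [AddCommGroup V] [Module ℝ V]

section Perfect

variable {W : Type} [AddCommGroup W] [Module ℝ W]

/-- A perfect subspace of dimension at most two is zero. -/
theorem perfect_dim (br : W →ₗ[ℝ] W →ₗ[ℝ] W) (halt : ∀ x, br x x = 0) {S : Submodule ℝ W}
    [FiniteDimensional ℝ S] (hS : S ≤ Submodule.span ℝ {z | ∃ x ∈ S, ∃ y ∈ S, z = br x y})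
    (hd : finrank ℝ S ≤ 2) : S = ⊥ := by
  have hanti : ∀ x y, br x y = -br y x := by
    intro x y
    have h := halt (x + y)
    simp only [map_add, LinearMap.add_apply, halt, zero_add, add_zero] at h
    first
    | exact eq_neg_of_add_eq_zero_left h
    | exact eq_neg_of_add_eq_zero_right h
  -- two generators
  obtain ⟨u, v, huv⟩ : ∃ u v : W, S ≤ Submodule.span ℝ {u, v} := by
    have b := finBasis ℝ S
    have h2 : ∀ (x : W) (hx : x ∈ S), x = ∑ i, b.repr ⟨x, hx⟩ i • (b i : W) := by
      intro x hx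
      have h3 := congrArg (fun y : S => (y : W)) (b.sum_repr ⟨x, hx⟩)
      simp only [Submodule.coe_sum, Submodule.coe_smul] at h3
      exact h3.symm
    have h3 : finrank ℝ S = 0 ∨ finrank ℝ S = 1 ∨ finrank ℝ S = 2 := by omega
    rcases h3 with h3 | h3 | h3
    · refine ⟨0, 0, fun x hx => ?_⟩
      have h4 : S = ⊥ := by
        rw [← Submodule.finrank_eq_zero (R := ℝ)]
        exact h3
      rw [h4, Submodule.mem_bot] at hx
      rw [hx]
      exact Submodule.zero_mem _
    · refine ⟨b ⟨0, by omega⟩, 0, fun x hx => ?_⟩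
      rw [h2 x hx]
      refine Submodule.sum_mem _ fun i _ => Submodule.smul_mem _ _ (Submodule.subset_span ?_)
      have h5 : i = ⟨0, by omega⟩ := Fin.ext (by have := i.2; simp only; omega)
      rw [h5]
      exact Or.inl rfl
    · refine ⟨b ⟨0, by omega⟩, b ⟨1, by omega⟩, fun x hx => ?_⟩
      rw [h2 x hx]
      refine Submodule.sum_mem _ fun i _ => Submodule.smul_mem _ _ (Submodule.subset_span ?_)
      have h5 : i = ⟨0, by omega⟩ ∨ i = ⟨1, by omega⟩ := by
        have := i.2
        rcases Nat.lt_or_ge (i : ℕ) 1 with h | h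
        · exact Or.inl (Fin.ext (by simp only; omega))
        · exact Or.inr (Fin.ext (by simp only; omega))
      rcases h5 with h5 | h5
      · rw [h5]
        exact Or.inl rfl
      · rw [h5]
        exact Or.inr rfl
  have h1 : S ≤ Submodule.span ℝ {br u v} := by
    refine hS.trans (Submodule.span_le.2 ?_)
    rintro _ ⟨x, hx, y, hy, rfl⟩
    obtain ⟨a, b, hab⟩ := Submodule.mem_span_pair.1 (huv hx)
    obtain ⟨c, d, hcd⟩ := Submodule.mem_span_pair.1 (huv hy)
    rw [← hab, ← hcd]
    have h2 : br (a • u + b • v) (c • u + d • v) = (a * d - b * c) • br u v := by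
      simp only [map_add, map_smul, LinearMap.add_apply, LinearMap.smul_apply, halt, smul_zero,
        zero_add, add_zero]
      rw [hanti v u]
      module
    rw [h2]
    exact Submodule.smul_mem _ _ (Submodule.mem_span_singleton_self _)
  rw [eq_bot_iff]
  refine hS.trans (Submodule.span_le.2 ?_)
  rintro _ ⟨x, hx, y, hy, rfl⟩
  obtain ⟨a, ha⟩ := Submodule.mem_span_singleton.1 (h1 hx)
  obtain ⟨b, hb⟩ := Submodule.mem_span_singleton.1 (h1 hy)
  rw [← ha, ← hb]
  simp only [map_smul, LinearMap.smul_apply, halt, smul_zero]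
  exact Submodule.zero_mem _

end Perfect

variable {n : ℕ}

/-- The commutator. -/
def br : (Matrix (Fin n) (Fin n) ℝ) →ₗ[ℝ] (Matrix (Fin n) (Fin n) ℝ) →ₗ[ℝ] (Matrix (Fin n) (Fin n) ℝ) :=
  LinearMap.mk₂ ℝ (fun x y => x * y - y * x)
    (fun x y z => by rw [add_mul, mul_add]; abel)
    (fun c x y => by rw [smul_mul_assoc, mul_smul_comm, smul_sub])
    (fun x y z => by rw [add_mul, mul_add]; abel)
    (fun c x y => by rw [smul_mul_assoc, mul_smul_comm, smul_sub])

theorem br_apply (x y : (Matrix (Fin n) (Fin n) ℝ)) : br x y = x * y - y * x := rfl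

theorem br_self (x : (Matrix (Fin n) (Fin n) ℝ)) : br x x = 0 := sub_self _

theorem br_anti (x y : (Matrix (Fin n) (Fin n) ℝ)) : br x y = -br y x := by
  rw [br_apply, br_apply, neg_sub]

theorem jac (x y z : (Matrix (Fin n) (Fin n) ℝ)) : br x (br y z) = br (br x y) z + br y (br x z) := by
  simp only [br_apply]
  noncomm_ring

theorem tr_br (x y z : (Matrix (Fin n) (Fin n) ℝ)) : (br x y * z).trace = (x * br y z).trace := by
  rw [br_apply, br_apply, sub_mul, mul_sub, Matrix.trace_sub, Matrix.trace_sub, mul_assoc x y z,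
    mul_assoc y x z, Matrix.trace_mul_comm y (x * z), mul_assoc x z y]

/-- The data: a real Lie algebra `m` with a complex structure `N` which is compact for the trace
form. -/
structure Dat (m : Submodule ℝ (Matrix (Fin n) (Fin n) ℝ)) (N : (Matrix (Fin n) (Fin n) ℝ)) : Prop where
  br : ∀ x ∈ m, ∀ y ∈ m, br x y ∈ m
  mem : N ∈ m
  cub : ∀ x ∈ m, RLie.br N (RLie.br N (RLie.br N x)) = (-4 : ℝ) • RLie.br N x
  pos : ∀ x ∈ m, x ≠ 0 → ((x + (1 / 2 : ℝ) • RLie.br N (RLie.br N x)) * x).trace < 0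
  cen : ∀ z ∈ m, (∀ x ∈ m, RLie.br z x = 0) → z = 0

variable {m : Submodule ℝ (Matrix (Fin n) (Fin n) ℝ)} {N : Matrix (Fin n) (Fin n) ℝ}

namespace Dat

variable (h : Dat m N)
include h

theorem negk {z : (Matrix (Fin n) (Fin n) ℝ)} (hz : z ∈ m) (hN : RLie.br N z = 0) (h0 : z ≠ 0) : (z * z).trace < 0 := by
  have h1 := h.pos z hz h0
  rwa [hN, map_zero, smul_zero, add_zero] at h1

theorem nonposk {z : (Matrix (Fin n) (Fin n) ℝ)} (hz : z ∈ m) (hN : RLie.br N z = 0) : (z * z).trace ≤ 0 := by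
  by_cases h0 : z = 0
  · rw [h0, zero_mul, Matrix.trace_zero]
  · exact (h.negk hz hN h0).le

theorem posp {x : (Matrix (Fin n) (Fin n) ℝ)} (hx : x ∈ m) (hN : RLie.br N (RLie.br N x) = (-4 : ℝ) • x) (h0 : x ≠ 0) :
    0 < (x * x).trace := by
  have h1 := h.pos x hx h0
  have h2 : x + (1 / 2 : ℝ) • (-4 : ℝ) • x = -x := by module
  rw [hN, h2, neg_mul, Matrix.trace_neg] at h1
  exact neg_lt_zero.1 h1

/-- **Main lemma.** Let the image of `ad N` have dimension at most two, and let `e` be a perfect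
subalgebra such that an ideal which commutes with `e` is central. Then `N` is in `e`. -/
theorem main {e : Submodule ℝ (Matrix (Fin n) (Fin n) ℝ)} (hem : e ≤ m)
    (heb : ∀ x ∈ e, ∀ y ∈ e, RLie.br x y ∈ e)
    (hperf : e ≤ Submodule.span ℝ {z | ∃ x ∈ e, ∃ y ∈ e, z = RLie.br x y})
    (hgen : ∀ t : Submodule ℝ (Matrix (Fin n) (Fin n) ℝ), t ≤ m →
      (∀ x ∈ m, ∀ z ∈ t, RLie.br x z ∈ t) → (∀ x ∈ e, ∀ z ∈ t, RLie.br x z = 0) →
      ∀ x ∈ m, ∀ z ∈ t, RLie.br x z = 0)
    (hdim : finrank ℝ (m.map (RLie.br N)) ≤ 2) : N ∈ e := by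
  by_cases hp : ∀ x ∈ m, RLie.br N x = 0
  · rw [h.cen N h.mem hp]
    exact e.zero_mem
  push Not at hp
  obtain ⟨x₀, hx₀, hx₀'⟩ := hp
  set X := RLie.br N x₀ with hX
  set Y := RLie.br N X with hY
  have hXm : X ∈ m := h.br _ h.mem _ hx₀
  have hYm : Y ∈ m := h.br _ h.mem _ hXm
  have hNY : RLie.br N Y = (-4 : ℝ) • X := h.cub x₀ hx₀
  have hX2 : 0 < (X * X).trace := h.posp hXm hNY hx₀'
  have hXY : (X * Y).trace = 0 := by
    have h1 := tr_br X N X
    rw [br_anti X N, ← hY, neg_mul, Matrix.trace_neg, Matrix.trace_mul_comm] at h1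
    linarith
  have hY2 : (Y * Y).trace = 4 * (X * X).trace := by
    have h1 := tr_br X N Y
    rw [hNY, br_anti X N, ← hY, neg_mul, Matrix.trace_neg, Matrix.mul_smul, Matrix.trace_smul,
      smul_eq_mul] at h1
    linarith
  have hNN : RLie.br N N = 0 := br_self N
  -- the image of `ad N` is spanned by `X` and `Y`
  have hli : LinearIndependent ℝ ![X, Y] := by
    rw [LinearIndependent.pair_iff]
    intro a b hab
    have h1 : ((a • X + b • Y) * X).trace = 0 := by rw [hab, zero_mul, Matrix.trace_zero]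
    have h2 : ((a • X + b • Y) * Y).trace = 0 := by rw [hab, zero_mul, Matrix.trace_zero]
    rw [add_mul, Matrix.trace_add, smul_mul_assoc, smul_mul_assoc, Matrix.trace_smul,
      Matrix.trace_smul, smul_eq_mul, smul_eq_mul, Matrix.trace_mul_comm Y X, hXY, mul_zero,
      add_zero] at h1
    rw [add_mul, Matrix.trace_add, smul_mul_assoc, smul_mul_assoc, Matrix.trace_smul,
      Matrix.trace_smul, smul_eq_mul, smul_eq_mul, hXY, mul_zero, zero_add, hY2] at h2
    exact ⟨(mul_eq_zero.1 h1).resolve_right hX2.ne',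
      (mul_eq_zero.1 h2).resolve_right (by positivity)⟩
  have himg : ∀ x ∈ m, ∃ a b : ℝ, RLie.br N x = a • X + b • Y := by
    intro x hx
    have h1 : Submodule.span ℝ (Set.range ![X, Y]) = m.map (RLie.br N) := by
      refine Submodule.eq_of_le_of_finrank_le ?_ ?_
      · rw [Submodule.span_le]
        rintro _ ⟨i, rfl⟩
        fin_cases i
        · exact Submodule.mem_map_of_mem hx₀
        · exact Submodule.mem_map_of_mem hXm
      · rw [finrank_span_eq_card hli]
        exact hdim
    have h2 : RLie.br N x ∈ Submodule.span ℝ (Set.range ![X, Y]) := by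
      rw [h1]
      exact Submodule.mem_map_of_mem hx
    rw [Matrix.range_cons, Matrix.range_cons, Matrix.range_empty, Set.union_empty,
      Set.singleton_union, Submodule.mem_span_pair] at h2
    obtain ⟨a, b, hab⟩ := h2
    exact ⟨a, b, hab.symm⟩
  -- the action of the centralizer of `N`
  have hact : ∀ z ∈ m, RLie.br N z = 0 → ∃ b : ℝ, RLie.br z X = b • Y ∧
      RLie.br z Y = (-(4 * b)) • X := by
    intro z hz hNz
    have h1 : RLie.br N (RLie.br z X) = RLie.br z Y := by
      rw [jac, hNz, LinearMap.map_zero₂, zero_add]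
    have h2 : RLie.br N (RLie.br z Y) = (-4 : ℝ) • RLie.br z X := by
      rw [jac, hNz, LinearMap.map_zero₂, zero_add, hNY, map_smul]
    obtain ⟨a, b, hab⟩ := himg _ (h.br z hz Y hYm)
    have h3 : RLie.br z X = (-(a / 4)) • X + (-(b / 4)) • Y := by
      have h4 : (-4 : ℝ) • RLie.br z X = a • X + b • Y := by rw [← h2, hab]
      have h5 : RLie.br z X = (-(1 / 4 : ℝ)) • (-4 : ℝ) • RLie.br z X := by module
      rw [h5, h4]
      module
    have h4 : (RLie.br z X * X).trace = 0 := by
      rw [tr_br, br_self, mul_zero, Matrix.trace_zero]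
    rw [h3, add_mul, Matrix.trace_add, smul_mul_assoc, smul_mul_assoc, Matrix.trace_smul,
      Matrix.trace_smul, smul_eq_mul, smul_eq_mul, Matrix.trace_mul_comm Y X, hXY, mul_zero,
      add_zero] at h4
    have h5 := (mul_eq_zero.1 h4).resolve_right hX2.ne'
    rw [h5, zero_smul, zero_add] at h3
    refine ⟨-(b / 4), h3, ?_⟩
    rw [← h1, h3, map_smul, hNY]
    module
  -- the third element
  set K := RLie.br X Y with hK
  have hKm : K ∈ m := h.br _ hXm _ hYm
  have hNK : RLie.br N K = 0 := by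
    rw [hK, jac, ← hY, br_self, hNY, map_smul, br_self, smul_zero, add_zero]
  obtain ⟨c, hc1, hc2⟩ := hact K hKm hNK
  have hKN : (K * N).trace = 4 * (X * X).trace := by
    rw [hK, tr_br, br_anti Y N, hNY, mul_neg, Matrix.trace_neg, Matrix.mul_smul,
      Matrix.trace_smul, smul_eq_mul]
    ring
  have hK0 : K ≠ 0 := by
    intro h0
    rw [h0, zero_mul, Matrix.trace_zero] at hKN
    linarith
  have hKK : (K * K).trace = c * (Y * Y).trace := by
    have h1 := tr_br X Y K
    rw [← hK, br_anti Y K, hc2, neg_smul, neg_neg, Matrix.mul_smul, Matrix.trace_smul,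
      smul_eq_mul] at h1
    rw [h1, hY2]
    ring
  have hc : c < 0 := by
    have h1 := h.negk hKm hNK hK0
    rw [hKK, hY2] at h1
    by_contra hcon
    push Not at hcon
    have : 0 ≤ c * (4 * (X * X).trace) := by positivity
    linarith
  -- the decomposition
  have hdec : ∀ x ∈ m, ∃ α β γ : ℝ, ∃ z ∈ m, RLie.br N z = 0 ∧ RLie.br z X = 0 ∧
      RLie.br z Y = 0 ∧ x = α • X + β • Y + γ • N + z := by
    intro x hx
    have h1 : RLie.br N (x + (1 / 4 : ℝ) • RLie.br N (RLie.br N x)) = 0 := by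
      rw [map_add, map_smul, h.cub x hx]
      module
    obtain ⟨a, b, hab⟩ := himg _ (h.br _ h.mem _ hx)
    have h2 : x + (1 / 4 : ℝ) • RLie.br N (RLie.br N x) ∈ m :=
      m.add_mem hx (m.smul_mem _ (h.br _ h.mem _ (h.br _ h.mem _ hx)))
    obtain ⟨d, hd1, hd2⟩ := hact _ h2 h1
    refine ⟨-(a / 4), -(b / 4), d, x + (1 / 4 : ℝ) • RLie.br N (RLie.br N x) - d • N,
      m.sub_mem h2 (m.smul_mem _ h.mem), ?_, ?_, ?_, ?_⟩
    · rw [map_sub, h1, map_smul, hNN, smul_zero, sub_zero]
    · rw [LinearMap.map_sub₂, hd1, LinearMap.map_smul₂, ← hY, sub_self]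
    · rw [LinearMap.map_sub₂, hd2, LinearMap.map_smul₂, hNY]
      module
    · rw [hab]
      module
  -- `K` is a multiple of `N`
  have hKcN : K = c • N := by
    rw [← sub_eq_zero]
    refine h.cen _ (m.sub_mem hKm (m.smul_mem _ h.mem)) fun x hx => ?_
    have w1 : RLie.br (K - c • N) X = 0 := by
      rw [LinearMap.map_sub₂, hc1, LinearMap.map_smul₂, ← hY, sub_self]
    have w2 : RLie.br (K - c • N) Y = 0 := by
      rw [LinearMap.map_sub₂, hc2, LinearMap.map_smul₂, hNY]
      module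
    have w3 : RLie.br (K - c • N) N = 0 := by
      rw [LinearMap.map_sub₂, br_anti K N, hNK, neg_zero, LinearMap.map_smul₂, hNN, smul_zero,
        sub_zero]
    obtain ⟨α, β, γ, z, hz, hz1, hz2, hz3, rfl⟩ := hdec x hx
    have w4 : RLie.br (K - c • N) z = 0 := by
      rw [LinearMap.map_sub₂, LinearMap.map_smul₂, hz1, smul_zero, sub_zero, br_anti, hK, jac, hz2,
        LinearMap.map_zero₂, zero_add, hz3, map_zero, neg_zero]
    rw [map_add, map_add, map_add, map_smul, map_smul, map_smul, w1, w2, w3, w4]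
    simp
  -- brackets in the basis
  have hXN : RLie.br X N = -Y := by rw [br_anti, hY]
  have hYX : RLie.br Y X = -(c • N) := by rw [br_anti, ← hK, hKcN]
  have hYN : RLie.br Y N = (4 : ℝ) • X := by
    rw [br_anti, hNY]
    module
  have hXYc : RLie.br X Y = c • N := by rw [← hK, hKcN]
  -- the three-dimensional ideal
  let s0 : Submodule ℝ (Matrix (Fin n) (Fin n) ℝ) := Submodule.span ℝ {X, Y, N}
  have hs0 : ∀ x, x ∈ s0 ↔ ∃ α β γ : ℝ, x = α • X + β • Y + γ • N := by
    intro x
    rw [Submodule.mem_span_triple]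
    constructor
    · rintro ⟨a, b, c, h⟩
      exact ⟨a, b, c, h.symm⟩
    · rintro ⟨a, b, c, h⟩
      exact ⟨a, b, c, h.symm⟩
  have hs0m : s0 ≤ m := by
    rw [Submodule.span_le]
    rintro _ (rfl | rfl | rfl)
    · exact hXm
    · exact hYm
    · exact h.mem
  have hbr : ∀ α β γ α' β' γ' : ℝ, ∀ z z' : (Matrix (Fin n) (Fin n) ℝ), RLie.br N z = 0 → RLie.br z X = 0 →
      RLie.br z Y = 0 → RLie.br N z' = 0 → RLie.br z' X = 0 → RLie.br z' Y = 0 →
      RLie.br (α • X + β • Y + γ • N + z) (α' • X + β' • Y + γ' • N + z') =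
        (4 * (β * γ' - γ * β')) • X + (γ * α' - α * γ') • Y +
          (c * (α * β' - β * α')) • N + RLie.br z z' := by
    intro α β γ α' β' γ' z z' h1 h2 h3 h4 h5 h6
    have e1 : RLie.br z N = 0 := by rw [br_anti, h1, neg_zero]
    have e2 : RLie.br X z' = 0 := by rw [br_anti, h5, neg_zero]
    have e3 : RLie.br Y z' = 0 := by rw [br_anti, h6, neg_zero]
    simp only [map_add, map_smul, LinearMap.add_apply, LinearMap.smul_apply, br_self, hXN, hYX,
      hYN, hXYc, h2, h3, h4, e1, e2, e3, ← hY, hNY]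
    module
  -- `s0` is an ideal
  have hs0i : ∀ x ∈ m, ∀ z ∈ s0, RLie.br x z ∈ s0 := by
    intro x hx z hz
    obtain ⟨α, β, γ, z', hz', h1, h2, h3, rfl⟩ := hdec x hx
    obtain ⟨α', β', γ', rfl⟩ := (hs0 z).1 hz
    have h4 := hbr α β γ α' β' γ' z' 0 h1 h2 h3 (map_zero _) (LinearMap.map_zero₂ _ _)
      (LinearMap.map_zero₂ _ _)
    rw [add_zero, map_zero, add_zero] at h4
    rw [h4]
    exact (hs0 _).2 ⟨_, _, _, rfl⟩
  -- the coordinates are unique
  have huniq : ∀ α β γ : ℝ, ∀ z : (Matrix (Fin n) (Fin n) ℝ), RLie.br N z = 0 → RLie.br z X = 0 →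
      RLie.br z Y = 0 → α • X + β • Y + γ • N + z = 0 → α = 0 ∧ β = 0 ∧ γ = 0 ∧ z = 0 := by
    intro α β γ z h1 h2 h3 h0
    have e1 : RLie.br N (α • X + β • Y + γ • N + z) = 0 := by rw [h0, map_zero]
    rw [map_add, map_add, map_add, map_smul, map_smul, map_smul, h1, hNN, hNY, ← hY] at e1
    have e2 : (-(4 * β)) • X + α • Y = 0 := by
      rw [← e1]
      module
    obtain ⟨e3, e4⟩ := (LinearIndependent.pair_iff.1 hli) _ _ e2
    have e5 : β = 0 := by linarith
    subst e4
    subst e5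
    have e6 : RLie.br (γ • N + z) X = 0 := by
      have e7 : γ • N + z = 0 := by
        rw [← h0]
        module
      rw [e7, LinearMap.map_zero₂]
    rw [map_add, LinearMap.add_apply, h2, add_zero, map_smul, LinearMap.smul_apply, ← hY] at e6
    have hY0 : Y ≠ 0 := by
      intro h00
      rw [h00, zero_mul, Matrix.trace_zero] at hY2
      linarith
    have e7 : γ = 0 := (smul_eq_zero.1 e6).resolve_right hY0
    subst e7
    refine ⟨rfl, rfl, rfl, ?_⟩
    rw [← h0]
    module
  -- the projection of `e`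
  let a : Submodule ℝ (Matrix (Fin n) (Fin n) ℝ) :=
    { carrier := {u | u ∈ s0 ∧ ∃ z ∈ m, RLie.br N z = 0 ∧ RLie.br z X = 0 ∧ RLie.br z Y = 0 ∧
        u + z ∈ e}
      zero_mem' := ⟨s0.zero_mem, 0, m.zero_mem, map_zero _, LinearMap.map_zero₂ _ _,
        LinearMap.map_zero₂ _ _, by rw [add_zero]; exact e.zero_mem⟩
      add_mem' := by
        rintro u v ⟨hu, z, hz, h1, h2, h3, h4⟩ ⟨hv, z', hz', h1', h2', h3', h4'⟩
        refine ⟨s0.add_mem hu hv, z + z', m.add_mem hz hz', by rw [map_add, h1, h1', add_zero],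
          by rw [map_add, LinearMap.add_apply, h2, h2', add_zero],
          by rw [map_add, LinearMap.add_apply, h3, h3', add_zero], ?_⟩
        have h5 := e.add_mem h4 h4'
        rwa [add_add_add_comm] at h5
      smul_mem' := by
        rintro t u ⟨hu, z, hz, h1, h2, h3, h4⟩
        refine ⟨s0.smul_mem t hu, t • z, m.smul_mem t hz, by rw [map_smul, h1, smul_zero],
          by rw [map_smul, LinearMap.smul_apply, h2, smul_zero],
          by rw [map_smul, LinearMap.smul_apply, h3, smul_zero], ?_⟩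
        have h5 := e.smul_mem t h4
        rwa [smul_add] at h5 }
  have ha_s0 : a ≤ s0 := fun u hu => hu.1
  -- `a` is perfect
  have haperf : a ≤ Submodule.span ℝ {z | ∃ x ∈ a, ∃ y ∈ a, z = RLie.br x y} := by
    rintro u ⟨hu, z, hz, h1, h2, h3, h4⟩
    have h5 := hperf h4
    have key : ∀ w ∈ Submodule.span ℝ {z | ∃ x ∈ e, ∃ y ∈ e, z = RLie.br x y},
        ∃ u' ∈ s0, ∃ z' : (Matrix (Fin n) (Fin n) ℝ), RLie.br N z' = 0 ∧ RLie.br z' X = 0 ∧ RLie.br z' Y = 0 ∧
          w = u' + z' ∧ u' ∈ Submodule.span ℝ {z | ∃ x ∈ a, ∃ y ∈ a, z = RLie.br x y} := by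
      intro w hw
      induction hw using Submodule.span_induction with
      | mem w hw =>
        obtain ⟨p, hp, q, hq, rfl⟩ := hw
        obtain ⟨α, β, γ, zp, hzp, p1, p2, p3, hpe⟩ := hdec p (hem hp)
        obtain ⟨α', β', γ', zq, hzq, q1, q2, q3, hqe⟩ := hdec q (hem hq)
        have hp' : α • X + β • Y + γ • N ∈ a :=
          ⟨(hs0 _).2 ⟨_, _, _, rfl⟩, zp, hzp, p1, p2, p3, by rw [← hpe]; exact hp⟩
        have hq' : α' • X + β' • Y + γ' • N ∈ a :=
          ⟨(hs0 _).2 ⟨_, _, _, rfl⟩, zq, hzq, q1, q2, q3, by rw [← hqe]; exact hq⟩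
        have e1 := hbr α β γ α' β' γ' zp zq p1 p2 p3 q1 q2 q3
        have e2 := hbr α β γ α' β' γ' 0 0 (map_zero _) (LinearMap.map_zero₂ _ _)
          (LinearMap.map_zero₂ _ _) (map_zero _) (LinearMap.map_zero₂ _ _)
          (LinearMap.map_zero₂ _ _)
        rw [add_zero, add_zero, map_zero, add_zero] at e2
        refine ⟨RLie.br (α • X + β • Y + γ • N) (α' • X + β' • Y + γ' • N), ?_, RLie.br zp zq,
          ?_, ?_, ?_, ?_, Submodule.subset_span ⟨_, hp', _, hq', rfl⟩⟩
        · rw [e2]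
          exact (hs0 _).2 ⟨_, _, _, rfl⟩
        · rw [jac, p1, q1, LinearMap.map_zero₂, map_zero, add_zero]
        · rw [br_anti, jac, br_anti X zp, p2, neg_zero, LinearMap.map_zero₂, br_anti X zq, q2,
            neg_zero, map_zero, add_zero, neg_zero]
        · rw [br_anti, jac, br_anti Y zp, p3, neg_zero, LinearMap.map_zero₂, br_anti Y zq, q3,
            neg_zero, map_zero, add_zero, neg_zero]
        · rw [hpe, hqe, e1, e2]
      | zero =>
        exact ⟨0, s0.zero_mem, 0, map_zero _, LinearMap.map_zero₂ _ _, LinearMap.map_zero₂ _ _,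
          (add_zero _).symm, Submodule.zero_mem _⟩
      | add p q _ _ hp hq =>
        obtain ⟨u1, hu1, z1, a1, a2, a3, a4, a5⟩ := hp
        obtain ⟨u2, hu2, z2, b1, b2, b3, b4, b5⟩ := hq
        refine ⟨u1 + u2, s0.add_mem hu1 hu2, z1 + z2, by rw [map_add, a1, b1, add_zero],
          by rw [map_add, LinearMap.add_apply, a2, b2, add_zero],
          by rw [map_add, LinearMap.add_apply, a3, b3, add_zero], ?_, Submodule.add_mem _ a5 b5⟩
        rw [a4, b4]
        abel
      | smul t p _ hp =>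
        obtain ⟨u1, hu1, z1, a1, a2, a3, a4, a5⟩ := hp
        refine ⟨t • u1, s0.smul_mem t hu1, t • z1, by rw [map_smul, a1, smul_zero],
          by rw [map_smul, LinearMap.smul_apply, a2, smul_zero],
          by rw [map_smul, LinearMap.smul_apply, a3, smul_zero], ?_, Submodule.smul_mem _ t a5⟩
        rw [a4, smul_add]
    obtain ⟨u', hu', z', e1, e2, e3, e4, e5⟩ := key _ h5
    have e6 : u = u' := by
      have e7 : (u - u') + (z - z') = 0 := by
        have e8 := sub_eq_zero.2 e4
        rw [← e8]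
        abel
      obtain ⟨α, β, γ, hαβγ⟩ := (hs0 _).1 (s0.sub_mem hu hu')
      rw [hαβγ] at e7
      obtain ⟨f1, f2, f3, -⟩ := huniq α β γ (z - z') (by rw [map_sub, h1, e1, sub_zero])
        (by rw [map_sub, LinearMap.sub_apply, h2, e2, sub_zero])
        (by rw [map_sub, LinearMap.sub_apply, h3, e3, sub_zero]) e7
      rw [f1, f2, f3] at hαβγ
      rw [← sub_eq_zero, hαβγ]
      simp
    rw [e6]
    exact e5
  -- `a` is not zero
  have ha0 : a ≠ ⊥ := by
    intro ha0
    have h1 : ∀ x ∈ e, ∀ z ∈ s0, RLie.br x z = 0 := by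
      intro x hx z hz
      obtain ⟨α, β, γ, z', hz', h1, h2, h3, hxe⟩ := hdec x (hem hx)
      have h4 : α • X + β • Y + γ • N ∈ a :=
        ⟨(hs0 _).2 ⟨_, _, _, rfl⟩, z', hz', h1, h2, h3, by rw [← hxe]; exact hx⟩
      rw [ha0, Submodule.mem_bot] at h4
      rw [h4, zero_add] at hxe
      obtain ⟨α', β', γ', rfl⟩ := (hs0 z).1 hz
      rw [hxe, map_add, map_add, map_smul, map_smul, map_smul, h2, h3, br_anti z' N, h1]
      simp
    have h2 := hgen s0 hs0m hs0i h1 N h.mem X ((hs0 _).2 ⟨1, 0, 0, by simp⟩)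
    have hY0 : Y ≠ 0 := by
      intro h00
      rw [h00, zero_mul, Matrix.trace_zero] at hY2
      linarith
    exact hY0 h2
  -- so `a = s0`
  have hfin : FiniteDimensional ℝ s0 := inferInstance
  have hcard : finrank ℝ s0 ≤ 3 := by
    have h1 := finrank_span_finset_le_card (R := ℝ) ({X, Y, N} : Finset (Matrix (Fin n) (Fin n) ℝ))
    have h2 : (({X, Y, N} : Finset (Matrix (Fin n) (Fin n) ℝ)) : Set _) = {X, Y, N} := by simp
    unfold Set.finrank at h1
    rw [h2] at h1
    exact h1.trans Finset.card_le_three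
  have haeq : a = s0 := by
    refine Submodule.eq_of_le_of_finrank_le ha_s0 ?_
    by_contra hcon
    push Not at hcon
    exact ha0 (perfect_dim RLie.br br_self haperf (by omega))
  -- lifts of `X` and `N`
  have hXa : X ∈ a := by
    rw [haeq]
    exact (hs0 _).2 ⟨1, 0, 0, by simp⟩
  have hNa : N ∈ a := by
    rw [haeq]
    exact (hs0 _).2 ⟨0, 0, 1, by simp⟩
  obtain ⟨-, k, hk, k1, k2, k3, k4⟩ := hXa
  obtain ⟨-, l, hl, l1, l2, l3, l4⟩ := hNa
  -- the centralizer of `s0`
  let kk : Submodule ℝ (Matrix (Fin n) (Fin n) ℝ) :=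
    { carrier := {z | z ∈ m ∧ RLie.br N z = 0 ∧ RLie.br z X = 0 ∧ RLie.br z Y = 0}
      zero_mem' := ⟨m.zero_mem, map_zero _, LinearMap.map_zero₂ _ _, LinearMap.map_zero₂ _ _⟩
      add_mem' := by
        rintro u v ⟨h1, h2, h3, h4⟩ ⟨h1', h2', h3', h4'⟩
        exact ⟨m.add_mem h1 h1', by rw [map_add, h2, h2', add_zero],
          by rw [map_add, LinearMap.add_apply, h3, h3', add_zero],
          by rw [map_add, LinearMap.add_apply, h4, h4', add_zero]⟩
      smul_mem' := by
        rintro t u ⟨h1, h2, h3, h4⟩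
        exact ⟨m.smul_mem t h1, by rw [map_smul, h2, smul_zero],
          by rw [map_smul, LinearMap.smul_apply, h3, smul_zero],
          by rw [map_smul, LinearMap.smul_apply, h4, smul_zero]⟩ }
  have hkb : ∀ u ∈ kk, ∀ v ∈ kk, RLie.br u v ∈ kk := by
    rintro u ⟨h1, h2, h3, h4⟩ v ⟨h1', h2', h3', h4'⟩
    refine ⟨h.br _ h1 _ h1', ?_, ?_, ?_⟩
    · rw [jac, h2, h2', LinearMap.map_zero₂, map_zero, add_zero]
    · rw [br_anti, jac, br_anti X u, h3, neg_zero, LinearMap.map_zero₂, br_anti X v, h3',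
        neg_zero, map_zero, add_zero, neg_zero]
    · rw [br_anti, jac, br_anti Y u, h4, neg_zero, LinearMap.map_zero₂, br_anti Y v, h4',
        neg_zero, map_zero, add_zero, neg_zero]
  let S : Module.End ℝ (Matrix (Fin n) (Fin n) ℝ) := (RLie.br (X + k)).comp (RLie.br (X + k))
  have hSk : ∀ v ∈ kk, S v = RLie.br k (RLie.br k v) := by
    intro v hv
    have h1 : ∀ v ∈ kk, RLie.br (X + k) v = RLie.br k v := by
      rintro v ⟨-, -, h3, -⟩
      rw [map_add, LinearMap.add_apply, br_anti X v, h3, neg_zero, zero_add]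
    change RLie.br (X + k) (RLie.br (X + k) v) = _
    rw [h1 v hv, h1 _ (hkb k ⟨hk, k1, k2, k3⟩ v hv)]
  have hSkk : ∀ v ∈ kk, S v ∈ kk := by
    intro v hv
    rw [hSk v hv]
    exact hkb _ ⟨hk, k1, k2, k3⟩ _ (hkb _ ⟨hk, k1, k2, k3⟩ _ hv)
  have hSN : S N = (-c) • N := by
    have h1 : RLie.br (X + k) N = -Y := by
      rw [map_add, LinearMap.add_apply, hXN, br_anti k N, k1, neg_zero, add_zero]
    have h2 : RLie.br (X + k) Y = c • N := by
      rw [map_add, LinearMap.add_apply, hXYc, k3, add_zero]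
    change RLie.br (X + k) (RLie.br (X + k) N) = _
    rw [h1, map_neg, h2, neg_smul]
  have hSe : ∀ v ∈ e, S v ∈ e := fun v hv => heb _ k4 _ (heb _ k4 _ hv)
  -- the polynomial
  let S' : Module.End ℝ kk := S.restrict hSkk
  let f := minpoly ℝ S'
  have hf : f.eval (-c) ≠ 0 := by
    intro hroot
    have h1 : S'.HasEigenvalue (-c) := Module.End.hasEigenvalue_of_isRoot hroot
    obtain ⟨v, hv⟩ := h1.exists_hasEigenvector
    have h2 : S v = (-c) • (v : (Matrix (Fin n) (Fin n) ℝ)) := by
      have h3 := hv.apply_eq_smul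
      exact congrArg (fun y : kk => (y : (Matrix (Fin n) (Fin n) ℝ))) h3
    rw [hSk v v.2] at h2
    have hv0 : (v : (Matrix (Fin n) (Fin n) ℝ)) ≠ 0 := fun h0 => hv.2 (Subtype.ext h0)
    have h3 : (RLie.br k (RLie.br k v) * (v : (Matrix (Fin n) (Fin n) ℝ))).trace = -(RLie.br k v * RLie.br k v).trace := by
      rw [br_anti k (RLie.br k v), neg_mul, Matrix.trace_neg, tr_br]
    have hkv : RLie.br k v ∈ kk := hkb k ⟨hk, k1, k2, k3⟩ v v.2
    have h4 := h.nonposk hkv.1 hkv.2.1
    have h5 := h.negk v.2.1 v.2.2.1 hv0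
    rw [h2, smul_mul_assoc, Matrix.trace_smul, smul_eq_mul] at h3
    have h6 : -c * ((v : (Matrix (Fin n) (Fin n) ℝ)) * v).trace < 0 := mul_neg_of_pos_of_neg (by linarith) h5
    linarith
  have hagg : ∀ p : Polynomial ℝ, ∀ v : kk, Polynomial.aeval S p (v : (Matrix (Fin n) (Fin n) ℝ)) =
      ((Polynomial.aeval S' p v : kk) : (Matrix (Fin n) (Fin n) ℝ)) := by
    intro p
    induction p using Polynomial.induction_on' with
    | add p q hp hq =>
      intro v
      rw [map_add, map_add, LinearMap.add_apply, LinearMap.add_apply, hp, hq]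
      rfl
    | monomial j t =>
      intro v
      rw [Polynomial.aeval_monomial, Polynomial.aeval_monomial]
      have h1 : ∀ j : ℕ, ∀ v : kk, (S ^ j) (v : (Matrix (Fin n) (Fin n) ℝ)) = (((S' ^ j) v : kk) : (Matrix (Fin n) (Fin n) ℝ)) := by
        intro j
        induction j with
        | zero => intro v; rfl
        | succ j ih =>
          intro v
          rw [pow_succ, pow_succ, Module.End.mul_apply, Module.End.mul_apply, ← ih]
          rfl
      rw [Module.End.mul_apply, Module.End.mul_apply, h1]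
      rfl
  have hagN : ∀ p : Polynomial ℝ, Polynomial.aeval S p N = p.eval (-c) • N := by
    intro p
    induction p using Polynomial.induction_on' with
    | add p q hp hq =>
      rw [map_add, LinearMap.add_apply, hp, hq, Polynomial.eval_add, add_smul]
    | monomial j t =>
      rw [Polynomial.aeval_monomial, Polynomial.eval_monomial, Module.End.mul_apply]
      have h1 : (S ^ j) N = ((-c) ^ j) • N := by
        induction j with
        | zero => simp
        | succ j ih =>
          rw [pow_succ', Module.End.mul_apply, ih, map_smul, hSN, smul_smul, pow_succ]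
      rw [h1, Module.algebraMap_end_apply, smul_smul]
  have hage : ∀ p : Polynomial ℝ, ∀ v ∈ e, Polynomial.aeval S p v ∈ e := by
    intro p
    induction p using Polynomial.induction_on' with
    | add p q hp hq =>
      intro v hv
      rw [map_add, LinearMap.add_apply]
      exact e.add_mem (hp v hv) (hq v hv)
    | monomial j t =>
      intro v hv
      rw [Polynomial.aeval_monomial, Module.End.mul_apply, Module.algebraMap_end_apply]
      refine e.smul_mem t ?_
      induction j with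
      | zero => exact hv
      | succ j ih =>
        rw [pow_succ', Module.End.mul_apply]
        exact hSe _ ih
  have hfin2 := hage f _ l4
  have h1 : Polynomial.aeval S f l = 0 := by
    have h2 := hagg (minpoly ℝ S') ⟨l, hl, l1, l2, l3⟩
    rw [minpoly.aeval ℝ S'] at h2
    exact h2
  rw [map_add, hagN, h1, add_zero] at hfin2
  have h2 := e.smul_mem (f.eval (-c))⁻¹ hfin2
  rwa [smul_smul, inv_mul_cancel₀ hf, one_smul] at h2

end Dat

end Pool.Agent.N208.AM.RLie
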