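import Pool.Agent.N208.AM.MainA
import Pool.Agent.N208.AM.RLie

set_option autoImplicit false
set_option linter.unusedSectionVars false

/-!
# The polarization of a motive
-/

open Module Function TensorProduct Matrix

noncomputable section

namespace Pool.Agent.N208.AM

open Pool.Agent.Y102 Pool.Agent.W516.DR Pool.Agent.H204R3.GP Pool.Agent.W516.KC
  Pool.Agent.H204R3.SP Pool.Agent.TH119.MX Pool.Agent.R917

variable {g : ℕ} {A : AbVar g} {s n : ℕ} {r : Fin s → ℕ} {B : Fin n → Ten A r} {w : Fin s → ℤ}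
  {P : Matrix (Fin n) (Fin n) ℂ} {H : Set (Matrix (Fin n) (Fin n) ℂ)}
  {Wt : Matrix (Fin n) (Fin n) ℚ} {N : Matrix (Fin n) (Fin n) ℝ}

/-- Linear independence over the real numbers. -/
theorem real_li (hB : LinearIndependent ℚ B) {x : Fin n → ℝ}
    (h : ∀ i, ∑ b, x b • A.Phi (B b i) = 0) : x = 0 := by
  funext b
  apply exists_sep
  intro f
  have h1 : (fun b => f (x b)) = (0 : Fin n → ℚ) := by
    refine eq_of_comb hB fun i => MultilinearMap.ext fun v => ?_
    have h2 := congrArg (fun F : MultilinearMap ℝ (fun _ : Fin (r i) => Fin g → ℂ) ℝ =>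
      F (fun p => A.per (v p))) (h i)
    simp only [_root_.sum_apply, _root_.smul_apply, smul_eq_mul, A.Phi_per,
      _root_.zero_apply] at h2
    have h3 := congrArg f h2
    rw [map_sum, map_zero] at h3
    simp only [_root_.sum_apply, _root_.smul_apply, smul_eq_mul, Pi.zero_apply, zero_smul,
      Finset.sum_const_zero, _root_.zero_apply]
    rw [← h3]
    refine Finset.sum_congr rfl fun b _ => ?_
    have h4 : x b * (B b i v : ℝ) = (B b i v) • x b := by rw [Rat.smul_def, mul_comm]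
    rw [h4, map_smul, smul_eq_mul, mul_comm]
  exact congrFun h1 b

theorem RelR.uniq (hB : LinearIndependent ℚ B) {X : (Fin g → ℂ) →ₗ[ℝ] (Fin g → ℂ)}
    {M M' : Matrix (Fin n) (Fin n) ℝ} (h : RelR B X M) (h' : RelR B X M') : M = M' := by
  ext b a
  have h1 := real_li hB (x := fun b => M b a - M' b a) fun i => by
    have h2 : ∀ b, (M b a - M' b a) • A.Phi (B b i) = M b a • A.Phi (B b i) -
        M' b a • A.Phi (B b i) := fun b => MultilinearMap.ext fun v => by
      rw [_root_.sub_apply, _root_.smul_apply, _root_.smul_apply, _root_.smul_apply, smul_eq_mul,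
        smul_eq_mul, smul_eq_mul, sub_mul]
    rw [Finset.sum_congr rfl fun b _ => h2 b, Finset.sum_sub_distrib, ← h a i, ← h' a i, sub_self]
  exact sub_eq_zero.1 (congrFun h1 b)

theorem dactR_comb (X : (Fin g → ℂ) →ₗ[ℝ] (Fin g → ℂ)) {M : Matrix (Fin n) (Fin n) ℝ}
    (hX : RelR B X M) (N : Matrix (Fin n) (Fin n) ℝ) (a : Fin n) (i : Fin s) :
    dact X (∑ b, N b a • A.Phi (B b i)) = ∑ c, (M * N) c a • A.Phi (B c i) := by
  rw [dact_sum]
  simp only [dact_smul', hX _ i, Finset.smul_sum, smul_smul]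
  rw [Finset.sum_comm]
  refine Finset.sum_congr rfl fun c _ => ?_
  rw [Matrix.mul_apply, Finset.sum_smul]
  exact Finset.sum_congr rfl fun b _ => congrArg (· • A.Phi (B c i)) (mul_comm _ _)

theorem RelR.br {X Y : (Fin g → ℂ) →ₗ[ℝ] (Fin g → ℂ)} {M N : Matrix (Fin n) (Fin n) ℝ}
    (hX : RelR B X M) (hY : RelR B Y N) : RelR B (X * Y - Y * X) (N * M - M * N) := fun a i => by
  have h := dact_comm (R := ℝ) (W := Fin g → ℂ) X Y (A.Phi (B a i))
  rw [h, hX a i, hY a i, dactR_comb _ hY, dactR_comb _ hX, ← Finset.sum_sub_distrib]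
  exact Finset.sum_congr rfl fun b _ => (sub_smul _ _ _).symm

/-! ### An orthonormal basis -/

variable (A) in
/-- There is an orthonormal basis. -/
theorem exists_onb : ∃ v : Basis (Fin (finrank ℝ (Fin g → ℂ))) ℝ (Fin g → ℂ),
    ∀ i j, A.PF (v i) (v j) = if i = j then 1 else 0 := by
  have hsym : LinearMap.IsSymm (A.PF) := ⟨fun u v => by rw [RingHom.id_apply]; exact A.PF_symm u v⟩
  obtain ⟨v₀, hv₀⟩ := LinearMap.BilinForm.exists_orthogonal_basis hsym
  have hpos : ∀ i, 0 < A.PF (v₀ i) (v₀ i) := fun i => A.PF_pos (v₀.ne_zero i)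
  let s : Fin (finrank ℝ (Fin g → ℂ)) → ℝˣ := fun i =>
    Units.mk0 (Real.sqrt (A.PF (v₀ i) (v₀ i)))⁻¹ (inv_ne_zero (Real.sqrt_pos.2 (hpos i)).ne')
  obtain ⟨v, hv⟩ : ∃ v : Basis (Fin (finrank ℝ (Fin g → ℂ))) ℝ (Fin g → ℂ),
      ∀ i, v i = (Real.sqrt (A.PF (v₀ i) (v₀ i)))⁻¹ • v₀ i :=
    ⟨v₀.unitsSMul s, fun i => Basis.unitsSMul_apply i⟩
  refine ⟨v, fun i j => ?_⟩
  rw [hv, hv, map_smul, map_smul, LinearMap.smul_apply]
  by_cases hij : i = j
  · subst hij
    rw [if_pos rfl, smul_eq_mul, smul_eq_mul]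
    have h1 := Real.mul_self_sqrt (hpos i).le
    have h2 := (Real.sqrt_pos.2 (hpos i)).ne'
    field_simp
    rw [Real.sq_sqrt (hpos i).le]
  · rw [if_neg hij]
    have h1 : A.PF (v₀ i) (v₀ j) = 0 := hv₀ hij
    rw [h1, smul_zero, smul_zero]

/-- The orthonormal basis. -/
def onb (A : AbVar g) : Basis (Fin (finrank ℝ (Fin g → ℂ))) ℝ (Fin g → ℂ) := (exists_onb A).choose

theorem onb_PF (i j : Fin (finrank ℝ (Fin g → ℂ))) :
    A.PF (onb A i) (onb A j) = if i = j then 1 else 0 := (exists_onb A).choose_spec i j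

theorem onb_repr (x : Fin g → ℂ) (i : Fin (finrank ℝ (Fin g → ℂ))) :
    (onb A).repr x i = A.PF x (onb A i) := by
  conv_rhs => rw [← (onb A).sum_repr x]
  rw [map_sum, LinearMap.sum_apply, Finset.sum_eq_single i]
  · rw [map_smul, LinearMap.smul_apply, smul_eq_mul, onb_PF, if_pos rfl, mul_one]
  · intro j _ hj
    rw [map_smul, LinearMap.smul_apply, onb_PF, if_neg hj, smul_zero]
  · intro h
    exact absurd (Finset.mem_univ _) h

section IP

variable {κ : Type} [Fintype κ] [DecidableEq κ]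

/-- The inner product of multilinear forms. -/
def ip (A : AbVar g) (φ ψ : MultilinearMap ℝ (fun _ : κ => Fin g → ℂ) ℝ) : ℝ :=
  ∑ J : κ → Fin (finrank ℝ (Fin g → ℂ)), φ (fun k => onb A (J k)) * ψ (fun k => onb A (J k))

theorem ip_self_nonneg (φ : MultilinearMap ℝ (fun _ : κ => Fin g → ℂ) ℝ) : 0 ≤ ip A φ φ :=
  Finset.sum_nonneg fun _ _ => mul_self_nonneg _

theorem ip_self_eq_zero {φ : MultilinearMap ℝ (fun _ : κ => Fin g → ℂ) ℝ} (h : ip A φ φ = 0) :
    φ = 0 := by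
  refine Basis.ext_multilinear (fun _ => onb A) fun J => ?_
  have h1 := (Finset.sum_eq_zero_iff_of_nonneg fun _ _ => mul_self_nonneg _).1 h J
    (Finset.mem_univ _)
  rw [_root_.zero_apply]
  exact mul_self_eq_zero.1 h1

theorem ip_sum_left {ι : Type} (t : Finset ι) (x : ι → ℝ)
    (φ : ι → MultilinearMap ℝ (fun _ : κ => Fin g → ℂ) ℝ)
    (ψ : MultilinearMap ℝ (fun _ : κ => Fin g → ℂ) ℝ) :
    ip A (∑ a ∈ t, x a • φ a) ψ = ∑ a ∈ t, x a * ip A (φ a) ψ := by
  unfold ip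
  simp only [_root_.sum_apply, _root_.smul_apply, smul_eq_mul, Finset.sum_mul, Finset.mul_sum]
  rw [Finset.sum_comm]
  exact Finset.sum_congr rfl fun a _ => Finset.sum_congr rfl fun J _ => by ring

theorem ip_comm (φ ψ : MultilinearMap ℝ (fun _ : κ => Fin g → ℂ) ℝ) : ip A φ ψ = ip A ψ φ :=
  Finset.sum_congr rfl fun _ _ => mul_comm _ _

theorem ip_sum_right {ι : Type} (t : Finset ι) (x : ι → ℝ)
    (φ : ι → MultilinearMap ℝ (fun _ : κ => Fin g → ℂ) ℝ)
    (ψ : MultilinearMap ℝ (fun _ : κ => Fin g → ℂ) ℝ) :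
    ip A ψ (∑ a ∈ t, x a • φ a) = ∑ a ∈ t, x a * ip A ψ (φ a) := by
  rw [ip_comm, ip_sum_left]
  exact Finset.sum_congr rfl fun a _ => by rw [ip_comm]

/-- The adjoint. -/
theorem ip_adj {Y Y' : (Fin g → ℂ) →ₗ[ℝ] (Fin g → ℂ)}
    (h : ∀ u v, A.PF (Y u) v = A.PF u (Y' v))
    (φ ψ : MultilinearMap ℝ (fun _ : κ => Fin g → ℂ) ℝ) :
    ip A (dact Y φ) ψ = ip A φ (dact Y' ψ) := by
  let m : (Z : (Fin g → ℂ) →ₗ[ℝ] (Fin g → ℂ)) → Fin (finrank ℝ (Fin g → ℂ)) →
    Fin (finrank ℝ (Fin g → ℂ)) → ℝ := fun Z l j => A.PF (Z (onb A j)) (onb A l)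
  have hm : ∀ l j, m Y l j = m Y' j l := fun l j => by
    simp only [m]
    rw [h, A.PF_symm]
  have hZ : ∀ (Z : (Fin g → ℂ) →ₗ[ℝ] (Fin g → ℂ)) j, Z (onb A j) = ∑ l, m Z l j • onb A l := by
    intro Z j
    conv_lhs => rw [← (onb A).sum_repr (Z (onb A j))]
    exact Finset.sum_congr rfl fun l _ => by rw [onb_repr]
  have hd : ∀ (Z : (Fin g → ℂ) →ₗ[ℝ] (Fin g → ℂ))
      (χ : MultilinearMap ℝ (fun _ : κ => Fin g → ℂ) ℝ)
      (J : κ → Fin (finrank ℝ (Fin g → ℂ))), dact Z χ (fun k => onb A (J k)) =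
        ∑ k, ∑ l, m Z l (J k) * χ (fun p => onb A (update J k l p)) := by
    intro Z χ J
    rw [dact_apply]
    refine Finset.sum_congr rfl fun k _ => ?_
    rw [hZ, MultilinearMap.map_update_sum]
    refine Finset.sum_congr rfl fun l _ => ?_
    rw [MultilinearMap.map_update_smul, smul_eq_mul]
    congr 2
    funext p
    by_cases hp : p = k
    · subst hp
      rw [update_self, update_self]
    · rw [update_of_ne hp, update_of_ne hp]
  unfold ip
  simp only [hd, Finset.sum_mul, Finset.mul_sum]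
  rw [Finset.sum_comm]
  conv_rhs => rw [Finset.sum_comm]
  refine Finset.sum_congr rfl fun k _ => ?_
  rw [← Fintype.sum_prod_type', ← Fintype.sum_prod_type']
  let e : (κ → Fin (finrank ℝ (Fin g → ℂ))) × Fin (finrank ℝ (Fin g → ℂ)) ≃
      (κ → Fin (finrank ℝ (Fin g → ℂ))) × Fin (finrank ℝ (Fin g → ℂ)) :=
    { toFun := fun q => (update q.1 k q.2, q.1 k)
      invFun := fun q => (update q.1 k q.2, q.1 k)
      left_inv := fun q => by simp
      right_inv := fun q => by simp }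
  rw [← Equiv.sum_comp e]
  refine Finset.sum_congr rfl fun q _ => ?_
  have e1 : (e q).1 = update q.1 k q.2 := rfl
  have e2 : (e q).2 = q.1 k := rfl
  rw [e1, e2, update_self, update_idem, update_eq_self, hm]
  ring

end IP

/-- The Gram matrix. -/
def gram (B : Fin n → Ten A r) : Matrix (Fin n) (Fin n) ℝ :=
  Matrix.of fun a b => ∑ i, ip A (A.Phi (B a i)) (A.Phi (B b i))

theorem gram_apply (a b : Fin n) : gram B a b = ∑ i, ip A (A.Phi (B a i)) (A.Phi (B b i)) := rfl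

theorem gram_quad (x : Fin n → ℝ) : ∑ a, ∑ b, x a * gram B a b * x b =
    ∑ i, ip A (∑ a, x a • A.Phi (B a i)) (∑ b, x b • A.Phi (B b i)) := by
  simp only [ip_sum_left, ip_sum_right, gram_apply, Finset.mul_sum, Finset.sum_mul]
  have h1 : ∀ a, ∑ b, ∑ i, x a * ip A (A.Phi (B a i)) (A.Phi (B b i)) * x b =
      ∑ i, ∑ b, x a * (x b * ip A (A.Phi (B a i)) (A.Phi (B b i))) := by
    intro a
    rw [Finset.sum_comm]
    exact Finset.sum_congr rfl fun i _ => Finset.sum_congr rfl fun b _ => by ring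
  rw [Finset.sum_congr rfl fun a _ => h1 a, Finset.sum_comm]
  refine Finset.sum_congr rfl fun i _ => ?_
  rw [Finset.sum_comm]
  exact Finset.sum_congr rfl fun a _ => Finset.sum_congr rfl fun b _ => by ring

theorem gram_nonneg (x : Fin n → ℝ) : 0 ≤ ∑ a, ∑ b, x a * gram B a b * x b := by
  rw [gram_quad]
  exact Finset.sum_nonneg fun i _ => ip_self_nonneg _

theorem gram_pos (hB : LinearIndependent ℚ B) {x : Fin n → ℝ}
    (h : ∑ a, ∑ b, x a * gram B a b * x b = 0) : x = 0 := by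
  rw [gram_quad] at h
  exact real_li hB fun i => ip_self_eq_zero
    ((Finset.sum_eq_zero_iff_of_nonneg fun i _ => ip_self_nonneg _).1 h i (Finset.mem_univ _))

theorem gram_adj {Y Y' : (Fin g → ℂ) →ₗ[ℝ] (Fin g → ℂ)} {M M' : Matrix (Fin n) (Fin n) ℝ}
    (h : ∀ u v, A.PF (Y u) v = A.PF u (Y' v)) (hM : RelR B Y M) (hM' : RelR B Y' M') :
    Mᵀ * gram B = gram B * M' := by
  ext a b
  rw [Matrix.mul_apply, Matrix.mul_apply]
  simp only [Matrix.transpose_apply, gram_apply, Finset.mul_sum, Finset.sum_mul]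
  rw [Finset.sum_comm]
  conv_rhs => rw [Finset.sum_comm]
  refine Finset.sum_congr rfl fun i _ => ?_
  rw [← ip_sum_left, ← hM, ip_adj h, hM', ip_sum_right]
  exact Finset.sum_congr rfl fun c _ => mul_comm _ _

open scoped MatrixOrder in
/-- Positivity of the trace form. -/
theorem trace_pos (hB : LinearIndependent ℚ B) {M M' : Matrix (Fin n) (Fin n) ℝ}
    (h : Mᵀ * gram B = gram B * M') (h0 : M ≠ 0) : 0 < (M' * M).trace := by
  have hsym : (gram B).IsSymm := by
    ext a b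
    rw [Matrix.transpose_apply, gram_apply, gram_apply]
    exact Finset.sum_congr rfl fun i _ => ip_comm _ _
  have hH : (gram B).IsHermitian := by
    rw [Matrix.IsHermitian, Matrix.conjTranspose_eq_transpose_of_trivial]
    exact hsym
  have hq : ∀ x : Fin n → ℝ, x ⬝ᵥ (gram B *ᵥ x) = ∑ a, ∑ b, x a * gram B a b * x b := by
    intro x
    simp only [dotProduct, mulVec, Finset.mul_sum]
    exact Finset.sum_congr rfl fun a _ => Finset.sum_congr rfl fun b _ => by ring
  have hpd : (gram B).PosDef := by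
    refine Matrix.PosDef.of_dotProduct_mulVec_pos hH fun x hx => ?_
    rw [star_trivial, hq]
    refine lt_of_le_of_ne (gram_nonneg x) fun h1 => hx (gram_pos hB h1.symm)
  obtain ⟨Q, hQ⟩ := CStarAlgebra.nonneg_iff_eq_star_mul_self.mp hpd.inv.posSemidef.nonneg
  rw [Matrix.star_eq_conjTranspose, Matrix.conjTranspose_eq_transpose_of_trivial] at hQ
  have hdet : IsUnit (gram B).det := isUnit_iff_ne_zero.2 hpd.det_pos.ne'
  have h1 : M' = Qᵀ * Q * (Mᵀ * gram B) := by
    rw [h, ← hQ, ← Matrix.mul_assoc, Matrix.nonsing_inv_mul _ hdet, Matrix.one_mul]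
  have h2 : (M' * M).trace = ((M * Qᵀ)ᵀ * gram B * (M * Qᵀ)).trace := by
    rw [h1, Matrix.transpose_mul, Matrix.transpose_transpose]
    have e1 : Qᵀ * Q * (Mᵀ * gram B) * M = Qᵀ * (Q * Mᵀ * gram B * M) := by
      simp only [Matrix.mul_assoc]
    have e2 : Q * Mᵀ * gram B * (M * Qᵀ) = Q * Mᵀ * gram B * M * Qᵀ := by
      simp only [Matrix.mul_assoc]
    rw [e1, Matrix.trace_mul_comm, e2]
  have h3 : ((M * Qᵀ)ᵀ * gram B * (M * Qᵀ)).trace = ∑ j, (fun a => (M * Qᵀ) a j) ⬝ᵥ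
      (gram B *ᵥ fun a => (M * Qᵀ) a j) := by
    rw [Matrix.trace]
    refine Finset.sum_congr rfl fun j _ => ?_
    rw [Matrix.diag_apply, Matrix.mul_assoc, Matrix.mul_apply]
    simp only [dotProduct, mulVec, Matrix.transpose_apply]
    refine Finset.sum_congr rfl fun a _ => ?_
    congr 1
  have hne : M * Qᵀ ≠ 0 := by
    intro h4
    apply h0
    have h5 : IsUnit Qᵀ.det := by
      have h6 : (Qᵀ * Q).det ≠ 0 := by
        rw [← hQ, Matrix.det_nonsing_inv]
        exact (isUnit_iff_ne_zero.1 ((isUnit_ringInverse).2 hdet))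
      rw [Matrix.det_mul] at h6
      exact isUnit_iff_ne_zero.2 (left_ne_zero_of_mul h6)
    have h7 : M * Qᵀ * (Qᵀ)⁻¹ = 0 := by rw [h4, Matrix.zero_mul]
    rwa [Matrix.mul_assoc, Matrix.mul_nonsing_inv _ h5, Matrix.mul_one] at h7
  rw [h2, h3]
  obtain ⟨j, hj⟩ : ∃ j, (fun a => (M * Qᵀ) a j) ≠ 0 := by
    by_contra hcon
    push Not at hcon
    apply hne
    ext a j
    exact congrFun (hcon j) a
  refine Finset.sum_pos' (fun j _ => ?_) ⟨j, Finset.mem_univ _, ?_⟩
  · rw [hq]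
    exact gram_nonneg _
  · rw [hq]
    exact lt_of_le_of_ne (gram_nonneg _) fun h1 => hj (gram_pos hB h1.symm)

end Pool.Agent.N208.AM
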