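import Pool.Agent.N208.AM.Zar

set_option autoImplicit false
set_option linter.unusedSectionVars false

/-!
# The Lie algebra of a solvable group of matrices has no perfect subalgebras besides zero
-/

open Matrix Finset

namespace Pool.Agent.N208.AM

open scoped commutatorElement
open Pool.Agent.TH119.MX Pool.Agent.TH119.DR Pool.Agent.W437.HK Pool.Agent.R917

variable {B : Type} [Fintype B] [DecidableEq B]

/-- The derivative of a form along a curve. -/
theorem hasDerivAt_evalF {d : ℕ} {γ : ℂ → Matrix B B ℂ} {h Y : Matrix B B ℂ} {t : ℂ}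
    (h0 : γ t = h) (hγ : ∀ i j, HasDerivAt (fun s => γ s i j) ((h * Y) i j) t)
    (w : (Fin d → Option (B × B)) → ℂ) :
    HasDerivAt (fun s => evalF w (fun _ => cx (γ s))) (evalF (act (LL Y) w) (fun _ => cx h)) t := by
  have hx : ∀ o, HasDerivAt (fun s : ℂ => cx (γ s) o) ((LL Y *ᵥ cx h) o) t := by
    intro o
    rw [cx_LL]
    rcases o with _ | ⟨i, j⟩
    · exact hasDerivAt_const t (1 : ℂ)
    · exact hγ i j
  have h1 : HasDerivAt (fun s => evalF w (fun _ => cx (γ s))) (∑ I : Fin d → Option (B × B),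
      w I * ∑ k, (∏ l ∈ Finset.univ.erase k, cx (γ t) (I l)) • (LL Y *ᵥ cx h) (I k)) t := by
    unfold evalF
    refine HasDerivAt.fun_sum fun I _ => ?_
    exact (HasDerivAt.fun_finsetProd fun k _ => hx (I k)).const_mul (w I)
  have h2 : evalF (act (LL Y) w) (fun _ => cx h) = ∑ I : Fin d → Option (B × B), w I * ∑ k,
      (∏ l ∈ Finset.univ.erase k, cx (γ t) (I l)) • (LL Y *ᵥ cx h) (I k) := by
    rw [evalF_act, h0]
    unfold evalF
    simp only [Finset.mul_sum]
    rw [Finset.sum_comm]
    refine Finset.sum_congr rfl fun I _ => Finset.sum_congr rfl fun k _ => ?_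
    congr 1
    rw [← Finset.mul_prod_erase _ _ (Finset.mem_univ k), Function.update_self, smul_eq_mul,
      mul_comm]
    congr 1
    refine Finset.prod_congr rfl fun l hl => ?_
    rw [Function.update_of_ne (Finset.ne_of_mem_erase hl)]
  rw [h2]
  exact h1

/-- A curve in a semigroup of matrices which starts at the identity. -/
theorem stab_of_curve {H : Set (Matrix B B ℂ)} (hm : ∀ x ∈ H, ∀ y ∈ H, x * y ∈ H)
    {γ : ℂ → Matrix B B ℂ} {Y : Matrix B B ℂ} (h0 : γ 0 = 1) (hγ : ∀ t, γ t ∈ H)
    (hd : ∀ i j, HasDerivAt (fun s => γ s i j) (Y i j) 0) (d : ℕ) : Stab H d Y := by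
  intro w hw h hh
  have h1 : HasDerivAt (fun s => evalF w (fun _ => cx (h * γ s)))
      (evalF (act (LL Y) w) (fun _ => cx h)) 0 := by
    refine hasDerivAt_evalF (γ := fun s => h * γ s) (by rw [h0, Matrix.mul_one]) (fun i j => ?_) w
    simp only [Matrix.mul_apply]
    exact HasDerivAt.fun_sum fun k _ => (hd k j).const_mul (h i k)
  have h2 : (fun s => evalF w (fun _ => cx (h * γ s))) = fun _ => 0 := by
    funext s
    exact hw _ (hm _ hh _ (hγ s))
  rw [h2] at h1
  exact h1.unique (hasDerivAt_const _ _)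

/-- The derivative of elements of the stabilizer. -/
theorem stab_deriv {H : Set (Matrix B B ℂ)} {Z : ℂ → Matrix B B ℂ} {Y : Matrix B B ℂ} {t : ℂ}
    {d : ℕ} (hZ : ∀ s, Stab H d (Z s)) (hd : ∀ i j, HasDerivAt (fun s => Z s i j) (Y i j) t) :
    Stab H d Y := by
  intro w hw h hh
  have key : ∀ M : Matrix B B ℂ, evalF (act (LL M) w) (fun _ => cx h) =
      ∑ i, ∑ j, M i j * evalF (act (LL (Matrix.single i j 1)) w) (fun _ => cx h) := by
    intro M
    conv_lhs => rw [Matrix.matrix_eq_sum_single M]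
    have h1 : ∀ (s : Finset (B × B)) (F : B × B → Matrix B B ℂ),
        evalF (act (LL (∑ b ∈ s, F b)) w) (fun _ => cx h) =
          ∑ b ∈ s, evalF (act (LL (F b)) w) (fun _ => cx h) := by
      intro s F
      classical
      induction s using Finset.induction_on with
      | empty => rw [Finset.sum_empty, Finset.sum_empty, LL_zero, act_zero_left, evalF_zero]
      | insert a s ha ih =>
        rw [Finset.sum_insert ha, Finset.sum_insert ha, LL_add, act_add_left, evalF_add', ih]
    have h2 : ∑ i, ∑ j, Matrix.single i j (M i j) =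
        ∑ b ∈ (Finset.univ : Finset (B × B)), Matrix.single b.1 b.2 (M b.1 b.2) := by
      rw [Fintype.sum_prod_type]
    rw [h2, h1, Fintype.sum_prod_type]
    refine Finset.sum_congr rfl fun i _ => Finset.sum_congr rfl fun j _ => ?_
    have h3 : Matrix.single i j (M i j) = M i j • (Matrix.single i j 1 : Matrix B B ℂ) := by
      rw [Matrix.smul_single, smul_eq_mul, mul_one]
    rw [h3, LL_smul, act_smul_left, evalF_smul']
  have h1 : HasDerivAt (fun s => evalF (act (LL (Z s)) w) (fun _ => cx h))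
      (evalF (act (LL Y) w) (fun _ => cx h)) t := by
    rw [key Y]
    have h2 : (fun s => evalF (act (LL (Z s)) w) (fun _ => cx h)) = fun s =>
        ∑ i, ∑ j, Z s i j * evalF (act (LL (Matrix.single i j 1)) w) (fun _ => cx h) := by
      funext s
      exact key (Z s)
    rw [h2]
    exact HasDerivAt.fun_sum fun i _ => HasDerivAt.fun_sum fun j _ => (hd i j).mul_const _
  have h2 : (fun s => evalF (act (LL (Z s)) w) (fun _ => cx h)) = fun _ => 0 := by
    funext s
    exact hZ s w hw h hh
  rw [h2] at h1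
  exact h1.unique (hasDerivAt_const _ _)

/-- The exponential function as an element of the general linear group. -/
noncomputable def eG (X : Matrix B B ℂ) : GL B ℂ where
  val := NormedSpace.exp X
  inv := NormedSpace.exp (-X)
  val_inv := by
    rw [← Matrix.exp_add_of_commute _ _ (Commute.neg_right (Commute.refl X)), add_neg_cancel,
      NormedSpace.exp_zero]
  inv_val := by
    rw [← Matrix.exp_add_of_commute _ _ (Commute.neg_left (Commute.refl X)), neg_add_cancel,
      NormedSpace.exp_zero]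

theorem eG_val (X : Matrix B B ℂ) : ((eG X : GL B ℂ) : Matrix B B ℂ) = NormedSpace.exp X := rfl

theorem eG_inv (X : Matrix B B ℂ) : (((eG X)⁻¹ : GL B ℂ) : Matrix B B ℂ) = NormedSpace.exp (-X) :=
  rfl

theorem hasDerivAt_mul {P Q : ℂ → Matrix B B ℂ} {P' Q' : Matrix B B ℂ} {t : ℂ}
    (hP : ∀ i j, HasDerivAt (fun s => P s i j) (P' i j) t)
    (hQ : ∀ i j, HasDerivAt (fun s => Q s i j) (Q' i j) t) (i j : B) :
    HasDerivAt (fun s => (P s * Q s) i j) ((P' * Q t + P t * Q') i j) t := by
  have h1 : (fun s => (P s * Q s) i j) = fun s => ∑ k, P s i k * Q s k j := by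
    funext s
    rw [Matrix.mul_apply]
  rw [h1, Matrix.add_apply, Matrix.mul_apply, Matrix.mul_apply, ← Finset.sum_add_distrib]
  exact HasDerivAt.fun_sum fun k _ => (hP i k).mul (hQ k j)

/-- The commutator of the Lie algebra is in the Lie algebra of the commutator. -/
theorem stab_comm (K : Subgroup (GL B ℂ)) {X Y : Matrix B B ℂ}
    (hX : ∀ d, Stab (clM K) d X) (hY : ∀ d, Stab (clM K) d Y) (d : ℕ) :
    Stab (clM ⁅K, K⁆) d (X * Y - Y * X) := by
  have hmem : ∀ {Z : Matrix B B ℂ}, (∀ d, Stab (clM K) d Z) → ∀ s : ℂ,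
      eG (s • Z) ∈ cl (K : Set (GL B ℂ)) := by
    intro Z hZ s
    obtain ⟨x, hx, hxe⟩ := exp_mem (algGrp_cl K) fun d => (hZ d).smul s
    have h1 : x = eG (s • Z) := Units.ext hxe
    rwa [h1] at hx
  have hcom : ∀ s t : ℂ, NormedSpace.exp (s • X) * NormedSpace.exp (t • Y) *
      NormedSpace.exp (s • (-X)) * NormedSpace.exp (t • (-Y)) ∈ clM ⁅K, K⁆ := by
    intro s t
    refine ⟨⁅eG (s • X), eG (t • Y)⁆, cl_comm (hmem hX s) (hmem hY t), ?_⟩
    rw [commutatorElement_def, Units.val_mul, Units.val_mul, Units.val_mul, eG_val, eG_val,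
      eG_inv, eG_inv, smul_neg, smul_neg]
  have hHm := (algGrp_cl ⁅K, K⁆).mul
  have hexp0 : ∀ Z : Matrix B B ℂ, NormedSpace.exp ((0 : ℂ) • Z) = 1 := fun Z => by
    rw [zero_smul, NormedSpace.exp_zero]
  have hde : ∀ (Z : Matrix B B ℂ) (i j : B),
      HasDerivAt (fun s : ℂ => NormedSpace.exp (s • Z) i j) (Z i j) 0 := by
    intro Z i j
    have h1 := hasDerivAt_entry 1 Z i j 0
    rw [hexp0, Matrix.mul_one, Matrix.one_mul] at h1
    simp only [Matrix.one_mul] at h1
    exact h1
  have hinv : ∀ s : ℂ, NormedSpace.exp (s • X) * NormedSpace.exp (s • (-X)) = 1 := fun s => by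
    have h1 := (eG (s • X)).val_inv
    rw [smul_neg]
    exact h1
  -- the derivative with respect to `t`
  have h1 : ∀ s : ℂ, Stab (clM ⁅K, K⁆) d
      (NormedSpace.exp (s • X) * Y * NormedSpace.exp (s • (-X)) - Y) := by
    intro s
    refine stab_of_curve hHm (γ := fun t => NormedSpace.exp (s • X) * NormedSpace.exp (t • Y) *
      NormedSpace.exp (s • (-X)) * NormedSpace.exp (t • (-Y))) ?_ (hcom s) (fun i j => ?_) d
    · change NormedSpace.exp (s • X) * NormedSpace.exp ((0 : ℂ) • Y) *
        NormedSpace.exp (s • (-X)) * NormedSpace.exp ((0 : ℂ) • (-Y)) = 1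
      rw [hexp0, hexp0, Matrix.mul_one, Matrix.mul_one, hinv]
    · have hc : ∀ (M : Matrix B B ℂ) (i j : B), HasDerivAt (fun _ : ℂ => M i j)
          ((0 : Matrix B B ℂ) i j) 0 := fun M i j => hasDerivAt_const _ _
      have h2 := hasDerivAt_mul (hasDerivAt_mul (hasDerivAt_mul (hc (NormedSpace.exp (s • X)))
        (hde Y)) (hc (NormedSpace.exp (s • (-X))))) (hde (-Y)) i j
      refine h2.congr_deriv (congrFun (congrFun ?_ i) j)
      rw [hexp0, hexp0]
      simp only [Matrix.mul_one, Matrix.mul_zero, Matrix.zero_mul, add_zero, zero_add]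
      rw [hinv, Matrix.one_mul, ← sub_eq_add_neg]
  -- the derivative with respect to `s`
  refine stab_deriv (Z := fun s => NormedSpace.exp (s • X) * Y * NormedSpace.exp (s • (-X)) - Y)
    (t := 0) h1 fun i j => ?_
  have hc : ∀ (M : Matrix B B ℂ) (i j : B), HasDerivAt (fun _ : ℂ => M i j)
      ((0 : Matrix B B ℂ) i j) 0 := fun M i j => hasDerivAt_const _ _
  have h2 := (hasDerivAt_mul (hasDerivAt_mul (hde X) (hc Y)) (hde (-X)) i j).sub_const (Y i j)
  refine h2.congr_deriv (congrFun (congrFun ?_ i) j)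
  rw [hexp0, hexp0]
  simp only [Matrix.mul_one, Matrix.one_mul, Matrix.mul_zero, add_zero, Matrix.mul_neg]
  rw [← sub_eq_add_neg]

/-- The Lie algebra of the trivial group. -/
theorem eq_zero_of_bot {X : Matrix B B ℂ} (hX : ∀ d, Stab (clM (⊥ : Subgroup (GL B ℂ))) d X) :
    X = 0 := by
  have h1 : ∀ s : ℂ, NormedSpace.exp (s • X) = 1 := by
    intro s
    obtain ⟨x, hx, hxe⟩ := exp_mem (algGrp_cl (⊥ : Subgroup (GL B ℂ))) fun d => (hX d).smul s
    rw [← hxe]
    ext i j
    have h2 := hx (fun x => (x : Matrix B B ℂ) i j - (1 : Matrix B B ℂ) i j)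
      (Subalgebra.sub_mem _ (ent_mem i j) ((RR B).algebraMap_mem _)) fun h hh => by
        have h3 : h = 1 := Subgroup.mem_bot.1 hh
        rw [h3, Units.val_one, sub_self]
    exact sub_eq_zero.1 h2
  ext i j
  have h2 := hasDerivAt_entry 1 X i j 0
  rw [zero_smul, NormedSpace.exp_zero, Matrix.one_mul, Matrix.one_mul] at h2
  have h3 : (fun s : ℂ => ((1 : Matrix B B ℂ) * NormedSpace.exp (s • X)) i j) =
      fun _ => (1 : Matrix B B ℂ) i j := by
    funext s
    rw [h1, Matrix.one_mul]
  rw [h3] at h2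
  exact (h2.unique (hasDerivAt_const _ _))

/-- A solvable group of matrices has no perfect Lie algebras besides zero in its Lie algebra. -/
theorem perfect_eq_zero {F : Subfield ℂ} {G : Subgroup (GL B ℂ)}
    (hG : AlgGrp F {M : Matrix B B ℂ | ∃ x ∈ G, (x : Matrix B B ℂ) = M}) (hs : Group.IsSolvable G)
    {S : Set (Matrix B B ℂ)}
    (hS : ∀ X ∈ S, ∀ d, Stab {M : Matrix B B ℂ | ∃ x ∈ G, (x : Matrix B B ℂ) = M} d X)
    (hp : ∀ X ∈ S, X ∈ Submodule.span ℂ {Z | ∃ X ∈ S, ∃ Y ∈ S, Z = X * Y - Y * X}) :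
    ∀ X ∈ S, X = 0 := by
  obtain ⟨m, hm⟩ := (Group.isSolvable_def G).1 hs
  have hcl : ∀ k, ∀ X ∈ S, ∀ d, Stab (clM ((derivedSeries G k).map G.subtype)) d X := by
    intro k
    induction k with
    | zero =>
      intro X hX d
      have h1 : (derivedSeries G 0).map G.subtype = G := by
        rw [derivedSeries_zero, ← MonoidHom.range_eq_map, Subgroup.range_subtype]
      rw [h1]
      have h2 : clM G = {M : Matrix B B ℂ | ∃ x ∈ G, (x : Matrix B B ℂ) = M} := by
        ext M
        constructor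
        · rintro ⟨x, hx, rfl⟩
          obtain ⟨I, hI, hI2⟩ := hG.alg
          refine (hI2 _).2 ⟨⟨_, x.val_inv, x.inv_val⟩, fun p hp => ?_⟩
          exact hx _ (poly_mem p) fun h hh => ((hI2 h).1 ⟨h, hh, rfl⟩).2 p hp
        · rintro ⟨x, hx, rfl⟩
          exact ⟨x, subset_cl _ hx, rfl⟩
      rw [h2]
      exact hS X hX d
    | succ k ih =>
      intro X hX d
      have h1 : (derivedSeries G (k + 1)).map G.subtype =
          ⁅(derivedSeries G k).map G.subtype, (derivedSeries G k).map G.subtype⁆ := by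
        rw [derivedSeries_succ, Subgroup.map_commutator]
      rw [h1]
      have h2 := hp X hX
      clear hX
      induction h2 using Submodule.span_induction with
      | mem Z hZ =>
        obtain ⟨P, hP, Q, hQ, rfl⟩ := hZ
        exact stab_comm _ (ih P hP) (ih Q hQ) d
      | zero => exact Stab.zero
      | add a b _ _ ha hb => exact ha.add hb
      | smul c a _ ha => exact ha.smul c
  intro X hX
  refine eq_zero_of_bot fun d => ?_
  have h1 := hcl m X hX d
  rwa [hm, Subgroup.map_bot] at h1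

end Pool.Agent.N208.AM
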