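import Pool.Agent.N208.AM.Qm
import Pool.Agent.N208.AM.Solv

set_option autoImplicit false
set_option linter.unusedSectionVars false

/-!
# The Hodge structure of a motive
-/

open Module Function TensorProduct Matrix

noncomputable section

namespace Pool.Agent.N208.AM

open Pool.Agent.Y102 Pool.Agent.W516.DR Pool.Agent.H204R3.GP Pool.Agent.W516.KC
  Pool.Agent.H204R3.SP Pool.Agent.TH119.MX Pool.Agent.R917

variable {g : ℕ} {A : AbVar g} {s n : ℕ} {r : Fin s → ℕ} {B : Fin n → Ten A r} {w : Fin s → ℤ}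
  {P : Matrix (Fin n) (Fin n) ℂ} {H : Set (Matrix (Fin n) (Fin n) ℂ)}

/-- The action of a real endomorphism on the real extensions. -/
def RelR (B : Fin n → Ten A r) (Y : (Fin g → ℂ) →ₗ[ℝ] (Fin g → ℂ))
    (N : Matrix (Fin n) (Fin n) ℝ) : Prop :=
  ∀ a i, dact Y (A.Phi (B a i)) = ∑ b, N b a • A.Phi (B b i)

theorem RelR.add {X Y : (Fin g → ℂ) →ₗ[ℝ] (Fin g → ℂ)} {M N : Matrix (Fin n) (Fin n) ℝ}
    (hX : RelR B X M) (hY : RelR B Y N) : RelR B (X + Y) (M + N) := fun a i => by
  have h := dact_add (R := ℝ) (W := Fin g → ℂ) X Y (A.Phi (B a i))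
  rw [h, hX, hY, ← Finset.sum_add_distrib]
  exact Finset.sum_congr rfl fun b _ => by rw [Matrix.add_apply, add_smul]

theorem RelR.smul {X : (Fin g → ℂ) →ₗ[ℝ] (Fin g → ℂ)} {M : Matrix (Fin n) (Fin n) ℝ} (c : ℝ)
    (hX : RelR B X M) : RelR B (c • X) (c • M) := fun a i => by
  rw [dact_smul, hX, Finset.smul_sum]
  exact Finset.sum_congr rfl fun b _ => by rw [Matrix.smul_apply, smul_smul, smul_eq_mul]

theorem RelR.zero : RelR B (0 : (Fin g → ℂ) →ₗ[ℝ] (Fin g → ℂ)) 0 := fun a i => by
  rw [dact_zero]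
  exact (Finset.sum_eq_zero fun b _ => by rw [Matrix.zero_apply, zero_smul]).symm

theorem RelR.sum {ι : Type} (t : Finset ι) {X : ι → (Fin g → ℂ) →ₗ[ℝ] (Fin g → ℂ)}
    {M : ι → Matrix (Fin n) (Fin n) ℝ} (h : ∀ k ∈ t, RelR B (X k) (M k)) :
    RelR B (∑ k ∈ t, X k) (∑ k ∈ t, M k) := by
  classical
  induction t using Finset.induction_on with
  | empty =>
    rw [Finset.sum_empty, Finset.sum_empty]
    exact RelR.zero
  | insert a t ha ih =>
    rw [Finset.sum_insert ha, Finset.sum_insert ha]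
    exact (h a (Finset.mem_insert_self _ _)).add (ih fun k hk => h k (Finset.mem_insert_of_mem hk))

theorem ext_lam_multi (A : AbVar g) {κ : Type} [Fintype κ] [DecidableEq κ]
    {F G : MultilinearMap ℝ (fun _ : κ => Fin g → ℂ) ℝ}
    (h : ∀ v : κ → A.H1, F (fun p => A.per (v p)) = G (fun p => A.per (v p))) : F = G := by
  refine Basis.ext_multilinear (fun _ => A.lam) fun J => ?_
  have h2 : (fun p => A.lam (J p)) = fun p => A.per (A.bas (J p)) := by
    funext p
    rw [A.per_bas]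
  rw [h2]
  exact h _

theorem update_per {κ : Type} [DecidableEq κ] (v : κ → A.H1) (k : κ) (x : A.H1) :
    update (fun p => A.per (v p)) k (A.per x) = fun p => A.per (update v k x p) := by
  funext p
  by_cases h : p = k
  · subst h
    rw [update_self, update_self]
  · rw [update_of_ne h, update_of_ne h]

theorem Rel.real {X : Module.End ℚ A.H1} {M : Matrix (Fin n) (Fin n) ℚ} (h : Rel B X M) :
    RelR B (A.ext X) (M.map fun q => (q : ℝ)) := by
  intro a i
  refine ext_lam_multi A fun v => ?_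
  rw [dact_apply]
  have h1 := congrArg (fun φ : MultilinearMap ℚ (fun _ : Fin (r i) => A.H1) ℚ => ((φ v : ℚ) : ℝ))
    (h a i)
  simp only [dact_apply, _root_.sum_apply, _root_.smul_apply, smul_eq_mul, Rat.cast_sum,
    Rat.cast_mul] at h1
  simp only [_root_.sum_apply, _root_.smul_apply, smul_eq_mul, Matrix.map_apply, A.Phi_per]
  rw [← h1]
  refine Finset.sum_congr rfl fun k _ => ?_
  rw [A.ext_apply, update_per, A.Phi_per]

/-- The complex structure in terms of rational endomorphisms. -/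
theorem JJ_eq : ∃ (t : Finset (Basis.ofVectorSpaceIndex ℚ ℝ)),
    (AbVar.JJ : (Fin g → ℂ) →ₗ[ℝ] (Fin g → ℂ)) = ∑ k ∈ t, (Basis.ofVectorSpace ℚ ℝ k) •
      A.ext (A.cmpE ((Basis.ofVectorSpace ℚ ℝ).coord k) AbVar.JJ) := by
  classical
  obtain ⟨t, ht⟩ := exists_coords (fun p : Fin (2 * g) × Fin (2 * g) =>
    A.lam.repr (Complex.I • A.lam p.1) p.2)
  refine ⟨t, A.lam.ext fun j => ?_⟩
  rw [AbVar.JJ_apply, LinearMap.sum_apply]
  apply A.lam.repr.injective
  ext i
  have h2 := ht (j, i)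
  simp only at h2
  rw [h2, map_sum, Finsupp.finsetSum_apply]
  refine Finset.sum_congr rfl fun k _ => ?_
  have h3 : ∀ (c : ℝ) (x : Fin g → ℂ), A.lam.repr (c • x) i = c * A.lam.repr x i := fun c x => by
    rw [map_smul, Finsupp.smul_apply, smul_eq_mul]
  rw [LinearMap.smul_apply, h3, A.ext_lam, A.repr_per, A.cmpE_apply, A.per_bas, mul_comm]
  rfl

/-- The matrix of the complex structure. -/
theorem exists_J (h : Mot w B P) : ∃ N : Matrix (Fin n) (Fin n) ℝ, RelR B AbVar.JJ N ∧
    ∃ (t : Finset (Basis.ofVectorSpaceIndex ℚ ℝ))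
      (X : Basis.ofVectorSpaceIndex ℚ ℝ → Module.End ℚ A.H1)
      (M : Basis.ofVectorSpaceIndex ℚ ℝ → Matrix (Fin n) (Fin n) ℚ),
      (∀ k, X k ∈ A.NA ∧ Rel B (X k) (M k)) ∧
      N = ∑ k ∈ t, (Basis.ofVectorSpace ℚ ℝ k) • (M k).map fun q => (q : ℝ) := by
  obtain ⟨t, ht⟩ := JJ_eq (A := A)
  have h1 : ∀ k, A.cmpE ((Basis.ofVectorSpace ℚ ℝ).coord k) AbVar.JJ ∈ A.NA := fun k =>
    A.MA_le_NA (A.J_mem _)
  choose M hM using fun k => h.st _ (h1 k)
  refine ⟨_, ?_, t, fun k => A.cmpE ((Basis.ofVectorSpace ℚ ℝ).coord k) AbVar.JJ, M,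
    fun k => ⟨h1 k, hM k⟩, rfl⟩
  rw [ht]
  exact RelR.sum t fun k _ => (hM k).real.smul _

theorem WRel.real {Wt : Matrix (Fin n) (Fin n) ℚ} (h : WRel w B Wt) (a : Fin n) (i : Fin s) :
    ((r i : ℝ) - 2 * w i) • A.Phi (B a i) = ∑ b, (Wt b a : ℝ) • A.Phi (B b i) := by
  refine ext_lam_multi A fun v => ?_
  have h1 := congrArg (fun φ : MultilinearMap ℚ (fun _ : Fin (r i) => A.H1) ℚ => ((φ v : ℚ) : ℝ))
    (h a i)
  simp only [_root_.sum_apply, _root_.smul_apply, smul_eq_mul, Rat.cast_sum,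
    Rat.cast_mul, Rat.cast_sub, Rat.cast_natCast, Rat.cast_ofNat, Rat.cast_intCast] at h1
  simp only [_root_.sum_apply, _root_.smul_apply, smul_eq_mul, A.Phi_per]
  exact h1

/-- The complexification of a real matrix. -/
def cxm (N : Matrix (Fin n) (Fin n) ℝ) : Matrix (Fin n) (Fin n) ℂ := N.map fun x => (x : ℂ)

/-- The logarithm of the matrix of the action of a complex number. -/
def KK (Wt : Matrix (Fin n) (Fin n) ℚ) (N : Matrix (Fin n) (Fin n) ℝ) (z : ℂ) :
    Matrix (Fin n) (Fin n) ℂ :=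
  (Real.log ‖z‖ : ℂ) • Wt.map (fun q => (q : ℂ)) + (Complex.arg z : ℂ) • cxm N

theorem phi_scale {κ : Type} [Fintype κ] [DecidableEq κ]
    (Ψ : MultilinearMap ℝ (fun _ : κ => Fin g → ℂ) ℝ) (c : ℝ) (u : κ → Fin g → ℂ) :
    Ψ (fun k => c • u k) = c ^ Fintype.card κ * Ψ u := by
  rw [MultilinearMap.map_smul_univ, Finset.prod_const, Finset.card_univ, smul_eq_mul]

/-- The action of the complex numbers on the real extensions. -/
theorem phi_exp {Wt : Matrix (Fin n) (Fin n) ℚ} {N : Matrix (Fin n) (Fin n) ℝ}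
    (hW : WRel w B Wt) (hN : RelR B AbVar.JJ N) {z : ℂ} (hz : z ≠ 0) (a : Fin n) (i : Fin s)
    (u : Fin (r i) → Fin g → ℂ) :
    ((A.Phi (B a i) fun k => z • u k : ℝ) : ℂ) = ((‖z‖ : ℂ) ^ (2 * w i)) *
      ∑ b, NormedSpace.exp (KK Wt N z) b a * (A.Phi (B b i) u : ℂ) := by
  set α := Real.log ‖z‖ with hα
  set β := Complex.arg z with hβ
  set K := KK Wt N z with hK
  let y : Fin n → ℝ → ℂ := fun a t => ((Real.exp (t * (α * ((r i : ℝ) - 2 * w i))) *
    A.Phi (B a i) (fun k => Complex.exp ((t * β : ℝ) * Complex.I) • u k) : ℝ) : ℂ)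
  have hy : ∀ a t, HasDerivAt (y a) (∑ b, K b a * y b t) t := by
    intro a t
    have h1 : HasDerivAt (fun x : ℝ => A.Phi (B a i)
        (fun k => Complex.exp ((x : ℝ) * Complex.I) • u k))
        (∑ b, N b a * A.Phi (B b i) (fun k => Complex.exp ((t * β : ℝ) * Complex.I) • u k))
        (t * β) := by
      have h2 := hasDeriv_exp (A.Phi (B a i))
        (fun k => Complex.exp ((t * β : ℝ) * Complex.I) • u k)
      have h3 := hN a i
      have h4 := congrArg (fun F : MultilinearMap ℝ (fun _ : Fin (r i) => Fin g → ℂ) ℝ =>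
        F (fun k => Complex.exp ((t * β : ℝ) * Complex.I) • u k)) h3
      simp only [dact_apply, _root_.sum_apply, _root_.smul_apply, smul_eq_mul,
        AbVar.JJ_apply] at h4
      rw [h4] at h2
      have h5 : (fun x : ℝ => A.Phi (B a i) (fun k => Complex.exp ((x : ℝ) * Complex.I) • u k)) =
          fun x : ℝ => (fun θ : ℝ => A.Phi (B a i) (fun k => Complex.exp (θ * Complex.I) •
            (Complex.exp ((t * β : ℝ) * Complex.I) • u k))) (x - t * β) := by
        funext x
        simp only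
        congr 1
        funext k
        rw [smul_smul, ← Complex.exp_add]
        congr 2
        push_cast
        ring
      rw [h5]
      refine HasDerivAt.comp_sub_const (f := fun θ : ℝ => A.Phi (B a i)
        (fun k => Complex.exp (θ * Complex.I) •
            (Complex.exp ((t * β : ℝ) * Complex.I) • u k))) (t * β) (t * β) ?_
      rw [sub_self]
      exact h2
    have h2 : HasDerivAt (fun x : ℝ => x * β) β t := by
      simpa using (hasDerivAt_id t).mul_const β
    have h3 : HasDerivAt (fun x : ℝ => A.Phi (B a i)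
        (fun k => Complex.exp ((x * β : ℝ) * Complex.I) • u k))
        ((∑ b, N b a * A.Phi (B b i) (fun k => Complex.exp ((t * β : ℝ) * Complex.I) • u k)) * β)
        t := HasDerivAt.comp t (h := fun x : ℝ => x * β) h1 h2
    have h4 : HasDerivAt (fun x : ℝ => Real.exp (x * (α * ((r i : ℝ) - 2 * w i))))
        (Real.exp (t * (α * ((r i : ℝ) - 2 * w i))) * (α * ((r i : ℝ) - 2 * w i))) t := by
      have h5 : HasDerivAt (fun x : ℝ => x * (α * ((r i : ℝ) - 2 * w i)))
          (α * ((r i : ℝ) - 2 * w i)) t := by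
        simpa using (hasDerivAt_id t).mul_const (α * ((r i : ℝ) - 2 * w i))
      exact h5.exp
    have h5 := (h4.mul h3).ofReal_comp
    refine h5.congr_deriv ?_
    have h6 := congrArg (fun F : MultilinearMap ℝ (fun _ : Fin (r i) => Fin g → ℂ) ℝ =>
      F (fun k => Complex.exp ((t * β : ℝ) * Complex.I) • u k)) (hW.real a i)
    simp only [_root_.sum_apply, _root_.smul_apply, smul_eq_mul] at h6
    have h7 : ∑ b, K b a * y b t = ((Real.exp (t * (α * ((r i : ℝ) - 2 * w i))) *
        (α * (∑ b, (Wt b a : ℝ) * A.Phi (B b i)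
          (fun k => Complex.exp ((t * β : ℝ) * Complex.I) • u k)) +
          β * ∑ b, N b a * A.Phi (B b i)
            (fun k => Complex.exp ((t * β : ℝ) * Complex.I) • u k)) : ℝ) : ℂ) := by
      simp only [y, hK, KK, cxm, Matrix.add_apply, Matrix.smul_apply, Matrix.map_apply,
        smul_eq_mul]
      push_cast
      rw [Finset.mul_sum, Finset.mul_sum, ← Finset.sum_add_distrib, Finset.mul_sum]
      refine Finset.sum_congr rfl fun b _ => ?_
      ring
    rw [h7, ← h6]
    push_cast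
    ring
  -- the linear system
  have hE : ∀ (b a : Fin n) (t : ℝ), HasDerivAt
      (fun x : ℝ => NormedSpace.exp ((x : ℂ) • (-K)) b a)
      (-(K * NormedSpace.exp ((t : ℂ) • (-K))) b a) t := by
    intro b a t
    have h1 := (hasDerivAt_entry 1 (-K) b a (t : ℂ)).comp_ofReal
    simp only [Matrix.one_mul] at h1
    refine h1.congr_deriv ?_
    have hcom : Commute ((t : ℂ) • (-K)) (-K) := (Commute.refl (-K)).smul_left _
    have h2 : NormedSpace.exp ((t : ℂ) • (-K)) * (-K) = (-K) * NormedSpace.exp ((t : ℂ) • (-K)) :=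
      (hcom.exp_left).eq
    rw [h2, Matrix.neg_mul, Matrix.neg_apply]
  have hconst : ∀ (c : Fin n) (t : ℝ), ∑ b, NormedSpace.exp ((t : ℂ) • (-K)) b c * y b t =
      y c 0 := by
    intro c t
    have h1 : ∀ t : ℝ, HasDerivAt
        (fun x : ℝ => ∑ b, NormedSpace.exp ((x : ℂ) • (-K)) b c * y b x) 0 t := by
      intro t
      have h2 := HasDerivAt.fun_sum fun (b : Fin n) (_ : b ∈ Finset.univ) =>
        (hE b c t).mul (hy b t)
      refine h2.congr_deriv ?_
      rw [Finset.sum_add_distrib]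
      have h3 : ∑ b, NormedSpace.exp ((t : ℂ) • (-K)) b c * ∑ d, K d b * y d t =
          ∑ d, (K * NormedSpace.exp ((t : ℂ) • (-K))) d c * y d t := by
        simp only [Finset.mul_sum]
        rw [Finset.sum_comm]
        refine Finset.sum_congr rfl fun d _ => ?_
        rw [Matrix.mul_apply, Finset.sum_mul]
        exact Finset.sum_congr rfl fun b _ => by ring
      rw [h3, ← Finset.sum_add_distrib]
      exact Finset.sum_eq_zero fun b _ => by ring
    have h4 := is_const_of_deriv_eq_zero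
      (f := fun x : ℝ => ∑ b, NormedSpace.exp ((x : ℂ) • (-K)) b c * y b x)
      (fun t => (h1 t).differentiableAt) (fun t => (h1 t).deriv) t 0
    rw [h4, Complex.ofReal_zero, zero_smul, NormedSpace.exp_zero, Finset.sum_eq_single c]
    · rw [Matrix.one_apply_eq, one_mul]
    · intro b _ hb
      rw [Matrix.one_apply_ne hb, zero_mul]
    · intro hc
      exact absurd (Finset.mem_univ _) hc
  have h1 : y a 1 = ∑ c, NormedSpace.exp K c a * y c 0 := by
    have h2 : ∀ c, y c 0 = ∑ b, NormedSpace.exp (-K) b c * y b 1 := by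
      intro c
      have h3 := hconst c 1
      rw [Complex.ofReal_one, one_smul] at h3
      exact h3.symm
    rw [Finset.sum_congr rfl fun c _ => by rw [h2 c]]
    simp only [Finset.mul_sum]
    rw [Finset.sum_comm]
    have h3 : ∀ b, ∑ c, NormedSpace.exp K c a * (NormedSpace.exp (-K) b c * y b 1) =
        (1 : Matrix (Fin n) (Fin n) ℂ) b a * y b 1 := by
      intro b
      have h4 : NormedSpace.exp (-K) * NormedSpace.exp K = 1 := (eG K).inv_val
      rw [← h4, Matrix.mul_apply, Finset.sum_mul]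
      exact Finset.sum_congr rfl fun c _ => by ring
    rw [Finset.sum_congr rfl fun b _ => h3 b, Finset.sum_eq_single a]
    · rw [Matrix.one_apply_eq, one_mul]
    · intro b _ hb
      rw [Matrix.one_apply_ne hb, zero_mul]
    · intro hc
      exact absurd (Finset.mem_univ _) hc
  have h2 : ∀ c, y c 0 = (A.Phi (B c i) u : ℂ) := by
    intro c
    simp [y]
  have hn : 0 < ‖z‖ := norm_pos_iff.2 hz
  have h3 : y a 1 = ((‖z‖ : ℂ) ^ (-(2 * w i))) * ((A.Phi (B a i) fun k => z • u k : ℝ) : ℂ) := by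
    have h4 : (fun k => z • u k) = fun k => ‖z‖ • (Complex.exp (β * Complex.I) • u k) := by
      funext k
      conv_lhs => rw [← Complex.norm_mul_exp_arg_mul_I z, mul_smul]
      rfl
    rw [h4, phi_scale, Fintype.card_fin]
    simp only [y, one_mul]
    have h5 : Real.exp (α * ((r i : ℝ) - 2 * w i)) = ‖z‖ ^ (-(2 * w i)) * ‖z‖ ^ (r i) := by
      have h6 : ‖z‖ ^ (-(2 * w i)) * ‖z‖ ^ (r i) = ‖z‖ ^ ((r i : ℝ) - 2 * w i) := by
        rw [← Real.rpow_intCast, ← Real.rpow_natCast, ← Real.rpow_add hn]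
        congr 1
        push_cast
        ring
      rw [h6, Real.rpow_def_of_pos hn]
    rw [h5]
    push_cast
    ring
  rw [h3] at h1
  simp only [h2] at h1
  have h4 : ((‖z‖ : ℂ)) ≠ 0 := by exact_mod_cast hn.ne'
  rw [← h1, ← mul_assoc, ← zpow_add₀ h4, add_neg_cancel, zpow_zero, one_mul]

end Pool.Agent.N208.AM
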