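import Pool.Agent.N208.AM.Hdg

set_option autoImplicit false
set_option linter.unusedSectionVars false

/-!
# Solvable groups which contain the periods of a motive
-/

open Module Function TensorProduct Matrix

noncomputable section

namespace Pool.Agent.N208.AM

open Pool.Agent.Y102 Pool.Agent.W516.DR Pool.Agent.H204R3.GP Pool.Agent.W516.KC
  Pool.Agent.H204R3.SP Pool.Agent.TH119.MX Pool.Agent.R917

variable {g : ℕ} {A : AbVar g} {s n : ℕ} {r : Fin s → ℕ} {B : Fin n → Ten A r} {w : Fin s → ℤ}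
  {P : Matrix (Fin n) (Fin n) ℂ} {H : Set (Matrix (Fin n) (Fin n) ℂ)}
  {Wt : Matrix (Fin n) (Fin n) ℚ} {N : Matrix (Fin n) (Fin n) ℝ}

/-- The relation between a complex number and the matrix of its action. -/
def HRel (w : Fin s → ℤ) (B : Fin n → Ten A r) (z : ℂ) (R : Matrix (Fin n) (Fin n) ℂ) : Prop :=
  ∀ a i (j : Fin (r i) → Fin (2 * g)),
    ∑ j' : Fin (r i) → Fin (2 * g), (∏ k, hm A z (j k) (j' k)) *
        (B a i (fun k => A.bas (j' k)) : ℂ) =
      (z * (starRingEnd ℂ) z) ^ (w i) * ∑ b, R b a * (B b i (fun k => A.bas (j k)) : ℂ)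

theorem hrel_exp (hW : WRel w B Wt) (hN : RelR B AbVar.JJ N) {z : ℂ} (hz : z ≠ 0) :
    HRel w B z (NormedSpace.exp (KK Wt N z)) := by
  intro a i j
  have h1 := phi_exp hW hN hz a i (fun k => A.lam (j k))
  have h2 : A.Phi (B a i) (fun k => z • A.lam (j k)) = ∑ j' : Fin (r i) → Fin (2 * g),
      (∏ k, A.lam.repr (z • A.lam (j k)) (j' k)) * (B a i (fun k => A.bas (j' k)) : ℝ) := by
    unfold AbVar.Phi
    rw [_root_.sum_apply]
    refine Finset.sum_congr rfl fun J _ => ?_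
    rw [_root_.smul_apply, MultilinearMap.compLinearMap_apply, MultilinearMap.mkPiAlgebra_apply,
      smul_eq_mul, mul_comm]
    rfl
  have h3 : ∀ b, A.Phi (B b i) (fun k => A.lam (j k)) = (B b i (fun k => A.bas (j k)) : ℝ) := by
    intro b
    have h4 : (fun k => A.lam (j k)) = fun k => A.per (A.bas (j k)) := by
      funext p
      rw [A.per_bas]
    rw [h4, A.Phi_per]
  have h4 : (z * (starRingEnd ℂ) z) ^ (w i) = (‖z‖ : ℂ) ^ (2 * w i) := by
    rw [Complex.mul_conj, Complex.normSq_eq_norm_sq, _root_.zpow_mul]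
    norm_cast
  rw [h4]
  rw [h2] at h1
  have h5 : ∀ b, ((A.Phi (B b i) (fun k => A.lam (j k)) : ℝ) : ℂ) =
      (B b i (fun k => A.bas (j k)) : ℂ) := by
    intro b
    rw [h3]
    push_cast
    rfl
  simp only [h5] at h1
  rw [← h1]
  push_cast
  rfl

/-- The matrices of the derived algebra of the subalgebra are in the Lie algebra of the group. -/
theorem der_mem (h : Mot w B P) (hW : WRel w B Wt) {Z : Module.End ℚ A.H1}
    (hZ : Z ∈ der (qM B Wt H)) : Z ∈ A.NA ∧ ∃ M, Rel B Z M ∧ M ∈ LQ H := by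
  induction hZ using Submodule.span_induction with
  | mem Z hZ =>
    obtain ⟨X, hX, Y, hY, rfl⟩ := hZ
    have h1 := A.NA_bracket hX.1 hY.1
    obtain ⟨M, hM⟩ := h.st _ h1
    exact ⟨h1, M, hM, qM_br h hW hX hY hM⟩
  | zero => exact ⟨A.NA.zero_mem, 0, Rel.zero, (LQ H).zero_mem⟩
  | add a b _ _ ha hb =>
    obtain ⟨h1, M, hM, hM'⟩ := ha
    obtain ⟨h2, M', hM2, hM2'⟩ := hb
    exact ⟨A.NA.add_mem h1 h2, M + M', hM.add hM2, (LQ H).add_mem hM' hM2'⟩
  | smul c a _ ha =>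
    obtain ⟨h1, M, hM, hM'⟩ := ha
    exact ⟨A.NA.smul_mem c h1, c • M, hM.smul c, (LQ H).smul_mem c hM'⟩

/-- The complexification of a rational matrix. -/
abbrev cq (M : Matrix (Fin n) (Fin n) ℚ) : Matrix (Fin n) (Fin n) ℂ := M.map fun q => (q : ℂ)

theorem cq_add (M N : Matrix (Fin n) (Fin n) ℚ) : cq (M + N) = cq M + cq N := by
  ext i j
  simp

theorem cq_smul (c : ℚ) (M : Matrix (Fin n) (Fin n) ℚ) : cq (c • M) = (c : ℂ) • cq M := by
  ext i j
  simp

theorem cq_zero : cq (0 : Matrix (Fin n) (Fin n) ℚ) = 0 := by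
  ext i j
  simp

theorem cq_mul (M N : Matrix (Fin n) (Fin n) ℚ) : cq (M * N) = cq M * cq N := by
  ext i j
  simp [Matrix.mul_apply]

theorem cq_sub (M N : Matrix (Fin n) (Fin n) ℚ) : cq (M - N) = cq M - cq N := by
  ext i j
  simp

theorem cq_inj {M N : Matrix (Fin n) (Fin n) ℚ} (h : cq M = cq N) : M = N := by
  ext i j
  have h1 := congrFun (congrFun h i) j
  simpa using h1

/-- If the group is solvable, the derived algebra acts trivially. -/
theorem kill_of_solvable (h : Mot w B P) (hW : WRel w B Wt) {G : Subgroup (GL (Fin n) ℂ)}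
    (hG : PtM P {M | ∃ x ∈ G, (x : Matrix (Fin n) (Fin n) ℂ) = M}) (hs : Group.IsSolvable G)
    {X Y : Module.End ℚ A.H1} (hX : X ∈ A.NA) (hY : Y ∈ A.NA) : Rel B (X * Y - Y * X) 0 := by
  have hq := qM_full h hW hG
  set 𝔮 := qM B Wt {M | ∃ x ∈ G, (x : Matrix (Fin n) (Fin n) ℂ) = M} with h𝔮
  have key := perfect_eq_zero (S := {M | ∃ Z ∈ der 𝔮, ∃ N, Rel B Z N ∧ M = cq N}) hG.grp hs
    (by
      rintro _ ⟨Z, hZ, N, hN, rfl⟩
      obtain ⟨_, M, hM, hM'⟩ := der_mem h hW hZ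
      rw [hN.uniq h.li hM]
      exact hM')
    (by
      rintro _ ⟨Z, hZ, N, hN, rfl⟩
      have h1 := hq.perfect hZ
      clear hZ
      induction h1 using Submodule.span_induction generalizing N with
      | mem Z hZ =>
        obtain ⟨X, hX, Y, hY, rfl⟩ := hZ
        obtain ⟨_, M, hM, _⟩ := der_mem h hW hX
        obtain ⟨_, M', hM', _⟩ := der_mem h hW hY
        refine Submodule.subset_span ⟨_, ⟨Y, hY, M', hM', rfl⟩, _, ⟨X, hX, M, hM, rfl⟩, ?_⟩
        rw [hN.uniq h.li (hM.br hM'), cq_sub, cq_mul, cq_mul]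
      | zero =>
        rw [hN.uniq h.li Rel.zero, cq_zero]
        exact Submodule.zero_mem _
      | add a b ha' hb' ha hb =>
        have hder : ∀ c ∈ Submodule.span ℚ {Z | ∃ X ∈ der 𝔮, ∃ Y ∈ der 𝔮, Z = X * Y - Y * X},
            c ∈ A.NA := by
          intro c hc
          refine (Submodule.span_le.2 ?_) hc
          rintro _ ⟨X, hX, Y, hY, rfl⟩
          exact A.NA_bracket (der_mem h hW hX).1 (der_mem h hW hY).1
        obtain ⟨M, hM⟩ := h.st a (hder a ha')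
        obtain ⟨M', hM'⟩ := h.st b (hder b hb')
        rw [hN.uniq h.li (hM.add hM'), cq_add]
        exact Submodule.add_mem _ (ha M hM) (hb M' hM')
      | smul c a ha' ha =>
        have hder : ∀ c ∈ Submodule.span ℚ {Z | ∃ X ∈ der 𝔮, ∃ Y ∈ der 𝔮, Z = X * Y - Y * X},
            c ∈ A.NA := by
          intro c hc
          refine (Submodule.span_le.2 ?_) hc
          rintro _ ⟨X, hX, Y, hY, rfl⟩
          exact A.NA_bracket (der_mem h hW hX).1 (der_mem h hW hY).1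
        obtain ⟨M, hM⟩ := h.st a (hder a ha')
        rw [hN.uniq h.li (hM.smul c), cq_smul]
        exact Submodule.smul_mem _ _ (ha M hM))
  have hz : ∀ X ∈ 𝔮, ∀ Y ∈ 𝔮, X * Y - Y * X ∈ kerM B := by
    intro X hX Y hY
    have h1 : X * Y - Y * X ∈ der 𝔮 := Submodule.subset_span ⟨X, hX, Y, hY, rfl⟩
    obtain ⟨h2, M, hM, _⟩ := der_mem h hW h1
    have h3 := key _ ⟨_, h1, M, hM, rfl⟩
    rw [← cq_zero] at h3
    rw [cq_inj h3] at hM
    exact ⟨h2, hM⟩
  exact (der_le_of_ideal hq (kerM_ideal h) (fun X hX => hX.1) hz hX hY).2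

/-! ### Centralizers -/

/-- The centralizer of a set of rational matrices. -/
def cent (S : Set (Matrix (Fin n) (Fin n) ℚ)) : Subgroup (GL (Fin n) ℂ) where
  carrier := {x | ∀ M ∈ S, (x : Matrix (Fin n) (Fin n) ℂ) * cq M = cq M * x}
  one_mem' := fun M _ => by rw [Units.val_one, one_mul, mul_one]
  mul_mem' := by
    intro x y hx hy M hM
    rw [Units.val_mul, mul_assoc, hy M hM, ← mul_assoc, hx M hM, mul_assoc]
  inv_mem' := by
    intro x hx M hM
    have h1 := hx M hM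
    calc ((x⁻¹ : GL (Fin n) ℂ) : Matrix (Fin n) (Fin n) ℂ) * cq M
        = (x⁻¹ : GL (Fin n) ℂ) * (cq M * x) * (x⁻¹ : GL (Fin n) ℂ) := by
          rw [mul_assoc, mul_assoc, Units.mul_inv, mul_one]
      _ = (x⁻¹ : GL (Fin n) ℂ) * (x * cq M) * (x⁻¹ : GL (Fin n) ℂ) := by rw [h1]
      _ = cq M * (x⁻¹ : GL (Fin n) ℂ) := by rw [← mul_assoc, Units.inv_mul, one_mul]

theorem mem_cent {S : Set (Matrix (Fin n) (Fin n) ℚ)} {x : GL (Fin n) ℂ} :
    x ∈ cent S ↔ ∀ M ∈ S, (x : Matrix (Fin n) (Fin n) ℂ) * cq M = cq M * x := Iff.rfl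

theorem cent_alg (S : Set (Matrix (Fin n) (Fin n) ℚ)) :
    ∃ I : Set (MvPolynomial (Fin n × Fin n) ℚ), ∀ x : GL (Fin n) ℂ, x ∈ cent S ↔
      ∀ p ∈ I, MvPolynomial.aeval
        (fun b : Fin n × Fin n => (x : Matrix (Fin n) (Fin n) ℂ) b.1 b.2) p = 0 := by
  refine ⟨{p | ∃ M ∈ S, ∃ i j, p = ∑ k, MvPolynomial.X (i, k) * MvPolynomial.C (M k j) -
    ∑ k, MvPolynomial.C (M i k) * MvPolynomial.X (k, j)}, fun x => ?_⟩
  have h1 : ∀ (M : Matrix (Fin n) (Fin n) ℚ) (i j : Fin n), MvPolynomial.aeval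
      (fun b : Fin n × Fin n => (x : Matrix (Fin n) (Fin n) ℂ) b.1 b.2)
      (∑ k, MvPolynomial.X (i, k) * MvPolynomial.C (M k j) -
        ∑ k, MvPolynomial.C (M i k) * MvPolynomial.X (k, j)) =
      ((x : Matrix (Fin n) (Fin n) ℂ) * cq M) i j -
        (cq M * (x : Matrix (Fin n) (Fin n) ℂ)) i j := by
    intro M i j
    simp [Matrix.mul_apply]
  rw [mem_cent]
  constructor
  · rintro h _ ⟨M, hM, i, j, rfl⟩
    rw [h1, h M hM, sub_self]
  · intro h M hM
    ext i j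
    have h2 := h _ ⟨M, hM, i, j, rfl⟩
    rw [h1] at h2
    exact sub_eq_zero.1 h2

/-- A complex matrix which commutes with rational matrices is a combination of rational matrices
with this property. -/
theorem mem_span_cent {S : Set (Matrix (Fin n) (Fin n) ℚ)} {x : Matrix (Fin n) (Fin n) ℂ}
    (hx : ∀ M ∈ S, x * cq M = cq M * x) :
    x ∈ Submodule.span ℂ {y | ∃ E : Matrix (Fin n) (Fin n) ℚ, (∀ M ∈ S, E * M = M * E) ∧
      y = cq E} := by
  classical
  let b := Basis.ofVectorSpace ℚ ℂ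
  let t : Finset (Basis.ofVectorSpaceIndex ℚ ℂ) :=
    Finset.univ.biUnion fun p : Fin n × Fin n => (b.repr (x p.1 p.2)).support
  have h1 : ∀ i j, x i j = ∑ k ∈ t, (b.coord k (x i j) : ℂ) * b k := by
    intro i j
    have h2 := b.linearCombination_repr (x i j)
    rw [Finsupp.linearCombination_apply, Finsupp.sum_of_support_subset (s := t) _
      (fun k hk => Finset.mem_biUnion.2 ⟨(i, j), Finset.mem_univ _, hk⟩) (fun k a => a • _)
      (fun k _ => zero_smul ℚ _)] at h2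
    conv_lhs => rw [← h2]
    refine Finset.sum_congr rfl fun k _ => ?_
    rw [Basis.coord_apply, Rat.smul_def]
  have h2 : x = ∑ k ∈ t, b k • cq (x.map (b.coord k)) := by
    ext i j
    rw [Matrix.sum_apply, h1 i j]
    refine Finset.sum_congr rfl fun k _ => ?_
    exact mul_comm _ _
  rw [h2]
  refine Submodule.sum_mem _ fun k _ => Submodule.smul_mem _ _ (Submodule.subset_span
    ⟨x.map (b.coord k), fun M hM => ?_, rfl⟩)
  have hq : ∀ (z : ℂ) (q : ℚ), b.coord k (z * (q : ℂ)) = b.coord k z * q := by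
    intro z q
    have h3 : z * (q : ℂ) = q • z := by rw [Rat.smul_def, mul_comm]
    rw [h3, map_smul, smul_eq_mul, mul_comm]
  ext i j
  have h3 := congrArg (b.coord k) (congrFun (congrFun (hx M hM) i) j)
  rw [Matrix.mul_apply, Matrix.mul_apply, map_sum, map_sum] at h3
  rw [Matrix.mul_apply, Matrix.mul_apply]
  simp only [Matrix.map_apply] at h3 ⊢
  simp only [hq, mul_comm ((M i _ : ℚ) : ℂ)] at h3
  rw [h3]
  exact Finset.sum_congr rfl fun l _ => mul_comm _ _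

theorem KK_mem {S : Set (Matrix (Fin n) (Fin n) ℚ)} (hWS : Wt ∈ S)
    (hS : ∀ X ∈ A.NA, ∀ M, Rel B X M → M ∈ S) (hN : ∃ (t : Finset (Basis.ofVectorSpaceIndex ℚ ℝ))
      (X : Basis.ofVectorSpaceIndex ℚ ℝ → Module.End ℚ A.H1)
      (M : Basis.ofVectorSpaceIndex ℚ ℝ → Matrix (Fin n) (Fin n) ℚ),
      (∀ k, X k ∈ A.NA ∧ Rel B (X k) (M k)) ∧
      N = ∑ k ∈ t, (Basis.ofVectorSpace ℚ ℝ k) • (M k).map fun q => (q : ℝ)) (z : ℂ) :
    KK Wt N z ∈ Submodule.span ℂ (cq '' S) := by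
  obtain ⟨t, X, M, h1, rfl⟩ := hN
  refine Submodule.add_mem _ (Submodule.smul_mem _ _ (Submodule.subset_span ⟨Wt, hWS, rfl⟩))
    (Submodule.smul_mem _ _ ?_)
  have h2 : cxm (∑ k ∈ t, (Basis.ofVectorSpace ℚ ℝ k) • (M k).map fun q => (q : ℝ)) =
      ∑ k ∈ t, ((Basis.ofVectorSpace ℚ ℝ k : ℝ) : ℂ) • cq (M k) := by
    ext i j
    unfold cxm
    rw [Matrix.map_apply, Matrix.sum_apply, Matrix.sum_apply]
    push_cast
    refine Finset.sum_congr rfl fun k _ => ?_
    simp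
  rw [h2]
  exact Submodule.sum_mem _ fun k _ => Submodule.smul_mem _ _
    (Submodule.subset_span ⟨_, hS _ (h1 k).1 _ (h1 k).2, rfl⟩)

theorem comm_exp {K E : Matrix (Fin n) (Fin n) ℂ} (h : K * E = E * K) :
    NormedSpace.exp K * E = E * NormedSpace.exp K := by
  have h1 : Commute K E := h
  exact (h1.exp_left).eq

/-- The matrices of the actions of the Lie algebra and of the weight. -/
def opS (B : Fin n → Ten A r) (Wt : Matrix (Fin n) (Fin n) ℚ) : Set (Matrix (Fin n) (Fin n) ℚ) :=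
  {M | M = Wt ∨ ∃ X ∈ A.NA, Rel B X M}

/-- If the derived algebra acts trivially the Mumford-Tate group is commutative. -/
theorem comm_of_kill (h : Mot w B P) (hW : WRel w B Wt)
    (hk : ∀ X ∈ A.NA, ∀ Y ∈ A.NA, Rel B (X * Y - Y * X) 0) :
    ∃ G₁ : Subgroup (GL (Fin n) ℂ), (∃ I : Set (MvPolynomial (Fin n × Fin n) ℚ),
      ∀ x : GL (Fin n) ℂ, x ∈ G₁ ↔ ∀ p ∈ I, MvPolynomial.aeval
        (fun b : Fin n × Fin n => (x : Matrix (Fin n) (Fin n) ℂ) b.1 b.2) p = 0) ∧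
      (∀ z : ℂ, z ≠ 0 → ∃ x ∈ G₁, HRel w B z (x : Matrix (Fin n) (Fin n) ℂ)) ∧
      ∀ x ∈ G₁, ∀ y ∈ G₁, x * y = y * x := by
  obtain ⟨N, hN, hN'⟩ := exists_J h
  let S := opS B Wt
  let S' : Set (Matrix (Fin n) (Fin n) ℚ) := {E | ∀ M ∈ S, E * M = M * E}
  obtain ⟨I, hI⟩ := cent_alg S
  obtain ⟨I', hI'⟩ := cent_alg S'
  have hcomm : ∀ M ∈ S, ∀ M' ∈ S, M * M' = M' * M := by
    rintro M (rfl | ⟨X, hX, hM⟩) M' (rfl | ⟨Y, hY, hM'⟩)
    · rfl
    · exact (WRel.comm h.li hM' hW).symm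
    · exact WRel.comm h.li hM hW
    · have h1 := (hM.br hM').uniq h.li (hk X hX Y hY)
      exact (sub_eq_zero.1 h1).symm
  refine ⟨cent S ⊓ cent S', ⟨I ∪ I', fun x => ?_⟩, fun z hz => ?_, ?_⟩
  · rw [Subgroup.mem_inf, hI, hI']
    constructor
    · rintro ⟨h1, h2⟩ p (hp | hp)
      · exact h1 p hp
      · exact h2 p hp
    · intro h1
      exact ⟨fun p hp => h1 p (Or.inl hp), fun p hp => h1 p (Or.inr hp)⟩
  · refine ⟨eG (KK Wt N z), ⟨fun M hM => ?_, fun E hE => ?_⟩, hrel_exp hW hN hz⟩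
    · refine comm_exp ?_
      have h1 := KK_mem (S := S) (Or.inl rfl)
        (fun X hX M hM => Or.inr ⟨X, hX, hM⟩) hN' z
      refine Submodule.span_induction (p := fun K _ => K * cq M = cq M * K) ?_ ?_ ?_ ?_ h1
      · rintro _ ⟨M', hM', rfl⟩
        rw [← cq_mul, ← cq_mul, hcomm M' hM' M hM]
      · rw [zero_mul, mul_zero]
      · intro a b _ _ ha hb
        rw [add_mul, mul_add, ha, hb]
      · intro c a _ ha
        rw [smul_mul_assoc, mul_smul_comm, ha]
    · refine comm_exp ?_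
      have h1 := KK_mem (S := S) (Or.inl rfl)
        (fun X hX M hM => Or.inr ⟨X, hX, hM⟩) hN' z
      refine Submodule.span_induction (p := fun K _ => K * cq E = cq E * K) ?_ ?_ ?_ ?_ h1
      · rintro _ ⟨M', hM', rfl⟩
        rw [← cq_mul, ← cq_mul, hE M' hM']
      · rw [zero_mul, mul_zero]
      · intro a b _ _ ha hb
        rw [add_mul, mul_add, ha, hb]
      · intro c a _ ha
        rw [smul_mul_assoc, mul_smul_comm, ha]
  · rintro x ⟨hx, -⟩ y ⟨-, hy⟩
    apply Units.ext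
    rw [Units.val_mul, Units.val_mul]
    have h1 := mem_span_cent (S := S) (x := (x : Matrix (Fin n) (Fin n) ℂ)) hx
    refine Submodule.span_induction
      (p := fun (K : Matrix (Fin n) (Fin n) ℂ) _ => K * (y : Matrix (Fin n) (Fin n) ℂ) = y * K)
      ?_ ?_ ?_ ?_ h1
    · rintro _ ⟨E, hE, rfl⟩
      exact (hy E hE).symm
    · rw [zero_mul, mul_zero]
    · intro a b _ _ ha hb
      rw [add_mul, mul_add, ha, hb]
    · intro c a _ ha
      rw [smul_mul_assoc, mul_smul_comm, ha]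

/-! ### Abelian varieties without factors of type IV -/

/-- The Rosati involution is trivial on the centre of the endomorphisms. -/
def NT4 (A : AbVar g) : Prop :=
  ∀ P ∈ A.EA, (∀ Q ∈ A.EA, P * Q = Q * P) → IsSkew A.om P → P = 0

theorem full_NA : A.Full A.NA where
  le := le_rfl
  br := fun _ hX _ hY => A.NA_bracket hX hY
  semi := A.semi_NA
  comm := fun _ h => h

theorem NA_le_der (hA : NT4 A) {X : Module.End ℚ A.H1} (hX : X ∈ A.NA) : X ∈ der A.NA := by
  obtain ⟨Z, hZ, d, hd, rfl, hc⟩ := full_NA.dec hX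
  have h1 : Z ∈ A.EA := fun Y hY => (hc Y (A.LA_le_NA hY)).symm
  have h2 : Z = 0 := hA Z h1 (fun Q hQ => A.NA_comm hZ hQ) (A.NA_skew hZ)
  rw [h2, zero_add]
  exact hd

/-- If the derived algebra acts trivially, the whole Lie algebra acts trivially. -/
theorem all_kill (hA : NT4 A) (hk : ∀ X ∈ A.NA, ∀ Y ∈ A.NA, Rel B (X * Y - Y * X) 0)
    {X : Module.End ℚ A.H1} (hX : X ∈ A.NA) : Rel B X 0 := by
  have h1 := NA_le_der hA hX
  clear hX
  induction h1 using Submodule.span_induction with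
  | mem Z hZ =>
    obtain ⟨X, hX, Y, hY, rfl⟩ := hZ
    exact hk X hX Y hY
  | zero => exact Rel.zero
  | add a b _ _ ha hb =>
    have h := Rel.add ha hb
    rwa [add_zero] at h
  | smul c a _ ha =>
    have h := Rel.smul c ha
    rwa [smul_zero] at h

theorem N_zero (h : Mot w B P) (hk : ∀ X ∈ A.NA, Rel B X 0)
    (hN : ∃ (t : Finset (Basis.ofVectorSpaceIndex ℚ ℝ))
      (X : Basis.ofVectorSpaceIndex ℚ ℝ → Module.End ℚ A.H1)
      (M : Basis.ofVectorSpaceIndex ℚ ℝ → Matrix (Fin n) (Fin n) ℚ),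
      (∀ k, X k ∈ A.NA ∧ Rel B (X k) (M k)) ∧
      N = ∑ k ∈ t, (Basis.ofVectorSpace ℚ ℝ k) • (M k).map fun q => (q : ℝ)) : N = 0 := by
  obtain ⟨t, X, M, h1, rfl⟩ := hN
  refine Finset.sum_eq_zero fun k _ => ?_
  rw [(h1 k).2.uniq h.li (hk _ (h1 k).1)]
  ext i j
  simp

theorem hrel_one_of_kill (h : Mot w B P) (hW : WRel w B Wt) (hk : ∀ X ∈ A.NA, Rel B X 0) {z : ℂ}
    (hz : z ≠ 0) (hz1 : ‖z‖ = 1 ∨ Wt = 0) : HRel w B z 1 := by
  obtain ⟨N, hN, hN'⟩ := exists_J h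
  have h0 : N = 0 := N_zero h hk hN'
  have h1 := hrel_exp hW hN hz
  have h2 : KK Wt N z = 0 := by
    unfold KK cxm
    rw [h0]
    have h3 : (0 : Matrix (Fin n) (Fin n) ℝ).map (fun x => (x : ℂ)) = 0 := by
      ext i j
      simp
    rw [h3, smul_zero, add_zero]
    rcases hz1 with hz1 | hz1
    · rw [hz1, Real.log_one, Complex.ofReal_zero, zero_smul]
    · rw [hz1]
      change _ • cq 0 = _
      rw [cq_zero, smul_zero]
  rwa [h2, NormedSpace.exp_zero] at h1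

/-- If the periods are algebraic and the Lie algebra acts trivially, the weights are zero. -/
theorem Wt_zero (h : Mot w B P) (hW : WRel w B Wt) (hk : ∀ X ∈ A.NA, Rel B X 0)
    (halg : ∀ i j, IsAlgebraic ℚ (P i j)) : Wt = 0 := by
  obtain ⟨D, lam, hne⟩ := exists_der
  have hu : IsUnit P.det := isUnit_iff_ne_zero.2 h.det
  have h0 : X0 A.basis tau D lam ∈ A.NA := A.LA_le_NA (by
    rw [AbVar.LA_eq]
    exact X0_mem A.basis AbVar.tau_ne D lam)
  have h1 := lam_log h (Matrix.mul_nonsing_inv _ hu) D lam (hk _ h0) hW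
  have h2 : P.map D = 0 := by
    ext i j
    rw [Matrix.map_apply]
    exact Pool.Agent.TH119.DR.deriv_alg (derQ D) (halg i j)
  ext b c
  have h3 := h1 b c
  rw [h2, Matrix.zero_mul, Matrix.zero_apply, map_zero, Matrix.zero_apply, zero_add] at h3
  exact (mul_eq_zero.1 h3.symm).resolve_left hne

/-- The trivial group is algebraic. -/
theorem bot_alg (n : ℕ) : ∃ I : Set (MvPolynomial (Fin n × Fin n) ℚ), ∀ x : GL (Fin n) ℂ,
    x ∈ (⊥ : Subgroup (GL (Fin n) ℂ)) ↔ ∀ p ∈ I, MvPolynomial.aeval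
      (fun b : Fin n × Fin n => (x : Matrix (Fin n) (Fin n) ℂ) b.1 b.2) p = 0 := by
  refine ⟨{p | ∃ i j, p = MvPolynomial.X (i, j) -
      MvPolynomial.C ((1 : Matrix (Fin n) (Fin n) ℚ) i j)}, fun x => ?_⟩
  rw [Subgroup.mem_bot]
  have h1 : ∀ i j, MvPolynomial.aeval
      (fun b : Fin n × Fin n => (x : Matrix (Fin n) (Fin n) ℂ) b.1 b.2)
      (MvPolynomial.X (i, j) - MvPolynomial.C ((1 : Matrix (Fin n) (Fin n) ℚ) i j)) =
      (x : Matrix (Fin n) (Fin n) ℂ) i j - (1 : Matrix (Fin n) (Fin n) ℂ) i j := by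
    intro i j
    simp only [map_sub, MvPolynomial.aeval_X, MvPolynomial.aeval_C, Matrix.one_apply]
    split_ifs <;> simp
  constructor
  · rintro rfl _ ⟨i, j, rfl⟩
    rw [h1, Units.val_one, sub_self]
  · intro h
    apply Units.ext
    ext i j
    have h2 := h _ ⟨i, j, rfl⟩
    rw [h1] at h2
    rw [Units.val_one]
    exact sub_eq_zero.1 h2

/-- The inverse of an invertible matrix with algebraic entries. -/
theorem inv_alg {P : Matrix (Fin n) (Fin n) ℂ} (hdet : P.det ≠ 0)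
    (halg : ∀ i j, IsAlgebraic ℚ (P i j)) (i j : Fin n) : IsAlgebraic ℚ (P⁻¹ i j) := by
  obtain ⟨T', h1, h2⟩ := alg_inv halg hdet
  rw [Matrix.inv_eq_right_inv h1]
  exact mem_QA.1 (h2 i j)

end Pool.Agent.N208.AM
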