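import Pool.Agent.N208.AM.Gram

set_option autoImplicit false
set_option linter.unusedSectionVars false

/-!
# Motives whose Mumford-Tate domain has dimension one
-/

open Module Function TensorProduct Matrix

noncomputable section

namespace Pool.Agent.N208.AM

open Pool.Agent.Y102 Pool.Agent.W516.DR Pool.Agent.H204R3.GP Pool.Agent.W516.KC
  Pool.Agent.H204R3.SP Pool.Agent.TH119.MX Pool.Agent.R917

variable {g : ℕ} {A : AbVar g} {s n : ℕ} {r : Fin s → ℕ} {B : Fin n → Ten A r} {w : Fin s → ℤ}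
  {P : Matrix (Fin n) (Fin n) ℂ} {H : Set (Matrix (Fin n) (Fin n) ℂ)}
  {Wt : Matrix (Fin n) (Fin n) ℚ} {N : Matrix (Fin n) (Fin n) ℝ}

/-- The real matrix of a rational matrix. -/
abbrev rq (M : Matrix (Fin n) (Fin n) ℚ) : Matrix (Fin n) (Fin n) ℝ := M.map fun q => (q : ℝ)

theorem rq_add (M N : Matrix (Fin n) (Fin n) ℚ) : rq (M + N) = rq M + rq N := by
  ext i j
  simp

theorem rq_smul (c : ℚ) (M : Matrix (Fin n) (Fin n) ℚ) : rq (c • M) = (c : ℝ) • rq M := by
  ext i j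
  simp

theorem rq_zero : rq (0 : Matrix (Fin n) (Fin n) ℚ) = 0 := by
  ext i j
  simp

theorem rq_mul (M N : Matrix (Fin n) (Fin n) ℚ) : rq (M * N) = rq M * rq N := by
  ext i j
  simp [Matrix.mul_apply]

theorem rq_sub (M N : Matrix (Fin n) (Fin n) ℚ) : rq (M - N) = rq M - rq N := by
  ext i j
  simp

/-- The real span of the matrices of a set of endomorphisms. -/
def spR (B : Fin n → Ten A r) (S : Set (Module.End ℚ A.H1)) :
    Submodule ℝ (Matrix (Fin n) (Fin n) ℝ) :=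
  Submodule.span ℝ {M | ∃ X ∈ S, ∃ Mq, Rel B X Mq ∧ M = rq Mq}

theorem mem_spR {S : Set (Module.End ℚ A.H1)} {X : Module.End ℚ A.H1} (hX : X ∈ S)
    {M : Matrix (Fin n) (Fin n) ℚ} (hM : Rel B X M) : rq M ∈ spR B S :=
  Submodule.subset_span ⟨X, hX, M, hM, rfl⟩

theorem spR_br {S : Submodule ℚ (Module.End ℚ A.H1)} (hS : ∀ X ∈ S, ∀ Y ∈ S, X * Y - Y * X ∈ S) :
    ∀ x ∈ spR B S, ∀ y ∈ spR B S, RLie.br x y ∈ spR B S := by
  intro x hx y hy
  induction hx using Submodule.span_induction with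
  | mem x hx =>
    obtain ⟨X, hX, M, hM, rfl⟩ := hx
    induction hy using Submodule.span_induction with
    | mem y hy =>
      obtain ⟨Y, hY, M', hM', rfl⟩ := hy
      rw [RLie.br_apply, ← rq_mul, ← rq_mul, ← rq_sub]
      exact mem_spR (hS Y hY X hX) (hM'.br hM)
    | zero => rw [map_zero]; exact Submodule.zero_mem _
    | add a b _ _ ha hb => rw [map_add]; exact Submodule.add_mem _ ha hb
    | smul c a _ ha => rw [map_smul]; exact Submodule.smul_mem _ c ha
  | zero => rw [LinearMap.map_zero₂]; exact Submodule.zero_mem _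
  | add a b _ _ ha hb => rw [LinearMap.map_add₂]; exact Submodule.add_mem _ ha hb
  | smul c a _ ha => rw [LinearMap.map_smul₂]; exact Submodule.smul_mem _ c ha

/-- The conjugation by the complex structure. -/
def th (Y : Module.End ℝ (Fin g → ℂ)) : Module.End ℝ (Fin g → ℂ) :=
  Y + (1 / 2 : ℝ) • (AbVar.JJ * (AbVar.JJ * Y - Y * AbVar.JJ) -
    (AbVar.JJ * Y - Y * AbVar.JJ) * AbVar.JJ)

theorem JJ_sq : (AbVar.JJ : Module.End ℝ (Fin g → ℂ)) * AbVar.JJ = -1 := by
  refine LinearMap.ext fun u => ?_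
  rw [Module.End.mul_apply, AbVar.JJ_apply, AbVar.JJ_apply, smul_smul, Complex.I_mul_I,
    neg_one_smul, LinearMap.neg_apply, Module.End.one_apply]

theorem JJ_mul (Y : Module.End ℝ (Fin g → ℂ)) : AbVar.JJ * (AbVar.JJ * Y) = -Y := by
  refine LinearMap.ext fun u => ?_
  rw [Module.End.mul_apply, Module.End.mul_apply, AbVar.JJ_apply, AbVar.JJ_apply, smul_smul,
    Complex.I_mul_I, neg_one_smul, LinearMap.neg_apply]

theorem mul_JJ (Y : Module.End ℝ (Fin g → ℂ)) : Y * AbVar.JJ * AbVar.JJ = -Y := by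
  refine LinearMap.ext fun u => ?_
  rw [Module.End.mul_apply, Module.End.mul_apply, AbVar.JJ_apply, AbVar.JJ_apply, smul_smul,
    Complex.I_mul_I, neg_one_smul, LinearMap.neg_apply, map_neg]

theorem th_eq (Y : Module.End ℝ (Fin g → ℂ)) : th Y = -(AbVar.JJ * Y * AbVar.JJ) := by
  unfold th
  rw [mul_sub, sub_mul, JJ_mul, mul_JJ, ← mul_assoc]
  module

theorem JJ_cub (Y : Module.End ℝ (Fin g → ℂ)) :
    AbVar.JJ * (AbVar.JJ * (AbVar.JJ * Y - Y * AbVar.JJ) -
      (AbVar.JJ * Y - Y * AbVar.JJ) * AbVar.JJ) - (AbVar.JJ * (AbVar.JJ * Y - Y * AbVar.JJ) -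
      (AbVar.JJ * Y - Y * AbVar.JJ) * AbVar.JJ) * AbVar.JJ =
      (-4 : ℝ) • (AbVar.JJ * Y - Y * AbVar.JJ) := by
  have h1 := JJ_mul Y
  have h2 := mul_JJ Y
  have h3 : AbVar.JJ * (AbVar.JJ * (Y * AbVar.JJ)) = -(Y * AbVar.JJ) := JJ_mul _
  have h4 : AbVar.JJ * Y * AbVar.JJ * AbVar.JJ = -(AbVar.JJ * Y) := mul_JJ _
  generalize (AbVar.JJ : Module.End ℝ (Fin g → ℂ)) = J at *
  have e1 : J * (J * Y - Y * J) - (J * Y - Y * J) * J = (-2 : ℝ) • Y - (2 : ℝ) • (J * Y * J) := by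
    rw [mul_sub, sub_mul, h1, h2, ← mul_assoc]
    module
  rw [e1, mul_sub, sub_mul, mul_smul_comm, mul_smul_comm, smul_mul_assoc, smul_mul_assoc, h4,
    mul_assoc J Y J, h3]
  module

/-- The elements of the real span are given by real endomorphisms which respect the polarization. -/
theorem good_spR {M : Matrix (Fin n) (Fin n) ℝ} (hM : M ∈ spR B (A.NA : Set (Module.End ℚ A.H1))) :
    ∃ Y : Module.End ℝ (Fin g → ℂ), RelR B Y M ∧ ∀ u v, A.PF (Y u) v = A.PF u ((-th Y) v) := by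
  induction hM using Submodule.span_induction with
  | mem M hM =>
    obtain ⟨X, hX, Mq, hMq, rfl⟩ := hM
    refine ⟨A.ext X, hMq.real, ?_⟩
    have hsk : ∀ u v, A.E (A.ext X u) v = -A.E u (A.ext X v) := by
      have h2 : A.E.comp (A.ext X) = -(A.E.flip.comp (A.ext X)).flip := by
        refine A.ext_per fun u => A.ext_per fun v => ?_
        change A.E (A.ext X (A.per u)) (A.per v) = -A.E (A.per u) (A.ext X (A.per v))
        rw [A.ext_apply, A.ext_apply, ← A.om_coe, ← A.om_coe, ← Rat.cast_neg]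
        congr 1
        linear_combination A.NA_skew hX u v
      intro u v
      exact congrArg (fun F : (Fin g → ℂ) →ₗ[ℝ] (Fin g → ℂ) →ₗ[ℝ] ℝ => F u v) h2
    intro u v
    rw [th_eq, neg_neg, A.PF_apply, A.PF_apply, hsk, Module.End.mul_apply, Module.End.mul_apply,
      AbVar.JJ_apply, AbVar.JJ_apply, smul_smul, Complex.I_mul_I, neg_one_smul, map_neg]
  | zero =>
    refine ⟨0, RelR.zero, fun u v => ?_⟩
    rw [th_eq]
    simp
  | add a b _ _ ha hb =>
    obtain ⟨Y, h1, h2⟩ := ha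
    obtain ⟨Y', h1', h2'⟩ := hb
    refine ⟨Y + Y', h1.add h1', fun u v => ?_⟩
    have h3 : -th (Y + Y') = -th Y + -th Y' := by
      rw [th_eq, th_eq, th_eq, mul_add, add_mul]
      abel
    rw [h3, LinearMap.add_apply, LinearMap.add_apply, map_add, map_add, LinearMap.add_apply, h2,
      h2']
  | smul c a _ ha =>
    obtain ⟨Y, h1, h2⟩ := ha
    refine ⟨c • Y, h1.smul c, fun u v => ?_⟩
    have h3 : -th (c • Y) = c • -th Y := by
      rw [th_eq, th_eq, mul_smul_comm, smul_mul_assoc]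
      module
    rw [h3, LinearMap.smul_apply, LinearMap.smul_apply, map_smul, map_smul, LinearMap.smul_apply,
      h2]

/-- The rational components of an element of the real span. -/
theorem map_spR {z : Matrix (Fin n) (Fin n) ℝ} (hz : z ∈ spR B (A.NA : Set (Module.End ℚ A.H1)))
    (f : ℝ →ₗ[ℚ] ℚ) : ∃ X ∈ A.NA, Rel B X (z.map f) := by
  induction hz using Submodule.span_induction generalizing f with
  | mem z hz =>
    obtain ⟨X, hX, Mq, hMq, rfl⟩ := hz
    refine ⟨f 1 • X, A.NA.smul_mem _ hX, ?_⟩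
    have h1 : (rq Mq).map f = f 1 • Mq := by
      ext i j
      change f ((Mq i j : ℚ) : ℝ) = f 1 * Mq i j
      have h2 : ((Mq i j : ℚ) : ℝ) = Mq i j • (1 : ℝ) := by rw [Rat.smul_def, mul_one]
      rw [h2, map_smul, smul_eq_mul, mul_comm]
    rw [h1]
    exact hMq.smul _
  | zero =>
    refine ⟨0, A.NA.zero_mem, ?_⟩
    have h1 : (0 : Matrix (Fin n) (Fin n) ℝ).map f = 0 := by
      ext i j
      simp
    rw [h1]
    exact Rel.zero
  | add a b _ _ ha hb =>
    obtain ⟨X, hX, h1⟩ := ha f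
    obtain ⟨Y, hY, h2⟩ := hb f
    refine ⟨X + Y, A.NA.add_mem hX hY, ?_⟩
    have h3 : (a + b).map f = a.map f + b.map f := by
      ext i j
      simp
    rw [h3]
    exact h1.add h2
  | smul c a _ ha =>
    obtain ⟨X, hX, h1⟩ := ha (f.comp (LinearMap.mulLeft ℚ c))
    refine ⟨X, hX, ?_⟩
    have h3 : (c • a).map f = a.map (f.comp (LinearMap.mulLeft ℚ c)) := by
      ext i j
      simp
    rw [h3]
    exact h1

/-- The centre acts trivially. -/
def NoCentre (B : Fin n → Ten A r) : Prop :=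
  ∀ X ∈ A.NA, (∀ Y ∈ A.NA, Rel B (X * Y - Y * X) 0) → Rel B X 0

theorem spR_mono {S T : Set (Module.End ℚ A.H1)} (h : S ⊆ T) : spR B S ≤ spR B T :=
  Submodule.span_mono fun _ ⟨X, hX, Mq, hM, hM'⟩ => ⟨X, h hX, Mq, hM, hM'⟩

/-- The centre. -/
def cenA (A : AbVar g) : Submodule ℚ (Module.End ℚ A.H1) where
  carrier := {Z | Z ∈ A.NA ∧ ∀ Y ∈ A.NA, Z * Y = Y * Z}
  zero_mem' := ⟨A.NA.zero_mem, fun Y _ => by rw [zero_mul, mul_zero]⟩
  add_mem' := by
    rintro X Y ⟨hX, h1⟩ ⟨hY, h2⟩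
    exact ⟨A.NA.add_mem hX hY, fun Z hZ => by rw [add_mul, mul_add, h1 Z hZ, h2 Z hZ]⟩
  smul_mem' := by
    rintro c X ⟨hX, h1⟩
    exact ⟨A.NA.smul_mem c hX, fun Z hZ => by rw [smul_mul_assoc, mul_smul_comm, h1 Z hZ]⟩

theorem cenA_le : cenA A ≤ A.NA := fun _ h => h.1

theorem der_NA_le : der A.NA ≤ A.NA := full_NA.der_le

theorem exists_dec (h : Mot w B P) {x : Matrix (Fin n) (Fin n) ℝ}
    (hx : x ∈ spR B (A.NA : Set (Module.End ℚ A.H1))) :
    ∃ c ∈ spR B (cenA A : Set (Module.End ℚ A.H1)),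
      ∃ d ∈ spR B (der A.NA : Set (Module.End ℚ A.H1)), x = c + d := by
  induction hx using Submodule.span_induction with
  | mem x hx =>
    obtain ⟨X, hX, M, hM, rfl⟩ := hx
    obtain ⟨Z, hZ, d, hd, rfl, hcomm⟩ := full_NA.dec hX
    obtain ⟨M1, hM1⟩ := h.st Z hZ
    obtain ⟨M2, hM2⟩ := h.st d (der_NA_le hd)
    refine ⟨rq M1, mem_spR (S := (cenA A : Set (Module.End ℚ A.H1))) ⟨hZ, hcomm⟩ hM1, rq M2,
      mem_spR hd hM2, ?_⟩
    rw [← rq_add, hM.uniq h.li (hM1.add hM2)]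
  | zero => exact ⟨0, Submodule.zero_mem _, 0, Submodule.zero_mem _, (add_zero _).symm⟩
  | add a b _ _ ha hb =>
    obtain ⟨c, hc, d, hd, rfl⟩ := ha
    obtain ⟨c', hc', d', hd', rfl⟩ := hb
    exact ⟨c + c', Submodule.add_mem _ hc hc', d + d', Submodule.add_mem _ hd hd', by abel⟩
  | smul t a _ ha =>
    obtain ⟨c, hc, d, hd, rfl⟩ := ha
    exact ⟨t • c, Submodule.smul_mem _ _ hc, t • d, Submodule.smul_mem _ _ hd, smul_add _ _ _⟩

theorem cenA_br (h : Mot w B P) {x y : Matrix (Fin n) (Fin n) ℝ}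
    (hx : x ∈ spR B (cenA A : Set (Module.End ℚ A.H1)))
    (hy : y ∈ spR B (A.NA : Set (Module.End ℚ A.H1))) : RLie.br x y = 0 := by
  induction hx using Submodule.span_induction with
  | mem x hx =>
    obtain ⟨X, hX, M, hM, rfl⟩ := hx
    induction hy using Submodule.span_induction with
    | mem y hy =>
      obtain ⟨Y, hY, M', hM', rfl⟩ := hy
      have h1 := hM'.br hM
      rw [← hX.2 Y hY, sub_self] at h1
      have h2 := Rel.zero.uniq h.li h1
      rw [RLie.br_apply, ← rq_mul, ← rq_mul, ← rq_sub, ← h2, rq_zero]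
    | zero => rw [map_zero]
    | add a b _ _ ha hb => rw [map_add, ha, hb, add_zero]
    | smul c a _ ha => rw [map_smul, ha, smul_zero]
  | zero => rw [LinearMap.map_zero₂]
  | add a b _ _ ha hb => rw [LinearMap.map_add₂, ha, hb, add_zero]
  | smul c a _ ha => rw [LinearMap.map_smul₂, ha, smul_zero]

/-- The data of the theorem on real Lie algebras. -/
theorem dat (h : Mot w B P) (hN : RelR B AbVar.JJ N)
    {Nc Nd : Matrix (Fin n) (Fin n) ℝ} (hNc : Nc ∈ spR B (cenA A : Set (Module.End ℚ A.H1)))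
    (hNd : Nd ∈ spR B (der A.NA : Set (Module.End ℚ A.H1))) (hNe : N = Nc + Nd) :
    RLie.Dat (spR B (der A.NA : Set (Module.End ℚ A.H1))) Nd := by
  have hle : spR B (der A.NA : Set (Module.End ℚ A.H1)) ≤
      spR B (A.NA : Set (Module.End ℚ A.H1)) := spR_mono der_NA_le
  have hN' : N ∈ spR B (A.NA : Set (Module.End ℚ A.H1)) := by
    rw [hNe]
    exact Submodule.add_mem _ (spR_mono cenA_le hNc) (hle hNd)
  have hbr : ∀ x ∈ spR B (A.NA : Set (Module.End ℚ A.H1)), ∀ y ∈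
      spR B (A.NA : Set (Module.End ℚ A.H1)), RLie.br x y ∈
      spR B (A.NA : Set (Module.End ℚ A.H1)) := spR_br fun X hX Y hY => A.NA_bracket hX hY
  have hNx : ∀ x ∈ spR B (A.NA : Set (Module.End ℚ A.H1)), RLie.br Nd x = RLie.br N x := by
    intro x hx
    rw [hNe, LinearMap.map_add₂, cenA_br h hNc hx, zero_add]
  have hpos : ∀ x ∈ spR B (der A.NA : Set (Module.End ℚ A.H1)), x ≠ 0 →
      ((x + (1 / 2 : ℝ) • RLie.br Nd (RLie.br Nd x)) * x).trace < 0 := by
    intro x hx hx0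
    obtain ⟨Y, hY, hadj⟩ := good_spR (hle hx)
    have h1 := hN.br hY
    have h2 := hN.br h1
    have h3 : RelR B (-th Y) (-(x + (1 / 2 : ℝ) • ((x * N - N * x) * N - N * (x * N - N * x)))) := by
      have h4 := (hY.add (h2.smul (1 / 2 : ℝ))).smul (-1 : ℝ)
      have e1 : ∀ Z : Module.End ℝ (Fin g → ℂ), (-1 : ℝ) • Z = -Z := fun Z =>
        LinearMap.ext fun u => by rw [LinearMap.smul_apply, neg_one_smul, LinearMap.neg_apply]
      have e2 : ∀ Z : Matrix (Fin n) (Fin n) ℝ, (-1 : ℝ) • Z = -Z := fun Z => by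
        ext i j
        rw [Matrix.smul_apply, Matrix.neg_apply, smul_eq_mul, neg_one_mul]
      rw [e1, e2] at h4
      exact h4
    have h5 := trace_pos h.li (gram_adj hadj hY h3) hx0
    rw [neg_mul, Matrix.trace_neg, neg_pos] at h5
    have h6 : RLie.br N (RLie.br N x) = (x * N - N * x) * N - N * (x * N - N * x) := by
      simp only [RLie.br_apply]
      noncomm_ring
    rw [hNx x (hle hx), hNx _ (hbr N hN' x (hle hx)), h6]
    exact h5
  have hdb : ∀ x ∈ spR B (der A.NA : Set (Module.End ℚ A.H1)), ∀ y ∈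
      spR B (der A.NA : Set (Module.End ℚ A.H1)), RLie.br x y ∈
      spR B (der A.NA : Set (Module.End ℚ A.H1)) := spR_br fun X hX Y hY =>
    Submodule.subset_span ⟨X, der_NA_le hX, Y, der_NA_le hY, rfl⟩
  refine ⟨hdb, hNd, ?_, hpos, ?_⟩
  · intro x hx
    rw [hNx x (hle hx), hNx _ (hbr N hN' x (hle hx)),
      hNx _ (hbr N hN' _ (hbr N hN' x (hle hx)))]
    obtain ⟨Y, hY, -⟩ := good_spR (hle hx)
    have h1 := hN.br hY
    have h2 := hN.br h1
    have h3 := hN.br h2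
    have h4 := h1.smul (-4 : ℝ)
    have h5 := JJ_cub Y
    rw [← h5] at h4
    have h6 := h3.uniq h.li h4
    simp only [RLie.br_apply]
    have e1 : N * x - x * N = -(x * N - N * x) := by rw [neg_sub]
    rw [e1]
    generalize x * N - N * x = m1 at *
    have e2 : N * (-m1) - (-m1) * N = m1 * N - N * m1 := by
      rw [mul_neg, neg_mul]
      abel
    rw [e2]
    generalize m1 * N - N * m1 = m2 at *
    rw [smul_neg, ← h6, neg_sub]
  · intro z hz hcz
    by_contra hz0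
    have h1 := hpos z hz hz0
    have h2 : RLie.br Nd z = 0 := by rw [RLie.br_anti, hcz Nd hNd, neg_zero]
    rw [h2, map_zero, smul_zero, add_zero] at h1
    have h3 : ∀ a ∈ spR B (A.NA : Set (Module.End ℚ A.H1)), RLie.br z a = 0 := by
      intro a ha
      obtain ⟨c, hc, d, hd, rfl⟩ := exists_dec h ha
      rw [map_add, hcz d hd, add_zero, RLie.br_anti, cenA_br h hc (hle hz), neg_zero]
    have h4 : ∀ y ∈ spR B (der A.NA : Set (Module.End ℚ A.H1)), (z * y).trace = 0 := by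
      intro y hy
      induction hy using Submodule.span_induction with
      | mem y hy =>
        obtain ⟨Y, hY, M, hM, rfl⟩ := hy
        induction hY using Submodule.span_induction generalizing M with
        | mem Y hY =>
          obtain ⟨X, hX, Y, hY, rfl⟩ := hY
          obtain ⟨M1, hM1⟩ := h.st X hX
          obtain ⟨M2, hM2⟩ := h.st Y hY
          rw [hM.uniq h.li (hM1.br hM2), rq_sub, rq_mul, rq_mul, ← RLie.br_apply, ← RLie.tr_br,
            h3 _ (mem_spR hY hM2), zero_mul, Matrix.trace_zero]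
        | zero => rw [hM.uniq h.li Rel.zero, rq_zero, mul_zero, Matrix.trace_zero]
        | add a b ha' hb' ha hb =>
          obtain ⟨M1, hM1⟩ := h.st a (der_NA_le ha')
          obtain ⟨M2, hM2⟩ := h.st b (der_NA_le hb')
          rw [hM.uniq h.li (hM1.add hM2), rq_add, mul_add, Matrix.trace_add, ha M1 hM1, hb M2 hM2,
            add_zero]
        | smul c a ha' ha =>
          obtain ⟨M1, hM1⟩ := h.st a (der_NA_le ha')
          rw [hM.uniq h.li (hM1.smul c), rq_smul, Matrix.mul_smul, Matrix.trace_smul, ha M1 hM1,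
            smul_zero]
      | zero => rw [mul_zero, Matrix.trace_zero]
      | add a b _ _ ha hb => rw [mul_add, Matrix.trace_add, ha, hb, add_zero]
      | smul c a _ ha => rw [Matrix.mul_smul, Matrix.trace_smul, ha, smul_zero]
    rw [h4 z hz] at h1
    exact lt_irrefl _ h1

/-- The derived algebra. -/
abbrev dq (B : Fin n → Ten A r) (Wt : Matrix (Fin n) (Fin n) ℚ)
    (H : Set (Matrix (Fin n) (Fin n) ℂ)) : Submodule ℚ (Module.End ℚ A.H1) := der (qM B Wt H)

/-- **The complex structure is in the Lie algebra of the group**, up to the centre. -/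
theorem N_mem (h : Mot w B P) (hW : WRel w B Wt) (hH : PtM P H)
    (hN : RelR B AbVar.JJ N) {Nc Nd : Matrix (Fin n) (Fin n) ℝ}
    (hNc : Nc ∈ spR B (cenA A : Set (Module.End ℚ A.H1)))
    (hNd : Nd ∈ spR B (der A.NA : Set (Module.End ℚ A.H1))) (hNe : N = Nc + Nd)
    (hdim : finrank ℝ ((spR B (A.NA : Set (Module.End ℚ A.H1))).map (RLie.br N)) ≤ 2) :
    Nd ∈ spR B (dq B Wt H : Set (Module.End ℚ A.H1)) := by
  have hq := qM_full h hW hH
  have hdN : dq B Wt H ≤ A.NA := fun Z hZ => (der_mem h hW hZ).1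
  have hdd : dq B Wt H ≤ der A.NA := by
    unfold dq der
    exact Submodule.span_mono fun _ ⟨X, hX, Y, hY, e⟩ => ⟨X, hq.le hX, Y, hq.le hY, e⟩
  have hdb : ∀ X ∈ dq B Wt H, ∀ Y ∈ dq B Wt H, X * Y - Y * X ∈ dq B Wt H := fun X hX Y hY =>
    Submodule.subset_span ⟨X, hq.der_le hX, Y, hq.der_le hY, rfl⟩
  have hle : spR B (der A.NA : Set (Module.End ℚ A.H1)) ≤
      spR B (A.NA : Set (Module.End ℚ A.H1)) := spR_mono der_NA_le
  refine (dat h hN hNc hNd hNe).main (spR_mono hdd) (spR_br hdb) ?_ ?_ ?_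
  · -- perfect
    rw [spR, Submodule.span_le]
    rintro _ ⟨Z, hZ, M, hM, rfl⟩
    have h1 := hq.perfect hZ
    have hder : ∀ c ∈ Submodule.span ℚ {Z | ∃ X ∈ dq B Wt H, ∃ Y ∈ dq B Wt H,
        Z = X * Y - Y * X}, c ∈ A.NA := by
      intro c hc
      refine (Submodule.span_le.2 ?_) hc
      rintro _ ⟨X, hX, Y, hY, rfl⟩
      exact A.NA_bracket (hdN hX) (hdN hY)
    clear hZ
    induction h1 using Submodule.span_induction generalizing M with
    | mem Z hZ =>
      obtain ⟨X, hX, Y, hY, rfl⟩ := hZ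
      obtain ⟨M1, hM1⟩ := h.st X (hdN hX)
      obtain ⟨M2, hM2⟩ := h.st Y (hdN hY)
      refine Submodule.subset_span ⟨rq M2, mem_spR hY hM2, rq M1, mem_spR hX hM1, ?_⟩
      rw [hM.uniq h.li (hM1.br hM2), rq_sub, rq_mul, rq_mul]
      rfl
    | zero =>
      rw [hM.uniq h.li Rel.zero, rq_zero]
      exact Submodule.zero_mem _
    | add a b ha' hb' ha hb =>
      obtain ⟨M1, hM1⟩ := h.st a (hder a ha')
      obtain ⟨M2, hM2⟩ := h.st b (hder b hb')
      rw [hM.uniq h.li (hM1.add hM2), rq_add]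
      exact Submodule.add_mem _ (ha M1 hM1) (hb M2 hM2)
    | smul c a ha' ha =>
      obtain ⟨M1, hM1⟩ := h.st a (hder a ha')
      rw [hM.uniq h.li (hM1.smul c), rq_smul]
      exact Submodule.smul_mem _ _ (ha M1 hM1)
  · -- generation
    intro t htm hti hte x hx z hz
    have hti' : ∀ y ∈ spR B (A.NA : Set (Module.End ℚ A.H1)), ∀ z ∈ t, RLie.br y z ∈ t := by
      intro y hy z hz
      obtain ⟨c, hc, d, hd, rfl⟩ := exists_dec h hy
      rw [LinearMap.map_add₂, cenA_br h hc (hle (htm hz)), zero_add]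
      exact hti d hd z hz
    let 𝔫 : Submodule ℚ (Module.End ℚ A.H1) :=
      { carrier := {X | X ∈ A.NA ∧ ∀ M, Rel B X M → ∀ z ∈ t, RLie.br (rq M) z = 0}
        zero_mem' := ⟨A.NA.zero_mem, fun M hM z _ => by
          rw [hM.uniq h.li Rel.zero, rq_zero, LinearMap.map_zero₂]⟩
        add_mem' := by
          rintro X Y ⟨hX, h1⟩ ⟨hY, h2⟩
          refine ⟨A.NA.add_mem hX hY, fun M hM z hz => ?_⟩
          obtain ⟨M1, hM1⟩ := h.st X hX
          obtain ⟨M2, hM2⟩ := h.st Y hY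
          rw [hM.uniq h.li (hM1.add hM2), rq_add, LinearMap.map_add₂, h1 M1 hM1 z hz,
            h2 M2 hM2 z hz, add_zero]
        smul_mem' := by
          rintro c X ⟨hX, h1⟩
          refine ⟨A.NA.smul_mem c hX, fun M hM z hz => ?_⟩
          obtain ⟨M1, hM1⟩ := h.st X hX
          rw [hM.uniq h.li (hM1.smul c), rq_smul, LinearMap.map_smul₂, h1 M1 hM1 z hz, smul_zero] }
    have h1 : ∀ X ∈ A.NA, ∀ Y ∈ A.NA, X * Y - Y * X ∈ 𝔫 := fun X hX Y hY => by
      refine der_le_of_ideal hq (𝔫 := 𝔫) ?_ (fun X hX => hX.1) ?_ hX hY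
      · rintro X hX Y ⟨hY, hYt⟩
        refine ⟨A.NA_bracket hX hY, fun M hM z hz => ?_⟩
        obtain ⟨M1, hM1⟩ := h.st X hX
        obtain ⟨M2, hM2⟩ := h.st Y hY
        rw [hM.uniq h.li (hM1.br hM2), rq_sub, rq_mul, rq_mul, ← RLie.br_apply]
        have e1 := RLie.jac (rq M2) (rq M1) z
        rw [hYt M2 hM2 _ (hti' _ (mem_spR hX hM1) z hz), hYt M2 hM2 z hz, map_zero, add_zero] at e1
        exact e1.symm
      · intro X hX Y hY
        have h2 : X * Y - Y * X ∈ dq B Wt H := Submodule.subset_span ⟨X, hX, Y, hY, rfl⟩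
        exact ⟨hdN h2, fun M hM z hz => hte _ (mem_spR h2 hM) z hz⟩
    have h3 : der A.NA ≤ 𝔫 := by
      unfold der
      rw [Submodule.span_le]
      rintro _ ⟨X, hX, Y, hY, rfl⟩
      exact h1 X hX Y hY
    induction hx using Submodule.span_induction with
    | mem x hx =>
      obtain ⟨X, hX, M, hM, rfl⟩ := hx
      exact (h3 hX).2 M hM z hz
    | zero => rw [LinearMap.map_zero₂]
    | add a b _ _ ha hb => rw [LinearMap.map_add₂, ha, hb, add_zero]
    | smul c a _ ha => rw [LinearMap.map_smul₂, ha, smul_zero]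
  · -- dimension
    refine le_trans ?_ hdim
    refine Submodule.finrank_mono ?_
    rintro _ ⟨x, hx, rfl⟩
    refine ⟨x, hle hx, ?_⟩
    rw [hNe, LinearMap.map_add₂, cenA_br h hNc (hle hx), zero_add]

theorem stab_spR (h : Mot w B P) (hW : WRel w B Wt) {M : Matrix (Fin n) (Fin n) ℝ}
    (hM : M ∈ spR B (dq B Wt H : Set (Module.End ℚ A.H1))) (d : ℕ) : Stab H d (cxm M) := by
  induction hM using Submodule.span_induction with
  | mem M hM =>
    obtain ⟨Z, hZ, Mq, hMq, rfl⟩ := hM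
    obtain ⟨-, M', h1, h2⟩ := der_mem h hW hZ
    rw [hMq.uniq h.li h1]
    have h3 : cxm (rq M') = cq M' := by
      ext i j
      simp [cxm]
    rw [h3]
    exact h2 d
  | zero =>
    have h3 : cxm (0 : Matrix (Fin n) (Fin n) ℝ) = 0 := by
      ext i j
      simp [cxm]
    rw [h3]
    exact Stab.zero
  | add a b _ _ ha hb =>
    have h3 : cxm (a + b) = cxm a + cxm b := by
      ext i j
      simp [cxm]
    rw [h3]
    exact ha.add hb
  | smul c a _ ha =>
    have h3 : cxm (c • a) = (c : ℂ) • cxm a := by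
      ext i j
      simp [cxm]
    rw [h3]
    exact ha.smul _

/-- The weights are in the Lie algebra of the group, if the centre acts trivially. -/
theorem Wt_mem (h : Mot w B P) (hW : WRel w B Wt) (hH : PtM P H) (hc : NoCentre B) :
    Wt ∈ LQ H := by
  obtain ⟨D, lam, hne⟩ := exists_der
  have hq := qM_full h hW hH
  have h0 : X0 A.basis tau D lam ∈ qM B Wt H := by
    have h0 : X0 A.basis tau D lam ∈ A.NA := A.LA_le_NA (by
      rw [AbVar.LA_eq]
      exact X0_mem A.basis AbVar.tau_ne D lam)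
    obtain ⟨N, hN⟩ := h.st _ h0
    exact ⟨h0, N, hN, _, log_mem h hH D lam hN hW⟩
  obtain ⟨Z, hZ, d, hd, hXd, hcomm⟩ := hq.dec h0
  obtain ⟨M0, hM0⟩ := h.st _ h0.1
  have h1 := log_mem h hH D lam hM0 hW
  have hZ0 : Rel B Z 0 := by
    have h2 := hq.comm Z fun X hX => (hcomm X hX).symm
    refine hc Z hZ.1 fun Y hY => ?_
    rw [h2 Y hY, sub_self]
    exact Rel.zero
  obtain ⟨-, M', hM', hM''⟩ := der_mem h hW hd
  have h3 : M0 ∈ LQ H := by
    rw [hXd] at hM0
    rw [hM0.uniq h.li (hZ0.add hM'), zero_add]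
    exact hM''
  have h4 := (LQ H).sub_mem h1 h3
  rw [add_sub_cancel_left] at h4
  have h5 := (LQ H).smul_mem (lam (D tau / (2 * tau)))⁻¹ h4
  rwa [smul_smul, inv_mul_cancel₀ hne, one_smul] at h5

/-- The rational matrices of the sum of the centre and the derived algebra of the group. -/
def cdM (B : Fin n → Ten A r) (Wt : Matrix (Fin n) (Fin n) ℚ)
    (H : Set (Matrix (Fin n) (Fin n) ℂ)) : Submodule ℚ (Matrix (Fin n) (Fin n) ℚ) where
  carrier := {M | ∃ Z ∈ cenA A, ∃ d ∈ dq B Wt H, ∃ M1 M2, Rel B Z M1 ∧ Rel B d M2 ∧ M = M1 + M2}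
  zero_mem' := ⟨0, (cenA A).zero_mem, 0, (dq B Wt H).zero_mem, 0, 0, Rel.zero, Rel.zero,
    (add_zero _).symm⟩
  add_mem' := by
    rintro _ _ ⟨Z, hZ, d, hd, M1, M2, h1, h2, rfl⟩ ⟨Z', hZ', d', hd', M1', M2', h1', h2', rfl⟩
    exact ⟨Z + Z', (cenA A).add_mem hZ hZ', d + d', (dq B Wt H).add_mem hd hd', M1 + M1',
      M2 + M2', h1.add h1', h2.add h2', by abel⟩
  smul_mem' := by
    rintro c _ ⟨Z, hZ, d, hd, M1, M2, h1, h2, rfl⟩
    exact ⟨c • Z, (cenA A).smul_mem c hZ, c • d, (dq B Wt H).smul_mem c hd, c • M1, c • M2,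
      h1.smul c, h2.smul c, smul_add _ _ _⟩

theorem cdM_br (h : Mot w B P) (hW : WRel w B Wt) (hH : PtM P H)
    {x y : Matrix (Fin n) (Fin n) ℚ} (hx : x ∈ cdM B Wt H) (hy : y ∈ cdM B Wt H) :
    ∃ d ∈ dq B Wt H, Rel B d (x * y - y * x) := by
  obtain ⟨Z, hZ, d, hd, M1, M2, h1, h2, rfl⟩ := hx
  obtain ⟨Z', hZ', d', hd', M1', M2', h1', h2', rfl⟩ := hy
  have hq := qM_full h hW hH
  have hdN : dq B Wt H ≤ A.NA := fun Z hZ => (der_mem h hW hZ).1
  have hcomm : ∀ {X Y : Module.End ℚ A.H1} {M M' : Matrix (Fin n) (Fin n) ℚ}, X * Y = Y * X →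
      Rel B X M → Rel B Y M' → M * M' = M' * M := by
    intro X Y M M' hXY hM hM'
    have e1 := hM'.br hM
    rw [hXY, sub_self] at e1
    exact sub_eq_zero.1 (Rel.zero.uniq h.li e1).symm
  refine ⟨d' * d - d * d', Submodule.subset_span ⟨d', hq.der_le hd', d, hq.der_le hd, rfl⟩, ?_⟩
  have e1 := hcomm (hZ.2 Z' hZ'.1) h1 h1'
  have e2 := hcomm (hZ.2 d' (hdN hd')) h1 h2'
  have e3 := hcomm (hZ'.2 d (hdN hd)) h1' h2
  have e4 : (M1 + M2) * (M1' + M2') - (M1' + M2') * (M1 + M2) = M2 * M2' - M2' * M2 := by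
    rw [add_mul, mul_add, mul_add, add_mul, mul_add, mul_add, e1, e2, ← e3]
    abel
  rw [e4]
  exact h2'.br h2

/-- **Main theorem**, without a condition on the centre: the derived algebra of the Lie algebra of
the Hodge group is in the Lie algebra of the group. -/
theorem main_der (h : Mot w B P) (hW : WRel w B Wt) (hH : PtM P H)
    (hN : RelR B AbVar.JJ N)
    (hdim : finrank ℝ ((spR B (A.NA : Set (Module.End ℚ A.H1))).map (RLie.br N)) ≤ 2) :
    ∃ L : Submodule ℚ (Matrix (Fin n) (Fin n) ℚ), (∀ x ∈ L, ∀ y ∈ L, x * y - y * x ∈ L) ∧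
      N ∈ Submodule.span ℝ {M | ∃ x ∈ L, M = rq x} ∧
      ∀ x ∈ L, ∀ y ∈ L, x * y - y * x ∈ LQ H := by
  obtain ⟨N', hN', t, X, M, h1, h2⟩ := exists_J h
  have h3 : N = N' := hN.uniq h.li hN'
  subst h3
  have h4 : N ∈ spR B (A.NA : Set (Module.End ℚ A.H1)) := by
    rw [h2]
    exact Submodule.sum_mem _ fun k _ => Submodule.smul_mem _ _ (mem_spR (h1 k).1 (h1 k).2)
  obtain ⟨Nc, hNc, Nd, hNd, hNe⟩ := exists_dec h h4
  have h5 := N_mem h hW hH hN hNc hNd hNe hdim
  refine ⟨cdM B Wt H, fun x hx y hy => ?_, ?_, fun x hx y hy => ?_⟩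
  · obtain ⟨d, hd, hd'⟩ := cdM_br h hW hH hx hy
    exact ⟨0, (cenA A).zero_mem, d, hd, 0, _, Rel.zero, hd', (zero_add _).symm⟩
  · rw [hNe]
    refine Submodule.add_mem _ ?_ ?_
    · refine Submodule.span_mono ?_ hNc
      rintro _ ⟨Z, hZ, M, hM, rfl⟩
      exact ⟨M, ⟨Z, hZ, 0, (dq B Wt H).zero_mem, M, 0, hM, Rel.zero, (add_zero _).symm⟩, rfl⟩
    · refine Submodule.span_mono ?_ h5
      rintro _ ⟨d, hd, M, hM, rfl⟩
      exact ⟨M, ⟨0, (cenA A).zero_mem, d, hd, 0, M, Rel.zero, hM, (zero_add _).symm⟩, rfl⟩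
  · obtain ⟨d, hd, hd'⟩ := cdM_br h hW hH hx hy
    obtain ⟨-, M', h6, h7⟩ := der_mem h hW hd
    rw [hd'.uniq h.li h6]
    exact h7

/-- **Main theorem.** -/
theorem main_B (h : Mot w B P) (hW : WRel w B Wt) (hH : PtM P H) (hc : NoCentre B)
    (hN : RelR B AbVar.JJ N)
    (hdim : finrank ℝ ((spR B (A.NA : Set (Module.End ℚ A.H1))).map (RLie.br N)) ≤ 2)
    {z : ℂ} (hz : z ≠ 0) : NormedSpace.exp (KK Wt N z) ∈ H ∧
      HRel w B z (NormedSpace.exp (KK Wt N z)) := by
  obtain ⟨N', hN', t, X, M, h1, h2⟩ := exists_J h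
  have h3 : N = N' := hN.uniq h.li hN'
  subst h3
  have h4 : N ∈ spR B (A.NA : Set (Module.End ℚ A.H1)) := by
    rw [h2]
    exact Submodule.sum_mem _ fun k _ => Submodule.smul_mem _ _ (mem_spR (h1 k).1 (h1 k).2)
  obtain ⟨Nc, hNc, Nd, hNd, hNe⟩ := exists_dec h h4
  have h5 := N_mem h hW hH hN hNc hNd hNe hdim
  have h6 : Nc = 0 := by
    clear hNe
    induction hNc using Submodule.span_induction with
    | mem x hx =>
      obtain ⟨Z, hZ, M, hM, rfl⟩ := hx
      have h7 : Rel B Z 0 := hc Z hZ.1 fun Y hY => by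
        rw [hZ.2 Y hY, sub_self]
        exact Rel.zero
      rw [hM.uniq h.li h7, rq_zero]
    | zero => rfl
    | add a b _ _ ha hb => rw [ha, hb, add_zero]
    | smul c a _ ha => rw [ha, smul_zero]
  rw [h6, zero_add] at hNe
  rw [← hNe] at h5
  refine ⟨exp_mem hH.grp fun d => ?_, hrel_exp hW hN hz⟩
  unfold KK
  exact ((Wt_mem h hW hH hc d).smul _).add ((stab_spR h hW h5 d).smul _)

/-- If there is no factor of type IV the centre acts trivially. -/
theorem noCentre_of_NT4 (h : Mot w B P) (hA : NT4 A) : NoCentre B := by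
  intro X hX hcomm
  obtain ⟨N, hN, t, X', M', h1, h2⟩ := exists_J h
  have h4 : N ∈ spR B (A.NA : Set (Module.End ℚ A.H1)) := by
    rw [h2]
    exact Submodule.sum_mem _ fun k _ => Submodule.smul_mem _ _ (mem_spR (h1 k).1 (h1 k).2)
  obtain ⟨Nc, hNc, Nd, hNd, hNe⟩ := exists_dec h h4
  obtain ⟨M, hM⟩ := h.st X hX
  have h5 := (dat h hN hNc hNd hNe).cen (rq M) (mem_spR (NA_le_der hA hX) hM) fun x hx => by
    induction hx using Submodule.span_induction with
    | mem x hx =>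
      obtain ⟨Y, hY, M2, hM2, rfl⟩ := hx
      have h6 := (hM.br hM2).uniq h.li (hcomm Y (der_NA_le hY))
      rw [RLie.br_anti, RLie.br_apply, ← rq_mul, ← rq_mul, ← rq_sub, h6, rq_zero, neg_zero]
    | zero => rw [map_zero]
    | add a b _ _ ha hb => rw [map_add, ha, hb, add_zero]
    | smul c a _ ha => rw [map_smul, ha, smul_zero]
  have h6 : M = 0 := by
    ext i j
    have h7 := congrFun (congrFun h5 i) j
    change ((M i j : ℚ) : ℝ) = 0 at h7
    exact_mod_cast h7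
  rw [h6] at hM
  exact hM

end Pool.Agent.N208.AM
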