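import Pool.Agent.N208.AM.Act

set_option autoImplicit false
set_option linter.unusedSectionVars false

/-!
# The Lie algebra of a group which contains the periods of a motive
-/

open Module Function TensorProduct Matrix

noncomputable section

namespace Pool.Agent.N208.AM

open Pool.Agent.Y102 Pool.Agent.W516.DR Pool.Agent.H204R3.GP Pool.Agent.W516.KC
  Pool.Agent.H204R3.SP Pool.Agent.TH119.MX Pool.Agent.R917

variable {g : ℕ} {A : AbVar g} {s n : ℕ} {r : Fin s → ℕ} {B : Fin n → Ten A r} {w : Fin s → ℤ}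
  {P : Matrix (Fin n) (Fin n) ℂ} {H : Set (Matrix (Fin n) (Fin n) ℂ)}

/-- The coordinates of the logarithmic derivative. -/
def qc (A : AbVar g) (D : Derivation QBar ℂ ℂ) (v : A.H1) (m : Fin (2 * g)) : ℂ :=
  (A.bas.baseChange ℂ).repr (XX A.basis D ((1 : ℂ) ⊗ₜ[ℚ] v)) m

theorem XX_qc (D : Derivation QBar ℂ ℂ) (v : A.H1) :
    XX A.basis D ((1 : ℂ) ⊗ₜ[ℚ] v) = ∑ m, qc A D v m ⊗ₜ[ℚ] A.bas m := by
  conv_lhs => rw [← (A.bas.baseChange ℂ).sum_repr (XX A.basis D ((1 : ℂ) ⊗ₜ[ℚ] v))]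
  refine Finset.sum_congr rfl fun m _ => ?_
  rw [Basis.baseChange_apply, smul_tmul', smul_eq_mul, mul_one]
  rfl

theorem der_qc (D : Derivation QBar ℂ ℂ) (j : Fin g ⊕ Fin g) (v : A.H1) :
    D (A.dR j v) = ∑ m, qc A D v m * A.dR j (A.bas m) := by
  rw [der_dR, XX_qc, map_sum]
  refine Finset.sum_congr rfl fun m _ => ?_
  rw [etaL_tmul, A.coe_basis]

theorem cmpE_qc (D : Derivation QBar ℂ ℂ) (lam : ℂ →ₗ[ℚ] ℚ) (v : A.H1) :
    Pool.Agent.W516.DR.cmpE lam (XX A.basis D) v = ∑ m, lam (qc A D v m) • A.bas m := by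
  rw [Pool.Agent.W516.DR.cmpE_apply, XX_qc, map_sum]
  exact Finset.sum_congr rfl fun m _ => cmp_tmul lam _ _

theorem der_zpow (D : Derivation QBar ℂ ℂ) (k : ℤ) :
    D (tau ^ k) = tau ^ k * (k * (D tau / tau)) := by
  have h0 := AbVar.tau_ne
  rw [Derivation.leibniz_zpow, zpow_sub_one₀ h0]
  simp only [smul_eq_mul, zsmul_eq_mul]
  field_simp

/-- The components of the logarithmic derivative of the period matrix of a motive. -/
theorem lam_log (h : Mot w B P) {P' : Matrix (Fin n) (Fin n) ℂ} (h1 : P * P' = 1)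
    (D : Derivation QBar ℂ ℂ) (lam : ℂ →ₗ[ℚ] ℚ) {M Wt : Matrix (Fin n) (Fin n) ℚ}
    (hM : Rel B (X0 A.basis tau D lam) M) (hW : WRel w B Wt) (b c : Fin n) :
    lam ((P.map D * P') b c) = M b c + lam (D tau / (2 * tau)) * Wt b c := by
  obtain ⟨cf, hcf, hdR⟩ := h.dR
  have h0 := AbVar.tau_ne
  set Q := P.map D * P' with hQ
  obtain ⟨l, hl⟩ : ∃ l, l = lam (D tau / (2 * tau)) := ⟨_, rfl⟩
  rw [← hl]
  refine congrFun (eq_of_comb h.li (x := fun b => lam (Q b c))
    (y := fun b => M b c + l * Wt b c) fun i => ?_) b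
  refine MultilinearMap.ext fun v => ?_
  let T : Fin n → ℂ := fun b => ∑ k, ∑ m, qc A D (v k) m *
    ((B b i (update v k (A.bas m)) : ℚ) : ℂ)
  have e1 : ∀ a, w i * (D tau / tau) * ∑ b, P b a * (B b i v : ℂ) +
      ∑ b, D (P b a) * (B b i v : ℂ) = ∑ b, P b a * T b := by
    intro a
    have h2 := der_sum D (hcf a i) (φ := fun b => B b i) (hdR a i) (qc A D)
      (fun j v => der_qc D j v) v
    rw [der_zpow] at h2
    have h3 : (tau : ℂ) ^ (w i) ≠ 0 := zpow_ne_zero _ h0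
    refine mul_left_cancel₀ h3 ?_
    linear_combination h2
  have e2 : w i * (D tau / tau) * (B c i v : ℂ) + ∑ b, Q b c * (B b i v : ℂ) = T c := by
    have h2 : ∑ a, P' a c * (w i * (D tau / tau) * ∑ b, P b a * (B b i v : ℂ) +
        ∑ b, D (P b a) * (B b i v : ℂ)) = ∑ a, P' a c * ∑ b, P b a * T b :=
      Finset.sum_congr rfl fun a _ => by rw [e1]
    have h3 : ∀ x : Fin n → ℂ, ∑ a, P' a c * ∑ b, P b a * x b = x c := by
      intro x
      simp only [Finset.mul_sum]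
      rw [Finset.sum_comm]
      have h4 : ∀ b, ∑ a, P' a c * (P b a * x b) = (1 : Matrix (Fin n) (Fin n) ℂ) b c * x b := by
        intro b
        rw [← h1, Matrix.mul_apply, Finset.sum_mul]
        exact Finset.sum_congr rfl fun a _ => by ring
      rw [Finset.sum_congr rfl fun b _ => h4 b, Finset.sum_eq_single c]
      · rw [Matrix.one_apply_eq, one_mul]
      · intro b _ hb
        rw [Matrix.one_apply_ne hb, zero_mul]
      · intro hc
        exact absurd (Finset.mem_univ _) hc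
    rw [h3] at h2
    rw [← h2]
    simp only [mul_add, Finset.sum_add_distrib]
    congr 1
    · have h5 := h3 fun b => w i * (D tau / tau) * (B b i v : ℂ)
      rw [← h5]
      refine Finset.sum_congr rfl fun a _ => ?_
      congr 1
      rw [Finset.mul_sum]
      exact Finset.sum_congr rfl fun b _ => by ring
    · simp only [Finset.mul_sum]
      rw [Finset.sum_comm]
      refine Finset.sum_congr rfl fun b _ => ?_
      rw [hQ, Matrix.mul_apply, Finset.sum_mul]
      refine Finset.sum_congr rfl fun a _ => ?_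
      rw [Matrix.map_apply]
      ring
  -- apply `lam`
  have hlq : ∀ (x : ℂ) (q : ℚ), lam (x * (q : ℂ)) = lam x * q := by
    intro x q
    have h2 : x * (q : ℂ) = q • x := by rw [Rat.smul_def, mul_comm]
    rw [h2, map_smul, smul_eq_mul, mul_comm]
  have e3 := congrArg lam e2
  rw [map_add, hlq, map_sum] at e3
  simp only [hlq] at e3
  have e4 : lam (T c) = dact (Pool.Agent.W516.DR.cmpE lam (XX A.basis D)) (B c i) v := by
    simp only [T]
    rw [map_sum, dact_apply]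
    refine Finset.sum_congr rfl fun k _ => ?_
    rw [map_sum, cmpE_qc, MultilinearMap.map_update_sum]
    refine Finset.sum_congr rfl fun m _ => ?_
    rw [hlq, MultilinearMap.map_update_smul, smul_eq_mul]
  have e5 : lam (w i * (D tau / tau)) = 2 * w i * lam (D tau / (2 * tau)) := by
    have h2 : (w i : ℂ) * (D tau / tau) = (D tau / (2 * tau)) * ((2 * w i : ℚ) : ℂ) := by
      push_cast
      field_simp
    rw [h2, hlq]
    ring
  rw [e4, e5, ← X0_eq D lam, dact_add, dact_smul, dact_one, hM c i, Fintype.card_fin, ← hl] at e3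
  have e6 := hW c i
  have e7 := congrArg (fun φ : MultilinearMap ℚ (fun _ : Fin (r i) => A.H1) ℚ => φ v) e6
  simp only [_root_.smul_apply, _root_.sum_apply, smul_eq_mul] at e7
  simp only [_root_.add_apply, _root_.smul_apply, _root_.sum_apply, smul_eq_mul] at e3 ⊢
  simp only [add_mul, Finset.sum_add_distrib, mul_assoc, ← Finset.mul_sum, ← e7]
  linear_combination e3

/-- The group contains a point of the torsor of periods of the motive. -/
structure PtM (P : Matrix (Fin n) (Fin n) ℂ) (H : Set (Matrix (Fin n) (Fin n) ℂ)) : Prop where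
  grp : AlgGrp QQ H
  pt : ∃ T T' : Matrix (Fin n) (Fin n) ℂ, T * T' = 1 ∧ (∀ i j, T' i j ∈ QA) ∧ P * T ∈ H

theorem log_mem (h : Mot w B P) (hH : PtM P H) (D : Derivation QBar ℂ ℂ) (lam : ℂ →ₗ[ℚ] ℚ)
    {M Wt : Matrix (Fin n) (Fin n) ℚ} (hM : Rel B (X0 A.basis tau D lam) M) (hW : WRel w B Wt) :
    M + lam (D tau / (2 * tau)) • Wt ∈ LQ H := by
  intro d
  have hu : IsUnit P.det := isUnit_iff_ne_zero.2 h.det
  have h1 := Matrix.mul_nonsing_inv _ hu
  have h2 := Matrix.nonsing_inv_mul _ hu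
  obtain ⟨T, T', h3, h4, h5⟩ := hH.pt
  have h6 := hH.grp.stab_der QQ_le_QA (fun x hx => mem_QA.1 hx) h1 h2 h3 h4 h5 (derQ D) (d := d)
  have h7 := hH.grp.stab_map (lamF lam) h6
  have h8 : (P.map (derQ D) * P⁻¹).map (lamF lam) =
      (M + lam (D tau / (2 * tau)) • Wt).map fun q => (q : ℂ) := by
    ext b c
    rw [Matrix.map_apply, Matrix.map_apply, lamF_apply]
    have h9 := lam_log h h1 D lam hM hW b c
    have h10 : P.map (derQ D) = P.map D := rfl
    rw [h10, h9, Matrix.add_apply, Matrix.smul_apply, smul_eq_mul]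
  rwa [h8] at h7

/-- The elements of the Lie algebra whose action on the motive is in the Lie algebra of the group,
up to a multiple of the weight. -/
def qM (B : Fin n → Ten A r) (Wt : Matrix (Fin n) (Fin n) ℚ)
    (H : Set (Matrix (Fin n) (Fin n) ℂ)) : Submodule ℚ (Module.End ℚ A.H1) where
  carrier := {X | X ∈ A.NA ∧ ∃ M, Rel B X M ∧ ∃ c : ℚ, M + c • Wt ∈ LQ H}
  zero_mem' := ⟨A.NA.zero_mem, 0, Rel.zero, 0, by
    rw [zero_smul, add_zero]
    exact (LQ H).zero_mem⟩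
  add_mem' := by
    rintro X Y ⟨hX, M, hM, c, hc⟩ ⟨hY, N, hN, d, hd⟩
    refine ⟨A.NA.add_mem hX hY, M + N, hM.add hN, c + d, ?_⟩
    have h1 := (LQ H).add_mem hc hd
    rw [add_smul]
    convert h1 using 1
    abel
  smul_mem' := by
    rintro a X ⟨hX, M, hM, c, hc⟩
    refine ⟨A.NA.smul_mem a hX, a • M, hM.smul a, a * c, ?_⟩
    have h1 := (LQ H).smul_mem a hc
    rwa [smul_add, smul_smul] at h1

variable {Wt : Matrix (Fin n) (Fin n) ℚ}

/-- The brackets are in the Lie algebra of the group. -/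
theorem qM_br (h : Mot w B P) (hW : WRel w B Wt) {X Y : Module.End ℚ A.H1}
    (hX : X ∈ qM B Wt H) (hY : Y ∈ qM B Wt H) {N : Matrix (Fin n) (Fin n) ℚ}
    (hN : Rel B (X * Y - Y * X) N) : N ∈ LQ H := by
  obtain ⟨hX, M, hM, c, hc⟩ := hX
  obtain ⟨hY, M', hM', d, hd⟩ := hY
  have h1 := LQ_br hd hc
  have h2 : (M' + d • Wt) * (M + c • Wt) - (M + c • Wt) * (M' + d • Wt) = M' * M - M * M' := by
    have e1 := WRel.comm h.li hM hW
    have e2 := WRel.comm h.li hM' hW
    rw [add_mul, mul_add, mul_add, add_mul, mul_add, mul_add]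
    simp only [smul_mul_assoc, mul_smul_comm, e1, e2, smul_smul]
    rw [mul_comm c d]
    abel
  rw [h2, ← Rel.uniq h.li hN (hM.br hM')] at h1
  exact h1

/-- The subalgebra is full. -/
theorem qM_full (h : Mot w B P) (hW : WRel w B Wt) (hH : PtM P H) : A.Full (qM B Wt H) := by
  refine full_of_X0 A (fun X hX => hX.1) (fun X hX Y hY => ?_) fun D lam => ?_
  · obtain ⟨N, hN⟩ := h.st _ (A.NA_bracket hX.1 hY.1)
    refine ⟨A.NA_bracket hX.1 hY.1, N, hN, 0, ?_⟩
    rw [zero_smul, add_zero]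
    exact qM_br h hW hX hY hN
  · have h0 : X0 A.basis tau D lam ∈ A.NA := A.LA_le_NA (by
      rw [AbVar.LA_eq]
      exact X0_mem A.basis AbVar.tau_ne D lam)
    obtain ⟨N, hN⟩ := h.st _ h0
    exact ⟨h0, N, hN, _, log_mem h hH D lam hN hW⟩

/-- **The ideal generated by the derived algebra of a full subalgebra** contains the derived
algebra. -/
theorem der_le_of_ideal {𝔮 𝔫 : Submodule ℚ (Module.End ℚ A.H1)} (hq : A.Full 𝔮)
    (hn : ∀ X ∈ A.NA, ∀ Y ∈ 𝔫, X * Y - Y * X ∈ 𝔫) (hnN : 𝔫 ≤ A.NA)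
    (hqn : ∀ X ∈ 𝔮, ∀ Y ∈ 𝔮, X * Y - Y * X ∈ 𝔫) {X Y : Module.End ℚ A.H1} (hX : X ∈ A.NA)
    (hY : Y ∈ A.NA) : X * Y - Y * X ∈ 𝔫 := by
  by_contra hcon
  obtain ⟨f, hf1, hf2⟩ := Submodule.exists_dual_map_eq_bot_of_notMem hcon inferInstance
  let f' : Module.Dual ℚ A.NA := f.comp A.NA.subtype
  let U := (Pool.Agent.W516.KC2.trE A.NA A.trace_NA).symm f'
  have hU : ∀ X : A.NA, LinearMap.trace ℚ A.H1 (U.1 * X.1) = f X.1 := fun X =>
    Pool.Agent.W516.KC2.trE_symm A.NA A.trace_NA f' X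
  have hf0 : ∀ X ∈ 𝔫, f X = 0 := by
    intro X hX
    have h3 : f X ∈ Submodule.map f 𝔫 := Submodule.mem_map_of_mem hX
    rwa [hf2, Submodule.mem_bot] at h3
  have htr : ∀ a b c : Module.End ℚ A.H1, LinearMap.trace ℚ A.H1 ((a * b - b * a) * c) =
      LinearMap.trace ℚ A.H1 (a * (b * c - c * b)) := by
    intro a b c
    rw [sub_mul, mul_sub, map_sub, map_sub, mul_assoc a b c, mul_assoc b a c,
      LinearMap.trace_mul_comm ℚ b (a * c), mul_assoc a c b]
  -- `U` commutes with `𝔫`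
  have h1 : ∀ N ∈ 𝔫, U.1 * N = N * U.1 := by
    intro N hN
    rw [← sub_eq_zero]
    refine A.trace_NA _ (A.NA_bracket U.2 (hnN hN)) fun X hX => ?_
    rw [htr]
    have h2 : N * X - X * N ∈ 𝔫 := by
      have h3 := 𝔫.neg_mem (hn X hX N hN)
      rwa [neg_sub] at h3
    have h3 := hU ⟨_, hnN h2⟩
    rw [h3]
    exact hf0 _ h2
  -- `U` commutes with `𝔮`
  have h2 : ∀ Z ∈ 𝔮, Z * U.1 = U.1 * Z := by
    intro Z hZ
    obtain ⟨C, hC, d, hd, rfl, hCc⟩ := hq.dec hZ
    have e1 : C * U.1 = U.1 * C := by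
      have h3 := hq.comm C (fun X hX => (hCc X hX).symm) U.1 U.2
      exact h3.symm
    have e2 : d * U.1 = U.1 * d := by
      have h3 : d ∈ 𝔫 := by
        have h4 : der 𝔮 ≤ 𝔫 := by
          unfold der
          rw [Submodule.span_le]
          rintro _ ⟨X, hX, Y, hY, rfl⟩
          exact hqn X hX Y hY
        exact h4 hd
      exact (h1 d h3).symm
    rw [add_mul, mul_add, e1, e2]
  have h3 := hq.comm U.1 h2
  -- contradiction
  apply hf1
  have h4 := hU ⟨_, A.NA_bracket hX hY⟩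
  rw [← h4]
  change LinearMap.trace ℚ A.H1 (U.1 * (X * Y - Y * X)) = 0
  rw [← htr, h3 X hX, sub_self, zero_mul, map_zero]

/-- The elements of the Lie algebra which act trivially on the motive. -/
def kerM (B : Fin n → Ten A r) : Submodule ℚ (Module.End ℚ A.H1) where
  carrier := {X | X ∈ A.NA ∧ Rel B X 0}
  zero_mem' := ⟨A.NA.zero_mem, Rel.zero⟩
  add_mem' := by
    rintro X Y ⟨hX, hX'⟩ ⟨hY, hY'⟩
    refine ⟨A.NA.add_mem hX hY, ?_⟩
    have h := hX'.add hY'
    rwa [add_zero] at h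
  smul_mem' := by
    rintro a X ⟨hX, hX'⟩
    refine ⟨A.NA.smul_mem a hX, ?_⟩
    have h := hX'.smul a
    rwa [smul_zero] at h

theorem kerM_ideal (h : Mot w B P) : ∀ X ∈ A.NA, ∀ Y ∈ kerM B, X * Y - Y * X ∈ kerM B := by
  rintro X hX Y ⟨hY, hY'⟩
  obtain ⟨M, hM⟩ := h.st X hX
  refine ⟨A.NA_bracket hX hY, ?_⟩
  have h1 := hM.br hY'
  rwa [zero_mul, mul_zero, sub_zero] at h1

end Pool.Agent.N208.AM
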