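import Pool.Agent.R917.ExpGrp

set_option autoImplicit false
set_option linter.unusedSectionVars false

/-!
# Zariski closures of subgroups of the general linear group
-/

open Matrix Finset

namespace Pool.Agent.N208.AM

open scoped commutatorElement

open Pool.Agent.TH119.MX

variable {B : Type} [Fintype B] [DecidableEq B]

/-- The coordinate ring of the general linear group. -/
noncomputable def RR (B : Type) [Fintype B] [DecidableEq B] : Subalgebra ℂ (GL B ℂ → ℂ) :=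
  Algebra.adjoin ℂ ({f | ∃ i j, f = fun x : GL B ℂ => (x : Matrix B B ℂ) i j} ∪
    {f | ∃ i j, f = fun x : GL B ℂ => ((x⁻¹ : GL B ℂ) : Matrix B B ℂ) i j})

theorem ent_mem (i j : B) : (fun x : GL B ℂ => (x : Matrix B B ℂ) i j) ∈ RR B :=
  Algebra.subset_adjoin (Or.inl ⟨i, j, rfl⟩)

theorem inv_mem' (i j : B) : (fun x : GL B ℂ => ((x⁻¹ : GL B ℂ) : Matrix B B ℂ) i j) ∈ RR B :=
  Algebra.subset_adjoin (Or.inr ⟨i, j, rfl⟩)

/-- The regular maps from the general linear group to itself. -/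
def WW (B : Type) [Fintype B] [DecidableEq B] : Subgroup (GL B ℂ → GL B ℂ) where
  carrier := {φ | (∀ i j, (fun x => ((φ x : GL B ℂ) : Matrix B B ℂ) i j) ∈ RR B) ∧
    ∀ i j, (fun x => (((φ x)⁻¹ : GL B ℂ) : Matrix B B ℂ) i j) ∈ RR B}
  one_mem' := by
    constructor
    · intro i j
      exact (RR B).algebraMap_mem ((1 : Matrix B B ℂ) i j)
    · intro i j
      have h : (fun x : GL B ℂ => ((((1 : GL B ℂ → GL B ℂ) x)⁻¹ : GL B ℂ) : Matrix B B ℂ) i j) =
          algebraMap ℂ (GL B ℂ → ℂ) ((1 : Matrix B B ℂ) i j) := by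
        funext x
        simp
      rw [h]
      exact (RR B).algebraMap_mem _
  mul_mem' := by
    rintro φ ψ ⟨h1, h2⟩ ⟨h3, h4⟩
    constructor
    · intro i j
      have h : (fun x : GL B ℂ => (((φ * ψ) x : GL B ℂ) : Matrix B B ℂ) i j) =
          ∑ k, (fun x => ((φ x : GL B ℂ) : Matrix B B ℂ) i k) *
            (fun x => ((ψ x : GL B ℂ) : Matrix B B ℂ) k j) := by
        funext x
        rw [Finset.sum_apply, Pi.mul_apply, Units.val_mul, Matrix.mul_apply]
        rfl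
      rw [h]
      exact Subalgebra.sum_mem _ fun k _ => Subalgebra.mul_mem _ (h1 i k) (h3 k j)
    · intro i j
      have h : (fun x : GL B ℂ => ((((φ * ψ) x)⁻¹ : GL B ℂ) : Matrix B B ℂ) i j) =
          ∑ k, (fun x => (((ψ x)⁻¹ : GL B ℂ) : Matrix B B ℂ) i k) *
            (fun x => (((φ x)⁻¹ : GL B ℂ) : Matrix B B ℂ) k j) := by
        funext x
        rw [Finset.sum_apply, Pi.mul_apply, _root_.mul_inv_rev, Units.val_mul, Matrix.mul_apply]
        rfl
      rw [h]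
      exact Subalgebra.sum_mem _ fun k _ => Subalgebra.mul_mem _ (h4 i k) (h2 k j)
  inv_mem' := by
    rintro φ ⟨h1, h2⟩
    refine ⟨h2, fun i j => ?_⟩
    have h : (fun x : GL B ℂ => ((((φ⁻¹) x)⁻¹ : GL B ℂ) : Matrix B B ℂ) i j) =
        fun x => ((φ x : GL B ℂ) : Matrix B B ℂ) i j := by
      funext x
      rw [Pi.inv_apply, inv_inv]
    rw [h]
    exact h1 i j

theorem id_mem : (fun x : GL B ℂ => x) ∈ WW B := ⟨ent_mem, inv_mem'⟩

theorem const_mem (a : GL B ℂ) : (fun _ : GL B ℂ => a) ∈ WW B :=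
  ⟨fun i j => (RR B).algebraMap_mem ((a : Matrix B B ℂ) i j),
    fun i j => (RR B).algebraMap_mem (((a⁻¹ : GL B ℂ) : Matrix B B ℂ) i j)⟩

/-- Composition with regular maps. -/
theorem comp_mem {φ : GL B ℂ → GL B ℂ} (hφ : φ ∈ WW B) {f : GL B ℂ → ℂ} (hf : f ∈ RR B) :
    (fun x => f (φ x)) ∈ RR B := by
  unfold RR at hf
  induction hf using Algebra.adjoin_induction with
  | mem f h =>
    rcases h with ⟨i, j, rfl⟩ | ⟨i, j, rfl⟩
    · exact hφ.1 i j
    · exact hφ.2 i j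
  | algebraMap c => exact (RR B).algebraMap_mem c
  | add a b _ _ ha hb => exact Subalgebra.add_mem _ ha hb
  | mul a b _ _ ha hb => exact Subalgebra.mul_mem _ ha hb

/-- The Zariski closure. -/
def cl (K : Set (GL B ℂ)) : Set (GL B ℂ) := {x | ∀ f ∈ RR B, (∀ h ∈ K, f h = 0) → f x = 0}

theorem subset_cl (K : Set (GL B ℂ)) : K ⊆ cl K := fun x hx _ _ h => h x hx

theorem cl_map {φ : GL B ℂ → GL B ℂ} (hφ : φ ∈ WW B) {K K' : Set (GL B ℂ)}
    (h : ∀ x ∈ K, φ x ∈ cl K') {x : GL B ℂ} (hx : x ∈ cl K) : φ x ∈ cl K' := by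
  intro f hf hf0
  exact hx (fun x => f (φ x)) (comp_mem hφ hf) fun y hy => h y hy f hf hf0

/-- Products and commutators. -/
theorem cl_map₂ {φ : GL B ℂ → GL B ℂ → GL B ℂ} (h1 : ∀ y, (fun x => φ x y) ∈ WW B)
    (h2 : ∀ x, (fun y => φ x y) ∈ WW B) {K K' K'' : Set (GL B ℂ)}
    (h : ∀ x ∈ K, ∀ y ∈ K', φ x y ∈ K'') {x y : GL B ℂ} (hx : x ∈ cl K) (hy : y ∈ cl K') :
    φ x y ∈ cl K'' :=
  cl_map (h1 y) (fun x' hx' => cl_map (h2 x') (fun y' hy' => subset_cl _ (h x' hx' y' hy')) hy) hx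

theorem cl_mul {K : Subgroup (GL B ℂ)} {x y : GL B ℂ} (hx : x ∈ cl (K : Set (GL B ℂ)))
    (hy : y ∈ cl (K : Set (GL B ℂ))) : x * y ∈ cl (K : Set (GL B ℂ)) :=
  cl_map₂ (φ := fun x y => x * y) (fun y => mul_mem id_mem (const_mem y))
    (fun x => mul_mem (const_mem x) id_mem) (fun _ hx _ hy => K.mul_mem hx hy) hx hy

theorem cl_inv {K : Subgroup (GL B ℂ)} {x : GL B ℂ} (hx : x ∈ cl (K : Set (GL B ℂ))) :
    x⁻¹ ∈ cl (K : Set (GL B ℂ)) :=
  cl_map (φ := fun x => x⁻¹) (inv_mem id_mem) (fun _ hx => subset_cl _ (K.inv_mem hx)) hx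

theorem cl_comm {K : Subgroup (GL B ℂ)} {x y : GL B ℂ} (hx : x ∈ cl (K : Set (GL B ℂ)))
    (hy : y ∈ cl (K : Set (GL B ℂ))) : ⁅x, y⁆ ∈ cl ((⁅K, K⁆ : Subgroup (GL B ℂ)) : Set (GL B ℂ)) :=
  cl_map₂ (φ := fun x y => ⁅x, y⁆)
    (fun y => mul_mem (mul_mem (mul_mem id_mem (const_mem y)) (inv_mem id_mem)) (const_mem y⁻¹))
    (fun x => mul_mem (mul_mem (mul_mem (const_mem x) id_mem) (const_mem x⁻¹)) (inv_mem id_mem))
    (fun _ hx _ hy => Subgroup.commutator_mem_commutator hx hy) hx hy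

/-- Regular functions are quotients of polynomials and powers of the determinant. -/
theorem exists_poly {f : GL B ℂ → ℂ} (hf : f ∈ RR B) : ∃ (d : ℕ) (p : MvPolynomial (B × B) ℂ),
    ∀ x : GL B ℂ, MvPolynomial.eval (fun b : B × B => (x : Matrix B B ℂ) b.1 b.2) p =
      (x : Matrix B B ℂ).det ^ d * f x := by
  have hdet : ∃ q : MvPolynomial (B × B) ℂ, ∀ x : Matrix B B ℂ,
      MvPolynomial.eval (fun b : B × B => x b.1 b.2) q = x.det := by
    refine ⟨(Matrix.of fun i j => (MvPolynomial.X (i, j) : MvPolynomial (B × B) ℂ)).det,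
      fun x => ?_⟩
    rw [RingHom.map_det]
    congr 1
    ext i j
    simp
  obtain ⟨q, hq⟩ := hdet
  have hadj : ∀ i j, ∃ q : MvPolynomial (B × B) ℂ, ∀ x : Matrix B B ℂ,
      MvPolynomial.eval (fun b : B × B => x b.1 b.2) q = x.adjugate i j := by
    intro i j
    refine ⟨(Matrix.of fun i j => (MvPolynomial.X (i, j) : MvPolynomial (B × B) ℂ)).adjugate i j,
      fun x => ?_⟩
    have h1 := RingHom.map_adjugate (MvPolynomial.eval (fun b : B × B => x b.1 b.2))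
      (Matrix.of fun i j => (MvPolynomial.X (i, j) : MvPolynomial (B × B) ℂ))
    have h2 : (MvPolynomial.eval (fun b : B × B => x b.1 b.2)).mapMatrix
        (Matrix.of fun i j => (MvPolynomial.X (i, j) : MvPolynomial (B × B) ℂ)) = x := by
      ext i j
      simp
    rw [h2] at h1
    rw [← h1]
    rfl
  unfold RR at hf
  induction hf using Algebra.adjoin_induction with
  | mem f h =>
    rcases h with ⟨i, j, rfl⟩ | ⟨i, j, rfl⟩
    · exact ⟨0, MvPolynomial.X (i, j), fun x => by simp⟩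
    · obtain ⟨p, hp⟩ := hadj i j
      refine ⟨1, p, fun x => ?_⟩
      rw [hp, pow_one]
      change _ = _ * ((x⁻¹ : GL B ℂ) : Matrix B B ℂ) i j
      have h3 : (x : Matrix B B ℂ).det ≠ 0 := (Matrix.GeneralLinearGroup.det x).ne_zero
      have h4 : ((x⁻¹ : GL B ℂ) : Matrix B B ℂ) = (x : Matrix B B ℂ)⁻¹ :=
        Matrix.coe_units_inv x
      rw [h4, Matrix.inv_def, Matrix.smul_apply, smul_eq_mul, Ring.inverse_eq_inv',
        mul_inv_cancel_left₀ h3]
  | algebraMap c => exact ⟨0, MvPolynomial.C c, fun x => by simp⟩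
  | add a b _ _ ha hb =>
    obtain ⟨d, p, hp⟩ := ha
    obtain ⟨d', p', hp'⟩ := hb
    refine ⟨d + d', q ^ d' * p + q ^ d * p', fun x => ?_⟩
    rw [map_add, map_mul, map_mul, map_pow, map_pow, hp, hp', hq, Pi.add_apply]
    ring
  | mul a b _ _ ha hb =>
    obtain ⟨d, p, hp⟩ := ha
    obtain ⟨d', p', hp'⟩ := hb
    refine ⟨d + d', p * p', fun x => ?_⟩
    rw [map_mul, hp, hp', Pi.mul_apply]
    ring

/-- The set of the matrices in the Zariski closure. -/
def clM (K : Subgroup (GL B ℂ)) : Set (Matrix B B ℂ) :=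
  {M | ∃ x ∈ cl (K : Set (GL B ℂ)), (x : Matrix B B ℂ) = M}

theorem poly_mem (p : MvPolynomial (B × B) ℂ) :
    (fun x : GL B ℂ => MvPolynomial.eval (fun b : B × B => (x : Matrix B B ℂ) b.1 b.2) p) ∈
      RR B := by
  induction p using MvPolynomial.induction_on with
  | C a =>
    have h : (fun x : GL B ℂ => MvPolynomial.eval (fun b : B × B => (x : Matrix B B ℂ) b.1 b.2)
        (MvPolynomial.C a)) = algebraMap ℂ (GL B ℂ → ℂ) a := by
      funext x
      rw [MvPolynomial.eval_C]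
      rfl
    rw [h]
    exact (RR B).algebraMap_mem a
  | add p q hp hq =>
    have h : (fun x : GL B ℂ => MvPolynomial.eval (fun b : B × B => (x : Matrix B B ℂ) b.1 b.2)
        (p + q)) = (fun x : GL B ℂ => MvPolynomial.eval
          (fun b : B × B => (x : Matrix B B ℂ) b.1 b.2) p) +
        (fun x : GL B ℂ => MvPolynomial.eval (fun b : B × B => (x : Matrix B B ℂ) b.1 b.2) q) := by
      funext x
      rw [map_add]
      rfl
    rw [h]
    exact Subalgebra.add_mem _ hp hq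
  | mul_X p b hp =>
    have h : (fun x : GL B ℂ => MvPolynomial.eval (fun b : B × B => (x : Matrix B B ℂ) b.1 b.2)
        (p * MvPolynomial.X b)) = (fun x : GL B ℂ => MvPolynomial.eval
          (fun b : B × B => (x : Matrix B B ℂ) b.1 b.2) p) *
        (fun x : GL B ℂ => (x : Matrix B B ℂ) b.1 b.2) := by
      funext x
      rw [map_mul, MvPolynomial.eval_X]
      rfl
    rw [h]
    exact Subalgebra.mul_mem _ hp (ent_mem _ _)

/-- The Zariski closure of a subgroup is an algebraic group. -/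
theorem algGrp_cl (K : Subgroup (GL B ℂ)) : AlgGrp ⊤ (clM K) where
  one := ⟨1, subset_cl _ K.one_mem, Units.val_one⟩
  mul := by
    rintro _ ⟨x, hx, rfl⟩ _ ⟨y, hy, rfl⟩
    exact ⟨x * y, cl_mul hx hy, Units.val_mul x y⟩
  inv := by
    rintro _ ⟨x, hx, rfl⟩
    exact ⟨_, ⟨x⁻¹, cl_inv hx, rfl⟩, x.val_inv, x.inv_val⟩
  alg := by
    refine ⟨{p | ∀ x ∈ K, MvPolynomial.eval (fun b : B × B => (x : Matrix B B ℂ) b.1 b.2) p = 0},
      fun _ _ _ => Subfield.mem_top _, fun M => ?_⟩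
    constructor
    · rintro ⟨x, hx, rfl⟩
      refine ⟨⟨(x⁻¹ : GL B ℂ), x.val_inv, x.inv_val⟩, fun p hp => ?_⟩
      exact hx _ (poly_mem p) hp
    · rintro ⟨⟨M', h1, h2⟩, h3⟩
      refine ⟨⟨M, M', h1, h2⟩, fun f hf hf0 => ?_, rfl⟩
      obtain ⟨d, p, hp⟩ := exists_poly hf
      have h4 := h3 p fun x hx => by rw [hp, hf0 x hx, mul_zero]
      have h5 := hp ⟨M, M', h1, h2⟩
      have h6 : ((⟨M, M', h1, h2⟩ : GL B ℂ) : Matrix B B ℂ).det ≠ 0 :=
        (Matrix.GeneralLinearGroup.det (⟨M, M', h1, h2⟩ : GL B ℂ)).ne_zero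
      have h7 : ((⟨M, M', h1, h2⟩ : GL B ℂ) : Matrix B B ℂ).det ^ d *
          f ⟨M, M', h1, h2⟩ = 0 := by
        rw [← h5]
        exact h4
      exact (mul_eq_zero.1 h7).resolve_left (pow_ne_zero _ h6)

end Pool.Agent.N208.AM
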